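import Pool.Agent.T2H99.AW.MD

/-! # McDiarmid's inequality for product measures with compact support -/

set_option autoImplicit false
set_option linter.unusedSectionVars false

open scoped BigOperators Topology
open MeasureTheory Filter ProbabilityTheory

namespace Pool.Agent.Zk60.LL.Mcd

variable {T : Type} [Fintype T] [DecidableEq T]

/-- truncation -/
noncomputable def cl (b s : ℝ) : ℝ := max (-b) (min b s)

theorem cl_abs (b s : ℝ) (hb : 0 ≤ b) : |cl b s| ≤ b := by
  unfold cl
  rw [abs_le]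
  exact ⟨le_max_left _ _, max_le (by linarith) (min_le_left _ _)⟩

theorem cl_eq (b s : ℝ) (hs : |s| ≤ b) : cl b s = s := by
  unfold cl
  have h := abs_le.1 hs
  rw [min_eq_right h.2, max_eq_right h.1]

theorem cl_meas (b : ℝ) : Measurable (cl b) := by
  unfold cl
  exact measurable_const.max (measurable_const.min measurable_id)

theorem cl_ae (μ : Measure ℝ) [IsProbabilityMeasure μ] (b : ℝ) (hb : ∀ᵐ s ∂μ, |s| ≤ b) :
    ∀ᵐ V ∂(Measure.pi fun _ : T => μ), (fun x => cl b (V x)) = V := by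
  have h1 : ∀ x : T, ∀ᵐ V ∂(Measure.pi fun _ : T => μ), cl b (V x) = V x := by
    intro x
    have h2 : ∀ᵐ s ∂μ, cl b s = s := by
      filter_upwards [hb] with s hs
      exact cl_eq b s hs
    exact (measurePreserving_eval (fun _ : T => μ) x).quasiMeasurePreserving.ae h2
  have h3 := ae_all_iff.2 h1
  filter_upwards [h3] with V hV
  funext x
  exact hV x

theorem comp_pi {Ω : Type} (m : MeasurableSpace Ω) (f : (T → ℝ) → ℝ) (hf : Measurable f)
    (g : Ω → T → ℝ) (hg : ∀ x, Measurable[m] (fun ω => g ω x)) :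
    Measurable[m] (fun ω => f (g ω)) := by
  let _ := m
  exact hf.comp (measurable_pi_iff.2 hg)

/-- lower tail -/
theorem mcd_low [Nonempty T] (μ : Measure ℝ) [IsProbabilityMeasure μ] (b : ℝ) (hb0 : 0 ≤ b)
    (hb : ∀ᵐ s ∂μ, |s| ≤ b) (f : (T → ℝ) → ℝ) (hf : Measurable f) (C B : ℝ)
    (hC : ∀ V, |f V| ≤ C) (hB : 0 < B)
    (hdiff : ∀ (V : T → ℝ) (v : T) (s : ℝ), (∀ x, |V x| ≤ b) → |s| ≤ b →
      |f V - f (Function.update V v s)| ≤ B) (r : ℝ) (hr : 0 ≤ r) :
    (Measure.pi fun _ : T => μ).real {V | f V ≤ (∫ V, f V ∂(Measure.pi fun _ : T => μ)) - r} ≤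
      Real.exp (-(r ^ 2) / (8 * B ^ 2 * Fintype.card T)) := by
  set P := Measure.pi fun _ : T => μ with hP
  set F : (T → ℝ) → ℝ := fun V => f (fun x => cl b (V x)) with hF
  have hFf : F =ᵐ[P] f := by
    filter_upwards [cl_ae μ b hb] with V hV
    rw [hF]
    simp only
    rw [hV]
  have hmcl : ∀ (m : MeasurableSpace (T → ℝ)) (y : T) , Measurable[m] (fun V : T → ℝ => V y) →
      Measurable[m] (fun V : T → ℝ => cl b (V y)) := fun m y h => (cl_meas b).comp h
  let m : T → MeasurableSpace (T → ℝ) := fun i => MeasurableSpace.comap (fun V : T → ℝ => V i)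
    inferInstance
  have hm : ∀ i, m i ≤ MeasurableSpace.pi := fun i => (measurable_pi_apply i).comap_le
  have hind : iIndep m P := by
    have h1 := iIndepFun_pi (μ := fun _ : T => μ) (X := fun _ : T => (id : ℝ → ℝ))
      (fun _ => aemeasurable_id)
    exact h1
  have hev : ∀ (A : Finset T) (y : T), y ∈ A →
      Measurable[⨆ x : A, m x] (fun V : T → ℝ => V y) := by
    intro A y hy
    have h1 : m y ≤ ⨆ x : A, m x := le_iSup (fun x : A => m x) ⟨y, hy⟩
    have h2 : Measurable[m y] (fun V : T → ℝ => V y) := comap_measurable _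
    exact h2.mono h1 le_rfl
  have hmain := Pool.Agent.T2H99.AW.mcdiarmid P m hm hind Finset.univ F
    (fun y V => f (Function.update (fun x => cl b (V x)) y 0)) C B ?_ (fun V => hC _) ?_
    (fun y V => hC _) hB ?_ Finset.univ_nonempty r hr
  · rw [Finset.card_univ] at hmain
    have e1 : ∫ V, F V ∂P = ∫ V, f V ∂P := integral_congr_ae hFf
    have e2 : P.real {V | f V ≤ (∫ V, f V ∂P) - r} = P.real {V | F V ≤ (∫ V, F V ∂P) - r} := by
      rw [e1]
      refine measureReal_congr ?_
      filter_upwards [hFf] with V hV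
      apply propext
      change f V ≤ _ ↔ F V ≤ _
      rw [hV]
    rw [e2]
    exact hmain
  · refine comp_pi _ f hf _ fun x => ?_
    exact hmcl _ x (hev Finset.univ x (Finset.mem_univ x))
  · intro y _
    refine comp_pi _ f hf _ fun x => ?_
    by_cases hxy : x = y
    · subst hxy
      simp only [Function.update_self]
      exact measurable_const
    · simp only [Function.update_of_ne hxy]
      exact hmcl _ x (hev (Finset.univ.erase y) x (Finset.mem_erase.2 ⟨hxy, Finset.mem_univ x⟩))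
  · intro y _ V
    exact hdiff _ y 0 (fun x => cl_abs b _ hb0) (by simpa using hb0)

/-- upper tail -/
theorem mcd_up [Nonempty T] (μ : Measure ℝ) [IsProbabilityMeasure μ] (b : ℝ) (hb0 : 0 ≤ b)
    (hb : ∀ᵐ s ∂μ, |s| ≤ b) (f : (T → ℝ) → ℝ) (hf : Measurable f) (C B : ℝ)
    (hC : ∀ V, |f V| ≤ C) (hB : 0 < B)
    (hdiff : ∀ (V : T → ℝ) (v : T) (s : ℝ), (∀ x, |V x| ≤ b) → |s| ≤ b →
      |f V - f (Function.update V v s)| ≤ B) (r : ℝ) (hr : 0 ≤ r) :
    (Measure.pi fun _ : T => μ).real {V | (∫ V, f V ∂(Measure.pi fun _ : T => μ)) + r ≤ f V} ≤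
      Real.exp (-(r ^ 2) / (8 * B ^ 2 * Fintype.card T)) := by
  have h1 := mcd_low μ b hb0 hb (fun V => -f V) hf.neg C B (fun V => by rw [abs_neg]; exact hC V) hB
    (fun V v s hV hs => by
      have := hdiff V v s hV hs
      rw [abs_sub_comm] at this
      rwa [neg_sub_neg]) r hr
  refine le_trans (le_of_eq ?_) h1
  congr 1
  ext V
  rw [integral_neg]
  constructor
  · intro h
    have h2 : (∫ V, f V ∂(Measure.pi fun _ : T => μ)) + r ≤ f V := h
    change -f V ≤ -(∫ V, f V ∂(Measure.pi fun _ : T => μ)) - r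
    linarith
  · intro h
    have h2 : -f V ≤ -(∫ V, f V ∂(Measure.pi fun _ : T => μ)) - r := h
    change (∫ V, f V ∂(Measure.pi fun _ : T => μ)) + r ≤ f V
    linarith

end Pool.Agent.Zk60.LL.Mcd
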