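import Pool.Agent.Zk11.QD.Gen

/-! # The free density of states has total mass one -/

set_option autoImplicit false
set_option linter.unusedSectionVars false

open scoped BigOperators Topology
open MeasureTheory Filter

namespace Pool.Agent.Zk60.LL.Dos

open Pool.Agent.Zk11.QD

variable {d : ℕ}

theorem po_integral (δ s a b : ℝ) (hδ : 0 < δ) (hab : a ≤ b) :
    ∫ u in Set.Icc a b, po δ (s - u) = Real.arctan ((s - a) / δ) - Real.arctan ((s - b) / δ) := by
  rw [integral_Icc_eq_integral_Ioc, ← intervalIntegral.integral_of_le hab]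
  have hder : ∀ u ∈ Set.uIcc a b, HasDerivAt (fun u : ℝ => -Real.arctan ((s - u) / δ))
      (po δ (s - u)) u := by
    intro u _
    have h1 : HasDerivAt (fun u : ℝ => (s - u) / δ) (-1 / δ) u := by
      have := ((hasDerivAt_const u s).sub (hasDerivAt_id u)).div_const δ
      refine this.congr_deriv ?_
      ring
    refine (h1.arctan.neg).congr_deriv ?_
    unfold po
    have : 0 < (s - u) ^ 2 + δ ^ 2 := by positivity
    field_simp
    ring
  have hc : Continuous fun u : ℝ => po δ (s - u) := (po_cont δ hδ).comp (by fun_prop)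
  rw [intervalIntegral.integral_eq_sub_of_hasDerivAt hder (hc.intervalIntegrable a b)]
  ring

theorem po_nonneg (δ y : ℝ) (hδ : 0 < δ) : 0 ≤ po δ y := by
  unfold po; positivity

theorem po_low (δ s a b ρ : ℝ) (hδ : 0 < δ) (hρ : 0 < ρ) (ha : a + ρ ≤ s) (hb : s + ρ ≤ b) :
    2 * Real.arctan (ρ / δ) ≤ ∫ u in Set.Icc a b, po δ (s - u) := by
  rw [po_integral δ s a b hδ (by linarith)]
  have h1 : Real.arctan (ρ / δ) ≤ Real.arctan ((s - a) / δ) := by
    apply Real.arctan_strictMono.monotone
    exact div_le_div_of_nonneg_right (by linarith) hδ.le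
  have h2 : Real.arctan ((s - b) / δ) ≤ -Real.arctan (ρ / δ) := by
    rw [← Real.arctan_neg, ← neg_div]
    apply Real.arctan_strictMono.monotone
    exact div_le_div_of_nonneg_right (by linarith) hδ.le
  linarith

/-- the spectral measure of the free Laplacian away from the edges -/
theorem cube_mass (hd : 1 ≤ d) (ε : ℝ) (hε : 0 < ε) : ∃ ρ : ℝ, 0 < ρ ∧ 4 * ρ < 4 * d ∧
    1 - ε ≤ volume.real {k : Fin d → ℝ | k ∈ cube d ∧ 2 * ρ ≤ ek k ∧ ek k ≤ 4 * d - 2 * ρ} := by
  set i0 : Fin d := ⟨0, hd⟩
  have hd0 : (1 : ℝ) ≤ d := by exact_mod_cast hd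
  set A : ℕ → Set (Fin d → ℝ) := fun n => {k | k ∈ cube d ∧ 2 * (1 / ((n : ℝ) + 2)) ≤ ek k ∧
    ek k ≤ 4 * d - 2 * (1 / ((n : ℝ) + 2))} with hA
  have hmono : Monotone A := by
    intro m n hmn k hk
    obtain ⟨h1, h2, h3⟩ := hk
    have h4 : 1 / ((n : ℝ) + 2) ≤ 1 / ((m : ℝ) + 2) := by
      apply one_div_le_one_div_of_le (by positivity)
      have : (m : ℝ) ≤ n := by exact_mod_cast hmn
      linarith
    exact ⟨h1, by linarith, by linarith⟩
  have hcm : MeasurableSet (cube d) := MeasurableSet.univ_pi fun _ => measurableSet_Icc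
  have hunion : (⋃ n, A n) = {k | k ∈ cube d ∧ 0 < ek k ∧ ek k < 4 * d} := by
    ext k
    simp only [Set.mem_iUnion, hA, Set.mem_ofPred_eq]
    constructor
    · rintro ⟨n, h1, h2, h3⟩
      have : 0 < 1 / ((n : ℝ) + 2) := by positivity
      exact ⟨h1, by linarith, by linarith⟩
    · rintro ⟨h1, h2, h3⟩
      obtain ⟨n, hn⟩ := exists_nat_one_div_lt (show 0 < min (ek k / 2) ((4 * d - ek k) / 2) by
        apply lt_min <;> linarith)
      have h5 : 1 / ((n : ℝ) + 2) ≤ 1 / ((n : ℝ) + 1) := by
        apply one_div_le_one_div_of_le (by positivity)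
        linarith
      have h6 := lt_min_iff.1 hn
      exact ⟨n, h1, by linarith [h6.1], by linarith [h6.2]⟩
  -- the complement is null
  have hnull : volume ({k : Fin d → ℝ | k i0 = 0} ∪ ({k | k i0 = 1} ∪ {k | k i0 = 1 / 2})) = 0 := by
    rw [measure_union_null_iff, measure_union_null_iff]
    exact ⟨Measure.pi_hyperplane _ i0 0, Measure.pi_hyperplane _ i0 1,
      Measure.pi_hyperplane _ i0 (1 / 2)⟩
  have hvol : volume (cube d) = 1 := by
    unfold cube
    rw [volume_pi, Measure.pi_pi]
    simp
  have hsub : cube d ⊆ {k | k ∈ cube d ∧ 0 < ek k ∧ ek k < 4 * d} ∪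
      ({k : Fin d → ℝ | k i0 = 0} ∪ ({k | k i0 = 1} ∪ {k | k i0 = 1 / 2})) := by
    intro k hk
    by_cases h : 0 < ek k ∧ ek k < 4 * d
    · exact Or.inl ⟨hk, h.1, h.2⟩
    · right
      have hki : k i0 ∈ Set.Icc (0 : ℝ) 1 := hk i0 (Set.mem_univ _)
      have hcos : ∀ i, -1 ≤ Real.cos (2 * Real.pi * k i) ∧ Real.cos (2 * Real.pi * k i) ≤ 1 :=
        fun i => ⟨Real.neg_one_le_cos _, Real.cos_le_one _⟩
      have hpi := Real.pi_pos
      rw [not_and_or] at h
      rcases h with h | h
      · -- ek ≤ 0
        have h1 : 2 - 2 * Real.cos (2 * Real.pi * k i0) ≤ ek k := by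
          unfold ek
          exact Finset.single_le_sum (f := fun i => 2 - 2 * Real.cos (2 * Real.pi * k i))
            (fun i _ => by linarith [(hcos i).2]) (Finset.mem_univ i0)
        have h2 : Real.cos (2 * Real.pi * k i0) = 1 := by
          have := (hcos i0).2
          push Not at h
          linarith
        rw [Real.cos_eq_one_iff] at h2
        obtain ⟨n, hn⟩ := h2
        have h3 : (n : ℝ) = k i0 := by
          have h5 : (n : ℝ) * (2 * Real.pi) = k i0 * (2 * Real.pi) := by linarith
          exact mul_right_cancel₀ (by positivity) h5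
        have h4 : n = 0 ∨ n = 1 := by
          have h5 : (0 : ℝ) ≤ n := by rw [h3]; exact hki.1
          have h6 : (n : ℝ) ≤ 1 := by rw [h3]; exact hki.2
          have h7 : 0 ≤ n := by exact_mod_cast h5
          have h8 : n ≤ 1 := by exact_mod_cast h6
          omega
        rcases h4 with h4 | h4
        · left
          show k i0 = 0
          rw [← h3, h4]; simp
        · right; left
          show k i0 = 1
          rw [← h3, h4]; simp
      · right; right
        have h1 : 4 * (d : ℝ) - ek k = ∑ i, (2 + 2 * Real.cos (2 * Real.pi * k i)) := by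
          unfold ek
          have : 4 * (d : ℝ) = ∑ _i : Fin d, (4 : ℝ) := by
            rw [Finset.sum_const, Finset.card_univ, Fintype.card_fin, nsmul_eq_mul]; ring
          rw [this, ← Finset.sum_sub_distrib]
          exact Finset.sum_congr rfl fun i _ => by ring
        have h2 : 2 + 2 * Real.cos (2 * Real.pi * k i0) ≤ 4 * (d : ℝ) - ek k := by
          rw [h1]
          exact Finset.single_le_sum (f := fun i => 2 + 2 * Real.cos (2 * Real.pi * k i))
            (fun i _ => by linarith [(hcos i).1]) (Finset.mem_univ i0)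
        have h3 : Real.cos (2 * Real.pi * k i0 - Real.pi) = 1 := by
          rw [Real.cos_sub_pi]
          have := (hcos i0).1
          push Not at h
          linarith
        rw [Real.cos_eq_one_iff] at h3
        obtain ⟨n, hn⟩ := h3
        have h4 : (n : ℝ) + 1 / 2 = k i0 := by
          have h5 : ((n : ℝ) + 1 / 2) * (2 * Real.pi) = k i0 * (2 * Real.pi) := by linarith
          exact mul_right_cancel₀ (by positivity) h5
        have h6 : n = 0 := by
          have h7 : (-1 : ℝ) < n := by linarith [hki.1]
          have h8 : (n : ℝ) < 1 := by linarith [hki.2]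
          have h9 : -1 < n := by exact_mod_cast h7
          have h10 : n < 1 := by exact_mod_cast h8
          omega
        show k i0 = 1 / 2
        rw [← h4, h6]; simp
  have hone : volume {k : Fin d → ℝ | k ∈ cube d ∧ 0 < ek k ∧ ek k < 4 * d} = 1 := by
    apply le_antisymm
    · rw [← hvol]
      exact measure_mono fun k hk => hk.1
    · rw [← hvol]
      refine (measure_mono hsub).trans ((measure_union_le _ _).trans ?_)
      rw [hnull, add_zero]
  have hlim := tendsto_measure_iUnion_atTop (μ := volume) hmono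
  rw [hunion, hone] at hlim
  have hlim2 : Tendsto (fun n => volume.real (A n)) atTop (𝓝 1) := by
    have := (ENNReal.tendsto_toReal ENNReal.one_ne_top).comp hlim
    rw [ENNReal.toReal_one] at this
    exact this
  obtain ⟨n, hn⟩ := (hlim2.eventually (lt_mem_nhds (show 1 - ε < 1 by linarith))).exists
  refine ⟨1 / ((n : ℝ) + 2), by positivity, ?_, hn.le⟩
  have : 1 / ((n : ℝ) + 2) ≤ 1 / 2 := by
    apply one_div_le_one_div_of_le (by norm_num)
    have : (0 : ℝ) ≤ n := Nat.cast_nonneg n
    linarith
  linarith

/-- the free density of states -/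
theorem dos_mass (hd : 3 ≤ d) (ε : ℝ) (hε : 0 < ε) : ∃ E1 E2 : ℝ, 0 < E1 ∧ E1 < E2 ∧ E2 < 4 * d ∧
    Real.pi - ε ≤ ∫ u in Set.Icc E1 E2, (g0 d u).im := by
  have hpi := Real.pi_pos
  obtain ⟨ρ, hρ, hρd, hmass⟩ := cube_mass (d := d) (by omega) (ε / Real.pi) (by positivity)
  refine ⟨ρ, 4 * d - ρ, hρ, by linarith, by linarith, ?_⟩
  set E1 := ρ
  set E2 := 4 * (d : ℝ) - ρ with hE2
  set A := {k : Fin d → ℝ | k ∈ cube d ∧ 2 * ρ ≤ ek k ∧ ek k ≤ 4 * d - 2 * ρ} with hAdef
  set C0 : ℝ := ∫ t in Set.Ioi (0 : ℝ), ‖GG d t‖ with hC0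
  set δ : ℕ → ℝ := fun n => 1 / ((n : ℝ) + 1) with hδ
  have hδ0 : ∀ n, 0 < δ n := fun n => by rw [hδ]; positivity
  have hδlim : Tendsto δ atTop (𝓝[>] 0) := by
    rw [tendsto_nhdsWithin_iff]
    exact ⟨tendsto_one_div_add_atTop_nhds_zero_nat, Eventually.of_forall hδ0⟩
  have hcm : MeasurableSet (cube d) := MeasurableSet.univ_pi fun _ => measurableSet_Icc
  have hAm : MeasurableSet A := by
    refine hcm.inter ?_
    exact (measurableSet_le measurable_const ek_cont.measurable).inter
      (measurableSet_le ek_cont.measurable measurable_const)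
  have hrep : ∀ (n : ℕ) (u : ℝ), ∫ k in cube d, po (δ n) (ek k - u) =
      (Lap (GG d) ((u : ℂ) + (δ n : ℝ) * Complex.I)).im := by
    intro n u
    rw [GG_rep _ (by simpa using hδ0 n), po_im (fun _ => 1) continuous_const u (δ n) (hδ0 n)]
    simp only [one_mul]
  -- dominated convergence
  have hdom : Tendsto (fun n => ∫ u in Set.Icc E1 E2, ∫ k in cube d, po (δ n) (ek k - u)) atTop
      (𝓝 (∫ u in Set.Icc E1 E2, (g0 d u).im)) := by
    refine tendsto_integral_of_dominated_convergence (fun _ => C0) (fun n => ?_)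
      (integrable_const _) (fun n => ?_) ?_
    · refine Continuous.aestronglyMeasurable ?_
      simp only [hrep]
      refine Complex.continuous_im.comp ?_
      rw [continuous_iff_continuousAt]
      intro u
      have hopen : IsOpen {w : ℂ | 0 < w.im} := isOpen_lt continuous_const Complex.continuous_im
      -- continuity of the Laplace transform in the upper half plane
      have h1 : Continuous fun u : ℝ => Lap (GG d) ((u : ℂ) + (δ n : ℝ) * Complex.I) := by
        unfold Lap
        refine continuous_const.mul ?_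
        refine continuous_of_dominated (bound := fun t => ‖GG d t‖) (fun v => ?_) (fun v => ?_)
          (GG_int hd).norm ?_
        · exact (Continuous.mul (by fun_prop) GG_cont).aestronglyMeasurable
        · refine (ae_restrict_mem measurableSet_Ioi).mono fun t ht => ?_
          have ht0 : 0 < t := ht
          rw [norm_mul, exp_norm]
          have h2 : Real.exp (-(((v : ℂ) + (δ n : ℝ) * Complex.I).im * t)) ≤ 1 := by
            rw [Real.exp_le_one_iff]
            have : ((v : ℂ) + (δ n : ℝ) * Complex.I).im = δ n := by simp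
            rw [this]
            have := hδ0 n
            nlinarith
          exact mul_le_of_le_one_left (norm_nonneg _) h2
        · refine Eventually.of_forall fun t => ?_
          fun_prop
      exact h1.continuousAt
    · refine Eventually.of_forall fun u => ?_
      rw [hrep, Real.norm_eq_abs]
      refine (Complex.abs_im_le_norm _).trans ?_
      exact lap_bound (GG d) (GG_int hd) _ (by simpa using (hδ0 n).le)
    · refine Eventually.of_forall fun u => ?_
      exact (g0_po hd u).comp hδlim
  -- lower bound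
  have hlow : ∀ n, volume.real A * (2 * Real.arctan (ρ / δ n)) ≤
      ∫ u in Set.Icc E1 E2, ∫ k in cube d, po (δ n) (ek k - u) := by
    intro n
    have hjc : Continuous fun p : ℝ × (Fin d → ℝ) => po (δ n) (ek p.2 - p.1) :=
      (po_cont (δ n) (hδ0 n)).comp ((ek_cont.comp continuous_snd).sub continuous_fst)
    have hint : Integrable (fun p : ℝ × (Fin d → ℝ) => po (δ n) (ek p.2 - p.1))
        ((volume.restrict (Set.Icc E1 E2)).prod (volume.restrict (cube d))) := by
      refine Integrable.mono' (integrable_const (1 / δ n)) hjc.aestronglyMeasurable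
        (Eventually.of_forall fun p => ?_)
      have h0 := hδ0 n
      rw [Real.norm_eq_abs, abs_of_nonneg (po_nonneg _ _ h0)]
      unfold po
      rw [div_le_div_iff₀ (by positivity) h0]
      nlinarith [sq_nonneg (ek p.2 - p.1)]
    have hswap := integral_integral_swap (f := fun (u : ℝ) (k : Fin d → ℝ) =>
      po (δ n) (ek k - u)) (μ := volume.restrict (Set.Icc E1 E2)) (ν := volume.restrict (cube d)) hint
    rw [hswap]
    have hik : Integrable (fun k : Fin d → ℝ => ∫ u in Set.Icc E1 E2, po (δ n) (ek k - u))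
        (volume.restrict (cube d)) := hint.integral_prod_right
    have hnn : ∀ k : Fin d → ℝ, 0 ≤ ∫ u in Set.Icc E1 E2, po (δ n) (ek k - u) :=
      fun k => integral_nonneg fun u => po_nonneg _ _ (hδ0 n)
    have h1 : ∫ k in A, (2 * Real.arctan (ρ / δ n)) ≤
        ∫ k in A, ∫ u in Set.Icc E1 E2, po (δ n) (ek k - u) := by
      refine setIntegral_mono_on ?_ ?_ hAm fun k hk => ?_
      · refine integrableOn_const ?_
        refine ne_of_lt (lt_of_le_of_lt (measure_mono fun k hk => hk.1) ?_)
        show volume (cube d) < ⊤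
        exact (isCompact_univ_pi fun _ => isCompact_Icc).measure_lt_top
      · exact IntegrableOn.mono_set hik fun k hk => hk.1
      · exact po_low (δ n) (ek k) E1 E2 ρ (hδ0 n) hρ (by linarith [hk.2.1]) (by
          rw [hE2]; linarith [hk.2.2])
    rw [setIntegral_const, smul_eq_mul] at h1
    refine h1.trans ?_
    exact setIntegral_mono_set hik (Eventually.of_forall hnn) (Eventually.of_forall fun k hk => hk.1)
  -- limit of the lower bound
  have hlim2 : Tendsto (fun n => volume.real A * (2 * Real.arctan (ρ / δ n))) atTop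
      (𝓝 (volume.real A * (2 * (Real.pi / 2)))) := by
    refine (Tendsto.const_mul _ (Tendsto.const_mul _ ?_))
    have h1 : Tendsto (fun n => ρ / δ n) atTop atTop := by
      have h2 : (fun n => ρ / δ n) = fun n : ℕ => ρ * ((n : ℝ) + 1) := by
        funext n
        rw [hδ]
        simp only
        field_simp
      rw [h2]
      exact (tendsto_atTop_add_const_right _ 1 tendsto_natCast_atTop_atTop).const_mul_atTop hρ
    exact (tendsto_nhds_of_tendsto_nhdsWithin Real.tendsto_arctan_atTop).comp h1
  have h3 := le_of_tendsto_of_tendsto hlim2 hdom (Eventually.of_forall hlow)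
  have h4 : (1 - ε / Real.pi) * Real.pi ≤ volume.real A * Real.pi :=
    mul_le_mul_of_nonneg_right hmass hpi.le
  have h5 : (1 - ε / Real.pi) * Real.pi = Real.pi - ε := by field_simp
  have h6 : volume.real A * (2 * (Real.pi / 2)) = volume.real A * Real.pi := by ring
  rw [h6] at h3
  linarith

end Pool.Agent.Zk60.LL.Dos
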