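import Pool.Agent.Zk60.LL.Lim
import Pool.Agent.Zk60.LL.Dos

/-! # The limit of large tori: bound -/

set_option autoImplicit false
set_option linter.unusedSectionVars false

open scoped BigOperators Topology
open MeasureTheory Filter

namespace Pool.Agent.Zk60.LL.Bnd

open Pool.Agent.W788.MFP.Four (T)
open Pool.Agent.Zk11.QD
open Pool.Agent.Zk60.LL.Ker Pool.Agent.Zk60.LL.Prob Pool.Agent.Zk60.LL.Det Pool.Agent.Zk60.LL.Lim

variable {d : ℕ}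

/-- the momenta -/
noncomputable def th (i0 : Fin d) (s A : ℝ) (M : ℕ) (m : Fin M) (j : Fin d) : ℝ :=
  s * (Pi.single i0 (A * (m : ℝ)) : Fin d → ℝ) j

noncomputable def PP (i0 : Fin d) (A : ℝ) (M : ℕ) (q : Fin M × Fin M) (j : Fin d) : ℝ :=
  (Pi.single i0 (A * ((q.1 : ℕ) : ℝ)) : Fin d → ℝ) j - (Pi.single i0 (A * ((q.2 : ℕ) : ℝ)) : Fin d → ℝ) j

theorem PP_sq (i0 : Fin d) (A : ℝ) (M : ℕ) (q : Fin M × Fin M) :
    ∑ j, PP i0 A M q j ^ 2 = A ^ 2 * (((q.1 : ℕ) : ℝ) - ((q.2 : ℕ) : ℝ)) ^ 2 := by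
  rw [Finset.sum_eq_single i0]
  · unfold PP
    rw [Pi.single_eq_same, Pi.single_eq_same]
    ring
  · intro j _ hj
    unfold PP
    rw [Pi.single_eq_of_ne hj, Pi.single_eq_of_ne hj]
    ring
  · intro h; exact absurd (Finset.mem_univ _) h

theorem single_le (i0 : Fin d) (A : ℝ) (hA : 0 ≤ A) (M : ℕ) (m : Fin M) (j : Fin d) :
    0 ≤ (Pi.single i0 (A * ((m : ℕ) : ℝ)) : Fin d → ℝ) j ∧
      (Pi.single i0 (A * ((m : ℕ) : ℝ)) : Fin d → ℝ) j ≤ A * M := by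
  have hm : ((m : ℕ) : ℝ) ≤ M := by exact_mod_cast m.2.le
  have hm0 : (0 : ℝ) ≤ ((m : ℕ) : ℝ) := Nat.cast_nonneg _
  by_cases hj : j = i0
  · subst hj
    rw [Pi.single_eq_same]
    exact ⟨mul_nonneg hA hm0, mul_le_mul_of_nonneg_left hm hA⟩
  · rw [Pi.single_eq_of_ne hj]
    exact ⟨le_rfl, mul_nonneg hA (Nat.cast_nonneg _)⟩

theorem PP_le (i0 : Fin d) (A : ℝ) (hA : 0 ≤ A) (M : ℕ) (q : Fin M × Fin M) (j : Fin d) :
    |PP i0 A M q j| ≤ A * M := by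
  have h1 := single_le i0 A hA M q.1 j
  have h2 := single_le i0 A hA M q.2 j
  unfold PP
  rw [abs_le]
  constructor
  · linarith
  · linarith

theorem th_le (i0 : Fin d) (s A : ℝ) (hs : 0 ≤ s) (hA : 0 ≤ A) (M : ℕ) (m : Fin M) (j : Fin d) :
    |th i0 s A M m j| ≤ s * (A * M) := by
  have h1 := single_le i0 A hA M m j
  unfold th
  rw [abs_of_nonneg (mul_nonneg hs h1.1)]
  exact mul_le_mul_of_nonneg_left h1.2 hs

theorem th_sub (i0 : Fin d) (s A : ℝ) (M : ℕ) (q : Fin M × Fin M) (j : Fin d) :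
    th i0 s A M q.1 j - th i0 s A M q.2 j = s * PP i0 A M q j := by
  unfold th PP
  ring

/-- the sum over the pairs -/
theorem pair_sum (M : ℕ) (hM : 0 < M) (g D D0 A : ℝ) (hg : 0 ≤ g) (hD0 : 0 < D0) (hD : D0 ≤ D) :
    ∑ q : Fin M × Fin M, 1 / (M : ℝ) ^ 2 *
      (g / (1 + D * (A ^ 2 * (((q.1 : ℕ) : ℝ) - ((q.2 : ℕ) : ℝ)) ^ 2))) ≤
      g * (1 / M + 1 / (1 + D0 * A ^ 2)) := by
  have hM0 : (0 : ℝ) < M := by exact_mod_cast hM
  have h1 : ∀ q : Fin M × Fin M, g / (1 + D * (A ^ 2 * (((q.1 : ℕ) : ℝ) - ((q.2 : ℕ) : ℝ)) ^ 2)) ≤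
      (if q.1 = q.2 then g else 0) + g / (1 + D0 * A ^ 2) := by
    intro q
    have hpos : 0 ≤ g / (1 + D0 * A ^ 2) := by positivity
    by_cases hq : q.1 = q.2
    · rw [if_pos hq, hq]
      have : (1 : ℝ) + D * (A ^ 2 * (((q.2 : ℕ) : ℝ) - ((q.2 : ℕ) : ℝ)) ^ 2) = 1 := by ring
      rw [this, div_one]
      linarith
    · rw [if_neg hq, zero_add]
      apply div_le_div_of_nonneg_left hg (by positivity)
      have h2 : (1 : ℝ) ≤ (((q.1 : ℕ) : ℝ) - ((q.2 : ℕ) : ℝ)) ^ 2 := by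
        have h3 : ((q.1 : ℕ) : ℤ) - ((q.2 : ℕ) : ℤ) ≠ 0 := by
          intro h4
          apply hq
          apply Fin.ext
          omega
        have h5 : 1 ≤ (((q.1 : ℕ) : ℤ) - ((q.2 : ℕ) : ℤ)) ^ 2 := by
          have := sq_pos_of_ne_zero h3 |> Int.add_one_le_iff.2
          simpa using this
        exact_mod_cast h5
      have h6 : 0 ≤ A ^ 2 := sq_nonneg A
      have h7 : D0 * A ^ 2 ≤ D * (A ^ 2 * (((q.1 : ℕ) : ℝ) - ((q.2 : ℕ) : ℝ)) ^ 2) := by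
        calc D0 * A ^ 2 ≤ D * A ^ 2 := mul_le_mul_of_nonneg_right hD h6
          _ = D * (A ^ 2 * 1) := by ring
          _ ≤ _ := mul_le_mul_of_nonneg_left (mul_le_mul_of_nonneg_left h2 h6) (by linarith)
      linarith
  have h2 : ∑ q : Fin M × Fin M, (if q.1 = q.2 then g else 0) = M * g := by
    rw [Fintype.sum_prod_type]
    simp
  calc _ ≤ ∑ q : Fin M × Fin M, 1 / (M : ℝ) ^ 2 *
        ((if q.1 = q.2 then g else 0) + g / (1 + D0 * A ^ 2)) :=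
        Finset.sum_le_sum fun q _ => mul_le_mul_of_nonneg_left (h1 q) (by positivity)
    _ = g * (1 / M + 1 / (1 + D0 * A ^ 2)) := by
        rw [← Finset.mul_sum, Finset.sum_add_distrib, h2, Finset.sum_const, Finset.card_univ,
          Fintype.card_prod, Fintype.card_fin, nsmul_eq_mul]
        push_cast
        field_simp

/-- bound for the limit at a fixed energy -/
theorem lim_le (hd : 3 ≤ d) (μ : Measure ℝ) [IsProbabilityMeasure μ] (lam η u : ℝ) (hη : 0 < η)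
    (i0 : Fin d) (A : ℝ) (hA : 0 ≤ A) (M : ℕ) (hM : 0 < M) (ε2 Vv D0 : ℝ) (hD0 : 0 < D0)
    (hD : D0 ≤ (h0 d u).im / (4 * (g0 d u).im ^ 2 * Vv)) (hg : 0 ≤ (g0 d u).im)
    (hq : ∀ P : Fin d → ℝ, (∀ j, |P j| ≤ A * M) → ∀ G : (Zd d → ℝ) → Zd d → ℂ,
        (∀ᵐ ω ∂(PZ d μ), IsG lam ω ((u : ℂ) + η * Complex.I) (G ω)) →
        ‖(η : ℂ) * ∑' y : Zd d, Complex.exp (((∑ j, lam * Real.sqrt η * P j * y j : ℝ) : ℂ) *
          Complex.I) * ((∫ ω, ‖G ω y‖ ^ 2 ∂(PZ d μ) : ℝ) : ℂ) -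
          (((g0 d u).im / (1 + (h0 d u).im / (4 * (g0 d u).im ^ 2 * Vv) *
            ∑ j, P j ^ 2) : ℝ) : ℂ)‖ ≤ ε2) :
    ∃ l : ℝ, Tendsto (fun h : ℕ => hu μ (KT (d := d) (2 * h + 1) M (th i0 (lam * Real.sqrt η) A M))
      η lam u) atTop (𝓝 l) ∧
      l ≤ (g0 d u).im * (1 / M + 1 / (1 + D0 * A ^ 2)) - (g0 d u).im + 2 * ε2 := by
  have hz : 0 < ((u : ℂ) + η * Complex.I).im := by simpa using hη
  choose G hG using fun ω : Zd d → ℝ => isG_exists lam ω ((u : ℂ) + η * Complex.I) hz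
  have hGae : ∀ᵐ ω ∂(PZ d μ), IsG lam ω ((u : ℂ) + η * Complex.I) (G ω) := Eventually.of_forall hG
  set θ := th i0 (lam * Real.sqrt η) A M with hθ
  refine ⟨_, hu_lim μ lam M hM θ η u hη G hGae, ?_⟩
  rw [lim_val μ lam M θ η u hη G hGae, Complex.sub_re, Complex.re_sum]
  have hM0 : (0 : ℝ) < M := by exact_mod_cast hM
  have hAM : 0 ≤ A * M := by positivity
  set g := (g0 d u).im with hgdef
  set D := (h0 d u).im / (4 * g ^ 2 * Vv) with hDdef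
  -- the terms
  have h1 : ∀ q : Fin M × Fin M, ((((1 / (M : ℝ) ^ 2 : ℝ)) : ℂ) * ((η : ℂ) * ∑' y : Zd d,
        Complex.exp (((∑ j, (θ q.1 j - θ q.2 j) * y j : ℝ) : ℂ) * Complex.I) *
          ((∫ ω, ‖G ω y‖ ^ 2 ∂(PZ d μ) : ℝ) : ℂ))).re ≤
      1 / (M : ℝ) ^ 2 * (g / (1 + D * (A ^ 2 * (((q.1 : ℕ) : ℝ) - ((q.2 : ℕ) : ℝ)) ^ 2)) + ε2) := by
    intro q
    rw [Complex.re_ofReal_mul]
    refine mul_le_mul_of_nonneg_left ?_ (by positivity)
    have h2 := hq (PP i0 A M q) (PP_le i0 A hA M q) G hGae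
    rw [PP_sq] at h2
    have h3 : ∀ y : Zd d, ∑ j, lam * Real.sqrt η * PP i0 A M q j * (y j : ℝ) =
        ∑ j, (θ q.1 j - θ q.2 j) * (y j : ℝ) := by
      intro y
      refine Finset.sum_congr rfl fun j _ => ?_
      rw [hθ, th_sub]
    simp only [h3] at h2
    have h4 := (abs_le.1 ((Complex.abs_re_le_norm _).trans h2)).2
    rw [Complex.sub_re, Complex.ofReal_re] at h4
    linarith
  have h2 : g - ε2 ≤ ((η : ℂ) * ∑' y : Zd d, ((∫ ω, ‖G ω y‖ ^ 2 ∂(PZ d μ) : ℝ) : ℂ)).re := by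
    have h3 := hq (fun _ => 0) (fun j => by simpa using hAM) G hGae
    simp only [mul_zero, zero_mul, Finset.sum_const_zero, Complex.ofReal_zero, Complex.exp_zero,
      one_mul, ne_eq, OfNat.ofNat_ne_zero, not_false_eq_true, zero_pow, add_zero, div_one] at h3
    have h4 := (abs_le.1 ((Complex.abs_re_le_norm _).trans h3)).1
    rw [Complex.sub_re, Complex.ofReal_re] at h4
    linarith
  have h3 := pair_sum M hM g D D0 A hg hD0 hD
  have h4 : ∑ q : Fin M × Fin M, 1 / (M : ℝ) ^ 2 *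
      (g / (1 + D * (A ^ 2 * (((q.1 : ℕ) : ℝ) - ((q.2 : ℕ) : ℝ)) ^ 2)) + ε2) =
      (∑ q : Fin M × Fin M, 1 / (M : ℝ) ^ 2 *
      (g / (1 + D * (A ^ 2 * (((q.1 : ℕ) : ℝ) - ((q.2 : ℕ) : ℝ)) ^ 2)))) + ε2 := by
    simp only [mul_add, Finset.sum_add_distrib]
    congr 1
    rw [Finset.sum_const, Finset.card_univ, Fintype.card_prod, Fintype.card_fin, nsmul_eq_mul]
    push_cast
    field_simp
  have h5 := Finset.sum_le_sum fun q (_ : q ∈ (Finset.univ : Finset (Fin M × Fin M))) => h1 q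
  rw [h4] at h5
  linarith

end Pool.Agent.Zk60.LL.Bnd
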