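import Mathlib

/-! # The integral of a product of two Cauchy kernels -/

set_option autoImplicit false

open scoped BigOperators Topology
open MeasureTheory Filter

namespace Pool.Agent.Zk60.LL.Cau

/-- `Re (1 / ((a - u - iη) conj (b - u - iη)))` -/
noncomputable def fc (η a b u : ℝ) : ℝ :=
  ((a - u) * (b - u) + η ^ 2) / (((a - u) ^ 2 + η ^ 2) * ((b - u) ^ 2 + η ^ 2))

theorem cau_int (η a : ℝ) (hη : 0 < η) : Integrable fun u : ℝ => 1 / ((a - u) ^ 2 + η ^ 2) := by
  have h1 : Integrable fun u : ℝ => (1 + u ^ 2)⁻¹ := integrable_inv_one_add_sq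
  have h2 := (h1.comp_mul_left' (R := 1 / η) (by positivity)).comp_sub_right a
  refine (h2.const_mul (1 / η ^ 2)).congr (Eventually.of_forall fun u => ?_)
  simp only
  have : 0 < (a - u) ^ 2 + η ^ 2 := by positivity
  field_simp
  ring

theorem fc_le (η a b u : ℝ) (hη : 0 < η) :
    |fc η a b u| ≤ 1 / 2 * (1 / ((a - u) ^ 2 + η ^ 2)) + 1 / 2 * (1 / ((b - u) ^ 2 + η ^ 2)) := by
  have ha : 0 < (a - u) ^ 2 + η ^ 2 := by positivity
  have hb : 0 < (b - u) ^ 2 + η ^ 2 := by positivity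
  unfold fc
  rw [abs_div, abs_of_pos (mul_pos ha hb), div_le_iff₀ (mul_pos ha hb)]
  have e : (1 / 2 * (1 / ((a - u) ^ 2 + η ^ 2)) + 1 / 2 * (1 / ((b - u) ^ 2 + η ^ 2))) *
      (((a - u) ^ 2 + η ^ 2) * ((b - u) ^ 2 + η ^ 2)) =
      (((a - u) ^ 2 + η ^ 2) + ((b - u) ^ 2 + η ^ 2)) / 2 := by
    field_simp
    ring
  rw [e, abs_le]
  constructor
  · nlinarith [sq_nonneg ((a - u) + (b - u))]
  · nlinarith [sq_nonneg ((a - u) - (b - u))]

theorem fc_cont (η a b : ℝ) (hη : 0 < η) : Continuous (fc η a b) := by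
  unfold fc
  refine Continuous.div (by fun_prop) (by fun_prop) fun u => ?_
  have ha : 0 < (a - u) ^ 2 + η ^ 2 := by positivity
  have hb : 0 < (b - u) ^ 2 + η ^ 2 := by positivity
  exact (mul_pos ha hb).ne'

theorem fc_int (η a b : ℝ) (hη : 0 < η) : Integrable (fc η a b) := by
  refine Integrable.mono' (((cau_int η a hη).const_mul (1 / 2)).add
    ((cau_int η b hη).const_mul (1 / 2))) (fc_cont η a b hη).aestronglyMeasurable ?_
  exact Eventually.of_forall fun u => fc_le η a b u hη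

theorem ratio_lim (l : Filter ℝ) (hl : Tendsto (fun u : ℝ => u⁻¹) l (𝓝 0))
    (h0 : ∀ᶠ u in l, u ≠ 0) (η a b : ℝ) (hη : 0 < η) :
    Tendsto (fun u : ℝ => Real.log ((u - a) ^ 2 + η ^ 2) - Real.log ((u - b) ^ 2 + η ^ 2)) l
      (𝓝 0) := by
  have key : ∀ a : ℝ, Tendsto (fun u : ℝ => ((u - a) ^ 2 + η ^ 2) * u⁻¹ ^ 2) l (𝓝 1) := by
    intro a
    have h1 : Tendsto (fun u : ℝ => (1 - a * u⁻¹) ^ 2 + η ^ 2 * u⁻¹ ^ 2) l
        (𝓝 ((1 - a * 0) ^ 2 + η ^ 2 * 0 ^ 2)) :=
      ((tendsto_const_nhds.sub (hl.const_mul a)).pow 2).add ((hl.pow 2).const_mul _)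
    have e : (1 - a * 0) ^ 2 + η ^ 2 * 0 ^ 2 = (1 : ℝ) := by ring
    rw [e] at h1
    refine h1.congr' ?_
    filter_upwards [h0] with u hu
    field_simp
  have h1 := (Real.continuousAt_log (one_ne_zero)).tendsto.comp (key a)
  have h2 := (Real.continuousAt_log (one_ne_zero)).tendsto.comp (key b)
  have h3 := h1.sub h2
  rw [sub_self] at h3
  refine h3.congr' ?_
  filter_upwards [h0] with u hu
  simp only [Function.comp]
  have ha : 0 < (u - a) ^ 2 + η ^ 2 := by positivity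
  have hb : 0 < (u - b) ^ 2 + η ^ 2 := by positivity
  have hu2 : u⁻¹ ^ 2 ≠ 0 := by positivity
  rw [Real.log_mul ha.ne' hu2, Real.log_mul hb.ne' hu2]
  ring

theorem fc_val (η a b : ℝ) (hη : 0 < η) :
    ∫ u, fc η a b u = 4 * Real.pi * η / ((a - b) ^ 2 + 4 * η ^ 2) := by
  set D := a - b with hD
  have hQ : 0 < D ^ 2 + 4 * η ^ 2 := by positivity
  set k1 : ℝ := 2 * η ^ 2 / (D ^ 2 + 4 * η ^ 2) with hk1
  set k2 : ℝ := D / (D ^ 2 + 4 * η ^ 2) with hk2
  set F : ℝ → ℝ := fun u => k1 * (1 / η * Real.arctan ((u - a) / η) +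
    1 / η * Real.arctan ((u - b) / η)) +
    k2 * (1 / 2 * (Real.log ((u - a) ^ 2 + η ^ 2) - Real.log ((u - b) ^ 2 + η ^ 2))) with hF
  have hder : ∀ u, HasDerivAt F (fc η a b u) u := by
    intro u
    have ha : 0 < (u - a) ^ 2 + η ^ 2 := by positivity
    have hb : 0 < (u - b) ^ 2 + η ^ 2 := by positivity
    have d1 : ∀ a : ℝ, HasDerivAt (fun u : ℝ => 1 / η * Real.arctan ((u - a) / η))
        (1 / ((u - a) ^ 2 + η ^ 2)) u := by
      intro a
      have ha : 0 < (u - a) ^ 2 + η ^ 2 := by positivity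
      have h1 : HasDerivAt (fun u : ℝ => (u - a) / η) (1 / η) u :=
        ((hasDerivAt_id u).sub_const a).div_const η
      have h2 := (h1.arctan).const_mul (1 / η)
      refine h2.congr_deriv ?_
      field_simp
      ring
    have d2 : ∀ a : ℝ, HasDerivAt (fun u : ℝ => Real.log ((u - a) ^ 2 + η ^ 2))
        (2 * (u - a) / ((u - a) ^ 2 + η ^ 2)) u := by
      intro a
      have ha : 0 < (u - a) ^ 2 + η ^ 2 := by positivity
      have h1 : HasDerivAt (fun u : ℝ => (u - a) ^ 2 + η ^ 2) (2 * (u - a)) u := by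
        have := (((hasDerivAt_id u).sub_const a).pow 2).add_const (η ^ 2)
        refine this.congr_deriv ?_
        simp
      exact h1.log ha.ne'
    have h := (((d1 a).add (d1 b)).const_mul k1).add
      ((((d2 a).sub (d2 b)).const_mul (1 / 2)).const_mul k2)
    refine h.congr_deriv ?_
    rw [hk1, hk2]
    unfold fc
    have ha' : (a - u) ^ 2 + η ^ 2 ≠ 0 := by positivity
    have hb' : (b - u) ^ 2 + η ^ 2 ≠ 0 := by positivity
    have e1 : (u - a) ^ 2 = (a - u) ^ 2 := by ring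
    have e2 : (u - b) ^ 2 = (b - u) ^ 2 := by ring
    rw [e1, e2]
    field_simp
    rw [hD]
    ring
  have hlim : ∀ (l : Filter ℝ) (s : ℝ), Tendsto (fun u : ℝ => u⁻¹) l (𝓝 0) →
      (∀ᶠ u in l, u ≠ 0) → (∀ a : ℝ, Tendsto (fun u : ℝ => Real.arctan ((u - a) / η)) l (𝓝 s)) →
      Tendsto F l (𝓝 (2 * k1 * s / η)) := by
    intro l s h1 h2 h3
    have h4 := ratio_lim l h1 h2 η a b hη
    have h5 := ((((h3 a).const_mul (1 / η)).add ((h3 b).const_mul (1 / η))).const_mul k1).add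
      ((h4.const_mul (1 / 2)).const_mul k2)
    have e : k1 * (1 / η * s + 1 / η * s) + k2 * (1 / 2 * 0) = 2 * k1 * s / η := by
      field_simp
      ring
    rw [e] at h5
    exact h5
  have htop := hlim atTop (Real.pi / 2) tendsto_inv_atTop_zero (eventually_ne_atTop 0) (by
    intro a
    have h1 : Tendsto (fun u : ℝ => (u - a) / η) atTop atTop :=
      (tendsto_atTop_add_const_right _ (-a) tendsto_id).atTop_div_const hη
    exact (tendsto_nhds_of_tendsto_nhdsWithin Real.tendsto_arctan_atTop).comp h1)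
  have hbot := hlim atBot (-(Real.pi / 2)) tendsto_inv_atBot_zero (eventually_ne_atBot 0) (by
    intro a
    have h1 : Tendsto (fun u : ℝ => (u - a) / η) atBot atBot :=
      (tendsto_atBot_add_const_right _ (-a) tendsto_id).atBot_div_const hη
    exact (tendsto_nhds_of_tendsto_nhdsWithin Real.tendsto_arctan_atBot).comp h1)
  rw [integral_of_hasDerivAt_of_tendsto hder (fc_int η a b hη) hbot htop, hk1]
  field_simp
  ring

theorem fc_nonneg_int (η a b : ℝ) (hη : 0 < η) : 0 ≤ ∫ u, fc η a b u := by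
  rw [fc_val η a b hη]
  have := Real.pi_pos
  positivity

theorem fc_diag (η a : ℝ) (hη : 0 < η) : ∫ u, fc η a a u = Real.pi / η := by
  rw [fc_val η a a hη, sub_self]
  field_simp
  ring

theorem fc_self (η a u : ℝ) (hη : 0 < η) : fc η a a u = 1 / ((a - u) ^ 2 + η ^ 2) := by
  unfold fc
  have : 0 < (a - u) ^ 2 + η ^ 2 := by positivity
  field_simp

end Pool.Agent.Zk60.LL.Cau
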