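import Pool.Agent.Zk11.QD.Gen
import Pool.Agent.Zk60.LL.Cau

/-! # Deterministic part: eigenfunctions and the resolvent on the torus -/

set_option autoImplicit false
set_option linter.unusedSectionVars false

open scoped BigOperators Topology
open MeasureTheory Filter

namespace Pool.Agent.Zk60.LL.Det

open Pool.Agent.W788.MFP.Four (T e NN e_add e_zero e_neg e_normSq card_T)
open Pool.Agent.Zk11.QD (Hz HM HM_apply HM_det)
open Pool.Agent.Zk60.LL.Cau

variable {d L : ℕ} [NeZero L]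

/-- orthonormal basis of eigenfunctions -/
structure EB (σ : ℝ) (V : T d L → ℝ) (ψ : T d L → T d L → ℂ) (E : T d L → ℝ) : Prop where
  orth : ∀ j k, ∑ x, (starRingEnd ℂ) (ψ j x) * ψ k x = if j = k then 1 else 0
  eig : ∀ j x, Hz 0 σ V (ψ j) x = (E j : ℂ) * ψ j x

theorem Hz_eig {σ : ℝ} {V : T d L → ℝ} {ψ : T d L → T d L → ℂ} {E : T d L → ℝ} (h : EB σ V ψ E)
    (z : ℂ) (j x : T d L) : Hz z σ V (ψ j) x = ((E j : ℂ) - z) * ψ j x := by
  have := h.eig j x
  unfold Hz at this ⊢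
  linear_combination this

theorem Hz_sum {ι : Type} [Fintype ι] (z : ℂ) (σ : ℝ) (V : T d L → ℝ) (c : ι → ℂ)
    (f : ι → T d L → ℂ) (x : T d L) :
    Hz z σ V (fun x => ∑ j, c j * f j x) x = ∑ j, c j * Hz z σ V (f j) x := by
  unfold Hz
  have e1 : ∑ i : Fin d, (∑ j, c j * f j (x + Pi.single i 1) + ∑ j, c j * f j (x - Pi.single i 1)) =
      ∑ j, c j * ∑ i : Fin d, (f j (x + Pi.single i 1) + f j (x - Pi.single i 1)) := by
    simp only [Finset.mul_sum]
    rw [Finset.sum_comm]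
    refine Finset.sum_congr rfl fun i _ => ?_
    rw [← Finset.sum_add_distrib]
    exact Finset.sum_congr rfl fun j _ => by ring
  rw [e1, Finset.mul_sum, ← Finset.sum_sub_distrib]
  exact Finset.sum_congr rfl fun j _ => by ring

theorem complete {σ : ℝ} {V : T d L → ℝ} {ψ : T d L → T d L → ℂ} {E : T d L → ℝ}
    (h : EB σ V ψ E) (x y : T d L) :
    ∑ j, ψ j x * (starRingEnd ℂ) (ψ j y) = if x = y then 1 else 0 := by
  set U : Matrix (T d L) (T d L) ℂ := Matrix.of fun j x => (starRingEnd ℂ) (ψ j x) with hU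
  set W : Matrix (T d L) (T d L) ℂ := Matrix.of fun x j => ψ j x with hW
  have h1 : U * W = 1 := by
    ext j k
    rw [Matrix.mul_apply, Matrix.one_apply]
    exact h.orth j k
  have h2 : W * U = 1 := mul_eq_one_comm.1 h1
  have h3 := congrFun (congrFun h2 x) y
  rw [Matrix.mul_apply, Matrix.one_apply] at h3
  exact h3

/-- the resolvent -/
noncomputable def RR (z : ℂ) (σ : ℝ) (V : T d L → ℝ) (x y : T d L) : ℂ := (HM z σ V)⁻¹ x y

theorem ne_z (a : ℝ) (z : ℂ) (hz : 0 < z.im) : (a : ℂ) - z ≠ 0 := by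
  intro h
  have := congrArg Complex.im h
  simp at this
  linarith

theorem RR_eq {σ : ℝ} {V : T d L → ℝ} {ψ : T d L → T d L → ℂ} {E : T d L → ℝ} (h : EB σ V ψ E)
    (z : ℂ) (hz : 0 < z.im) (x y : T d L) :
    RR z σ V x y = ∑ j, ψ j x * (starRingEnd ℂ) (ψ j y) * ((E j : ℂ) - z)⁻¹ := by
  set M : Matrix (T d L) (T d L) ℂ := Matrix.of fun x y =>
    ∑ j, ψ j x * (starRingEnd ℂ) (ψ j y) * ((E j : ℂ) - z)⁻¹ with hM
  have h1 : HM z σ V * M = 1 := by
    ext x y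
    have h2 : (HM z σ V * M) x y = (HM z σ V).mulVec (fun x => M x y) x := rfl
    rw [h2, HM_apply, Matrix.one_apply]
    have h3 : (fun x => M x y) = fun x => ∑ j, ((starRingEnd ℂ) (ψ j y) * ((E j : ℂ) - z)⁻¹) *
        ψ j x := by
      funext x
      rw [hM]
      simp only [Matrix.of_apply]
      exact Finset.sum_congr rfl fun j _ => by ring
    rw [h3, Hz_sum, ← complete h x y]
    refine Finset.sum_congr rfl fun j _ => ?_
    rw [Hz_eig h]
    have := ne_z (E j) z hz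
    field_simp
  unfold RR
  rw [Matrix.inv_eq_right_inv h1]
  rfl

theorem re_fc (η a b u : ℝ) (hη : 0 < η) :
    (((a : ℂ) - ((u : ℂ) + η * Complex.I))⁻¹ *
      (starRingEnd ℂ) (((b : ℂ) - ((u : ℂ) + η * Complex.I))⁻¹)).re = fc η a b u := by
  have e1 : (starRingEnd ℂ) (((b : ℂ) - ((u : ℂ) + η * Complex.I))⁻¹) =
      ((b : ℂ) - ((u : ℂ) - η * Complex.I))⁻¹ := by
    rw [map_inv₀, map_sub, map_add, map_mul, Complex.conj_ofReal, Complex.conj_ofReal,
      Complex.conj_ofReal, Complex.conj_I]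
    ring
  rw [e1, ← mul_inv]
  have e2 : ((a : ℂ) - ((u : ℂ) + η * Complex.I)) * ((b : ℂ) - ((u : ℂ) - η * Complex.I)) =
      (((a - u) * (b - u) + η ^ 2 : ℝ) : ℂ) + ((η * (a - b) : ℝ) : ℂ) * Complex.I := by
    push_cast
    linear_combination (-(η : ℂ) ^ 2) * Complex.I_sq
  rw [e2, Complex.inv_re]
  have e3 : ((((a - u) * (b - u) + η ^ 2 : ℝ) : ℂ) + ((η * (a - b) : ℝ) : ℂ) * Complex.I).re =
      (a - u) * (b - u) + η ^ 2 := by
    rw [Complex.add_re, Complex.ofReal_re, Complex.re_ofReal_mul, Complex.I_re, mul_zero, add_zero]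
  have e4 : Complex.normSq ((((a - u) * (b - u) + η ^ 2 : ℝ) : ℂ) +
      ((η * (a - b) : ℝ) : ℂ) * Complex.I) = ((a - u) ^ 2 + η ^ 2) * ((b - u) ^ 2 + η ^ 2) := by
    rw [Complex.normSq_add_mul_I]
    ring
  rw [e3, e4]
  rfl

/-- the positive coefficients -/
noncomputable def AA {ι : Type} [Fintype ι] (Q : ι → T d L) (w : ι → ℝ) (f g : T d L → ℂ) : ℝ :=
  ∑ q, w q * ‖∑ x, e (Q q) x * (f x * (starRingEnd ℂ) (g x))‖ ^ 2

theorem AA_nonneg {ι : Type} [Fintype ι] (Q : ι → T d L) (w : ι → ℝ) (hw : ∀ q, 0 ≤ w q)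
    (f g : T d L → ℂ) : 0 ≤ AA Q w f g :=
  Finset.sum_nonneg fun q _ => mul_nonneg (hw q) (by positivity)

theorem AA_eq {ι : Type} [Fintype ι] (Q : ι → T d L) (w : ι → ℝ) (K : T d L → ℝ)
    (hK : ∀ x, ((K x : ℝ) : ℂ) = ∑ q, (w q : ℂ) * e (Q q) x) (f g : T d L → ℂ) :
    ((AA Q w f g : ℝ) : ℂ) = ∑ x, ∑ y, ((K (x - y) : ℝ) : ℂ) * ((f x * (starRingEnd ℂ) (g x)) *
      (starRingEnd ℂ) (f y * (starRingEnd ℂ) (g y))) := by
  unfold AA
  push_cast
  have h1 : ∀ x y, ((K (x - y) : ℝ) : ℂ) * ((f x * (starRingEnd ℂ) (g x)) *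
      (starRingEnd ℂ) (f y * (starRingEnd ℂ) (g y))) = ∑ q, (w q : ℂ) *
        ((e (Q q) x * (f x * (starRingEnd ℂ) (g x))) *
        (starRingEnd ℂ) (e (Q q) y * (f y * (starRingEnd ℂ) (g y)))) := by
    intro x y
    rw [hK, Finset.sum_mul]
    refine Finset.sum_congr rfl fun q _ => ?_
    rw [sub_eq_add_neg, e_add, e_neg]
    simp only [map_mul]
    ring
  simp only [h1]
  have h2 : ∀ q, ((‖∑ x, e (Q q) x * (f x * (starRingEnd ℂ) (g x))‖ : ℝ) : ℂ) ^ 2 =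
      ∑ x, ∑ y, ((e (Q q) x * (f x * (starRingEnd ℂ) (g x))) *
        (starRingEnd ℂ) (e (Q q) y * (f y * (starRingEnd ℂ) (g y)))) := by
    intro q
    rw [← Complex.ofReal_pow, ← Complex.normSq_eq_norm_sq, ← Complex.mul_conj, map_sum,
      Finset.sum_mul_sum]
  simp only [h2]
  simp only [Finset.mul_sum]
  have h3 : ∀ x : T d L, ∑ y, ∑ q, (w q : ℂ) *
        ((e (Q q) x * (f x * (starRingEnd ℂ) (g x))) *
        (starRingEnd ℂ) (e (Q q) y * (f y * (starRingEnd ℂ) (g y)))) = ∑ q, ∑ y, (w q : ℂ) *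
        ((e (Q q) x * (f x * (starRingEnd ℂ) (g x))) *
        (starRingEnd ℂ) (e (Q q) y * (f y * (starRingEnd ℂ) (g y)))) :=
    fun x => Finset.sum_comm
  simp only [h3]
  exact Finset.sum_comm

theorem AA_diag {ι : Type} [Fintype ι] (Q : ι → T d L) (w : ι → ℝ) (K : T d L → ℝ)
    (hK : ∀ x, ((K x : ℝ) : ℂ) = ∑ q, (w q : ℂ) * e (Q q) x) (f : T d L → ℂ) :
    AA Q w f f = ∑ x, ∑ y, K (x - y) * (‖f x‖ ^ 2 * ‖f y‖ ^ 2) := by
  have h := AA_eq Q w K hK f f
  have e1 : ∀ x, f x * (starRingEnd ℂ) (f x) = ((‖f x‖ ^ 2 : ℝ) : ℂ) := by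
    intro x
    rw [Complex.mul_conj, Complex.normSq_eq_norm_sq]
  simp only [e1, Complex.conj_ofReal] at h
  exact_mod_cast h

/-- the Hilbert-Schmidt norm of the resolvent with weight `K` -/
noncomputable def SS (K : T d L → ℝ) (z : ℂ) (σ : ℝ) (V : T d L → ℝ) : ℝ :=
  ∑ x, ∑ y, K (x - y) * ‖RR z σ V x y‖ ^ 2

theorem SS_eq {σ : ℝ} {V : T d L → ℝ} {ψ : T d L → T d L → ℂ} {E : T d L → ℝ} (h : EB σ V ψ E)
    {ι : Type} [Fintype ι] (Q : ι → T d L) (w : ι → ℝ) (K : T d L → ℝ)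
    (hK : ∀ x, ((K x : ℝ) : ℂ) = ∑ q, (w q : ℂ) * e (Q q) x) (η u : ℝ) (hη : 0 < η) :
    SS K ((u : ℂ) + η * Complex.I) σ V = ∑ j, ∑ k, AA Q w (ψ j) (ψ k) * fc η (E j) (E k) u := by
  set z : ℂ := (u : ℂ) + η * Complex.I with hz
  have hzim : 0 < z.im := by rw [hz]; simpa using hη
  set r : T d L → ℂ := fun j => ((E j : ℂ) - z)⁻¹ with hr
  have key : ((SS K z σ V : ℝ) : ℂ) =
      ∑ j, ∑ k, ((AA Q w (ψ j) (ψ k) : ℝ) : ℂ) * (r j * (starRingEnd ℂ) (r k)) := by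
    unfold SS
    push_cast
    have h1 : ∀ x y : T d L, ((K (x - y) : ℝ) : ℂ) * ((‖RR z σ V x y‖ : ℝ) : ℂ) ^ 2 =
        ∑ j, ∑ k, (((K (x - y) : ℝ) : ℂ) * ((ψ j x * (starRingEnd ℂ) (ψ k x)) *
          (starRingEnd ℂ) (ψ j y * (starRingEnd ℂ) (ψ k y)))) * (r j * (starRingEnd ℂ) (r k)) := by
      intro x y
      rw [← Complex.ofReal_pow, ← Complex.normSq_eq_norm_sq, ← Complex.mul_conj,
        RR_eq h z hzim x y, map_sum, Finset.sum_mul_sum, Finset.mul_sum]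
      refine Finset.sum_congr rfl fun j _ => ?_
      rw [Finset.mul_sum]
      refine Finset.sum_congr rfl fun k _ => ?_
      simp only [map_mul, Complex.conj_conj, hr]
      ring
    simp only [h1]
    simp only [AA_eq Q w K hK, Finset.sum_mul]
    -- exchange of sums
    have h2 : ∀ F : T d L → T d L → T d L → T d L → ℂ,
        ∑ x, ∑ y, ∑ j, ∑ k, F x y j k = ∑ j, ∑ k, ∑ x, ∑ y, F x y j k := by
      intro F
      have a1 : ∀ x, ∑ y, ∑ j, ∑ k, F x y j k = ∑ j, ∑ k, ∑ y, F x y j k := by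
        intro x
        rw [Finset.sum_comm]
        exact Finset.sum_congr rfl fun j _ => Finset.sum_comm
      simp only [a1]
      rw [Finset.sum_comm]
      exact Finset.sum_congr rfl fun j _ => Finset.sum_comm
    exact h2 _
  have h3 := congrArg Complex.re key
  rw [Complex.ofReal_re, Complex.re_sum] at h3
  rw [h3]
  refine Finset.sum_congr rfl fun j _ => ?_
  rw [Complex.re_sum]
  refine Finset.sum_congr rfl fun k _ => ?_
  rw [Complex.re_ofReal_mul, hr, re_fc η (E j) (E k) u hη]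

/-- the full sum -/
theorem SS_one {σ : ℝ} {V : T d L → ℝ} {ψ : T d L → T d L → ℂ} {E : T d L → ℝ} (h : EB σ V ψ E)
    (η u : ℝ) (hη : 0 < η) :
    SS (fun _ => 1) ((u : ℂ) + η * Complex.I) σ V = ∑ j, fc η (E j) (E j) u := by
  rw [SS_eq h (fun _ : Unit => (0 : T d L)) (fun _ => 1) (fun _ => 1) (fun x => by
    simp [Pool.Agent.W788.MFP.Four.e_comm, Pool.Agent.W788.MFP.Four.e_zero]) η u hη]
  refine Finset.sum_congr rfl fun j _ => ?_
  have h1 : ∀ k, AA (fun _ : Unit => (0 : T d L)) (fun _ => 1) (ψ j) (ψ k) =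
      if k = j then 1 else 0 := by
    intro k
    unfold AA
    simp only [Finset.univ_unique, Finset.sum_singleton, one_mul,
      Pool.Agent.W788.MFP.Four.e_comm (0 : T d L), Pool.Agent.W788.MFP.Four.e_zero]
    have h2 := h.orth k j
    have h3 : ∑ x, ψ j x * (starRingEnd ℂ) (ψ k x) = if k = j then 1 else 0 := by
      rw [← h2]
      exact Finset.sum_congr rfl fun x _ => mul_comm _ _
    rw [h3]
    split_ifs <;> simp
  simp only [h1, ite_mul, one_mul, zero_mul]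
  rw [Finset.sum_ite_eq']
  simp

end Pool.Agent.Zk60.LL.Det
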