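import Pool.Agent.Zk60.LL.Det

/-! # Deterministic part: the bound, existence of eigenbases, concentration -/

set_option autoImplicit false
set_option linter.unusedSectionVars false

open scoped BigOperators Topology
open MeasureTheory Filter

namespace Pool.Agent.Zk60.LL.Det

open Pool.Agent.W788.MFP.Four (T e NN e_add e_zero e_neg e_normSq card_T)
open Pool.Agent.Zk11.QD (Hz HM HM_apply HM_det)
open Pool.Agent.Zk60.LL.Cau

variable {d L : ℕ} [NeZero L]

theorem SS_mono {K K' : T d L → ℝ} (hK : ∀ x, K x ≤ K' x) (z : ℂ) (σ : ℝ) (V : T d L → ℝ) :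
    SS K z σ V ≤ SS K' z σ V := by
  unfold SS
  refine Finset.sum_le_sum fun x _ => Finset.sum_le_sum fun y _ => ?_
  exact mul_le_mul_of_nonneg_right (hK _) (by positivity)

/-- the bound -/
theorem det_bound {σ : ℝ} {V : T d L → ℝ} {ψ : T d L → T d L → ℂ} {E : T d L → ℝ}
    (h : EB σ V ψ E) {ι : Type} [Fintype ι] (Q : ι → T d L) (w : ι → ℝ) (hw : ∀ q, 0 ≤ w q)
    (K : T d L → ℝ) (hK : ∀ x, ((K x : ℝ) : ℂ) = ∑ q, (w q : ℂ) * e (Q q) x)
    (hK1 : ∀ x, K x ≤ 1) (η : ℝ) (hη : 0 < η) (E1 E2 : ℝ) :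
    Real.pi * ∑ j, AA Q w (ψ j) (ψ j) ≤
      (∫ u in Set.Icc E1 E2, η * (SS K ((u : ℂ) + η * Complex.I) σ V -
        SS (fun _ => 1) ((u : ℂ) + η * Complex.I) σ V)) + Real.pi * (Fintype.card (T d L) : ℝ) := by
  set SK : ℝ → ℝ := fun u => η * SS K ((u : ℂ) + η * Complex.I) σ V with hSK
  set S1 : ℝ → ℝ := fun u => η * SS (fun _ => 1) ((u : ℂ) + η * Complex.I) σ V with hS1
  have eK : SK = fun u => η * ∑ j, ∑ k, AA Q w (ψ j) (ψ k) * fc η (E j) (E k) u := by
    funext u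
    rw [hSK]
    simp only
    rw [SS_eq h Q w K hK η u hη]
  have e1 : S1 = fun u => η * ∑ j, fc η (E j) (E j) u := by
    funext u
    rw [hS1]
    simp only
    rw [SS_one h η u hη]
  have iK : Integrable SK := by
    rw [eK]
    exact (integrable_finsetSum _ fun j _ => integrable_finsetSum _ fun k _ =>
      (fc_int η (E j) (E k) hη).const_mul _).const_mul _
  have i1 : Integrable S1 := by
    rw [e1]
    exact (integrable_finsetSum _ fun j _ => fc_int η (E j) (E j) hη).const_mul _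
  have vK : Real.pi * ∑ j, AA Q w (ψ j) (ψ j) ≤ ∫ u, SK u := by
    rw [eK, integral_const_mul, integral_finsetSum _ fun j _ => integrable_finsetSum _ fun k _ =>
      (fc_int η (E j) (E k) hη).const_mul _, Finset.mul_sum, Finset.mul_sum]
    refine Finset.sum_le_sum fun j _ => ?_
    rw [integral_finsetSum _ fun k _ => (fc_int η (E j) (E k) hη).const_mul _]
    have h1 : AA Q w (ψ j) (ψ j) * (Real.pi / η) ≤
        ∑ k, ∫ u, AA Q w (ψ j) (ψ k) * fc η (E j) (E k) u := by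
      have h2 : ∀ k ∈ (Finset.univ : Finset (T d L)),
          0 ≤ ∫ u, AA Q w (ψ j) (ψ k) * fc η (E j) (E k) u := by
        intro k _
        rw [integral_const_mul]
        exact mul_nonneg (AA_nonneg Q w hw _ _) (fc_nonneg_int η _ _ hη)
      have h3 := Finset.single_le_sum h2 (Finset.mem_univ j)
      rw [integral_const_mul, fc_diag η (E j) hη] at h3
      exact h3
    calc Real.pi * AA Q w (ψ j) (ψ j) = η * (AA Q w (ψ j) (ψ j) * (Real.pi / η)) := by
          field_simp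
      _ ≤ _ := mul_le_mul_of_nonneg_left h1 hη.le
  have v1 : ∫ u, S1 u = Real.pi * (Fintype.card (T d L) : ℝ) := by
    rw [e1, integral_const_mul, integral_finsetSum _ fun j _ => fc_int η (E j) (E j) hη]
    simp only [fc_diag η _ hη]
    rw [Finset.sum_const, Finset.card_univ, nsmul_eq_mul]
    field_simp
  have hle : ∀ u, SK u ≤ S1 u := fun u =>
    mul_le_mul_of_nonneg_left (SS_mono hK1 _ σ V) hη.le
  have hsplitK := integral_add_compl (f := SK) (measurableSet_Icc (a := E1) (b := E2)) iK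
  have hsplit1 := integral_add_compl (f := S1) (measurableSet_Icc (a := E1) (b := E2)) i1
  have hcomp : ∫ u in (Set.Icc E1 E2)ᶜ, SK u ≤ ∫ u in (Set.Icc E1 E2)ᶜ, S1 u :=
    setIntegral_mono iK.integrableOn i1.integrableOn hle
  have hdiff : ∫ u in Set.Icc E1 E2, η * (SS K ((u : ℂ) + η * Complex.I) σ V -
        SS (fun _ => 1) ((u : ℂ) + η * Complex.I) σ V) =
      (∫ u in Set.Icc E1 E2, SK u) - ∫ u in Set.Icc E1 E2, S1 u := by
    rw [← integral_sub iK.integrableOn i1.integrableOn]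
    refine integral_congr_ae (Eventually.of_forall fun u => ?_)
    simp only [hSK, hS1]
    ring
  rw [hdiff]
  linarith

/-- eigenbases exist -/
theorem exists_EB (σ : ℝ) (V : T d L → ℝ) : ∃ (ψ : T d L → T d L → ℂ) (E : T d L → ℝ),
    EB σ V ψ E := by
  have hH : (HM 0 σ V).IsHermitian := by
    ext x y
    rw [Matrix.conjTranspose_apply]
    unfold HM
    simp only [Matrix.of_apply]
    rw [star_sub, star_sum]
    have e1 : star (if y = x then (2 * (d : ℂ) + (σ : ℂ) * (V y : ℂ) - 0) else 0) =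
        if x = y then (2 * (d : ℂ) + (σ : ℂ) * (V x : ℂ) - 0) else 0 := by
      by_cases hxy : x = y
      · subst hxy
        rw [if_pos rfl]
        simp
      · rw [if_neg hxy, if_neg (fun hh => hxy hh.symm), star_zero]
    rw [e1]
    congr 1
    refine Finset.sum_congr rfl fun i _ => ?_
    have e2 : ∀ p : Prop, ∀ _ : Decidable p, star (if p then (1 : ℂ) else 0) =
        if p then 1 else 0 := by
      intro p _
      split_ifs <;> simp
    rw [star_add, e2, e2, add_comm]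
    congr 1
    · congr 1
      rw [eq_iff_iff]
      constructor
      · intro hh; rw [← hh]; abel
      · intro hh; rw [← hh]; abel
    · congr 1
      rw [eq_iff_iff]
      constructor
      · intro hh; rw [← hh]; abel
      · intro hh; rw [← hh]; abel
  refine ⟨fun j x => hH.eigenvectorBasis j x, hH.eigenvalues, ?_, ?_⟩
  · intro j k
    have h1 := orthonormal_iff_ite.1 hH.eigenvectorBasis.orthonormal j k
    rw [← h1, PiLp.inner_apply]
    refine Finset.sum_congr rfl fun x _ => ?_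
    simp [mul_comm]
  · intro j x
    have h1 := congrFun (hH.mulVec_eigenvectorBasis j) x
    rw [HM_apply] at h1
    rw [h1]
    simp

/-- concentration -/
theorem conc_bound {ι : Type} [Fintype ι] (Q : ι → T d L) (w : ι → ℝ) (K : T d L → ℝ)
    (hK : ∀ x, ((K x : ℝ) : ℂ) = ∑ q, (w q : ℂ) * e (Q q) x) (hK0 : ∀ x, 0 ≤ K x)
    (f : T d L → ℂ) (B : Finset (T d L)) (hB : ∀ x ∈ B, ∀ y ∈ B, 1 / 2 ≤ K (x - y)) (c : ℝ)
    (hc : 0 ≤ c) (hf : c ≤ ∑ x ∈ B, ‖f x‖ ^ 2) : c ^ 2 / 2 ≤ AA Q w f f := by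
  rw [AA_diag Q w K hK f]
  have h1 : ∑ x ∈ B, ∑ y ∈ B, K (x - y) * (‖f x‖ ^ 2 * ‖f y‖ ^ 2) ≤
      ∑ x, ∑ y, K (x - y) * (‖f x‖ ^ 2 * ‖f y‖ ^ 2) := by
    refine (Finset.sum_le_sum fun x _ => ?_).trans
      (Finset.sum_le_univ_sum_of_nonneg fun x => Finset.sum_nonneg fun y _ => ?_)
    · refine Finset.sum_le_univ_sum_of_nonneg fun y => ?_
      have := hK0 (x - y)
      positivity
    · have := hK0 (x - y)
      positivity
  refine le_trans ?_ h1
  have h2 : ∑ x ∈ B, ∑ y ∈ B, 1 / 2 * (‖f x‖ ^ 2 * ‖f y‖ ^ 2) ≤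
      ∑ x ∈ B, ∑ y ∈ B, K (x - y) * (‖f x‖ ^ 2 * ‖f y‖ ^ 2) :=
    Finset.sum_le_sum fun x hx => Finset.sum_le_sum fun y hy =>
      mul_le_mul_of_nonneg_right (hB x hx y hy) (by positivity)
  refine le_trans ?_ h2
  have h3 : ∑ x ∈ B, ∑ y ∈ B, 1 / 2 * (‖f x‖ ^ 2 * ‖f y‖ ^ 2) =
      1 / 2 * ((∑ x ∈ B, ‖f x‖ ^ 2) * ∑ y ∈ B, ‖f y‖ ^ 2) := by
    rw [Finset.sum_mul_sum]
    simp only [Finset.mul_sum]
  rw [h3]
  nlinarith [mul_le_mul hf hf hc (hc.trans hf)]

end Pool.Agent.Zk60.LL.Det
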