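import Pool.Agent.Zk60.LL.Prob

/-! # Bounded differences of the weighted Hilbert-Schmidt norm -/

set_option autoImplicit false
set_option linter.unusedSectionVars false

open scoped BigOperators Topology
open MeasureTheory Filter

namespace Pool.Agent.Zk60.LL.Dif

open Pool.Agent.W788.MFP.Four (T e NN e_add e_zero e_neg e_normSq card_T)
open Pool.Agent.Zk11.QD (Hz HM HM_apply HM_det e_norm)
open Pool.Agent.Zk60.LL.Cau Pool.Agent.Zk60.LL.Det Pool.Agent.Zk60.LL.Prob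

variable {d L : ℕ} [NeZero L]

theorem pars1 {σ : ℝ} {V : T d L → ℝ} {ψ : T d L → T d L → ℂ} {E : T d L → ℝ} (h : EB σ V ψ E)
    (c : T d L → ℂ) : ∑ x, ‖∑ j, c j * ψ j x‖ ^ 2 = ∑ j, ‖c j‖ ^ 2 := by
  have key : ((∑ x, ‖∑ j, c j * ψ j x‖ ^ 2 : ℝ) : ℂ) = ((∑ j, ‖c j‖ ^ 2 : ℝ) : ℂ) := by
    push_cast
    have h1 : ∀ x, ((‖∑ j, c j * ψ j x‖ : ℝ) : ℂ) ^ 2 =
        ∑ j, ∑ k, (c j * (starRingEnd ℂ) (c k)) * ((starRingEnd ℂ) (ψ k x) * ψ j x) := by
      intro x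
      rw [← Complex.ofReal_pow, ← Complex.normSq_eq_norm_sq, ← Complex.mul_conj, map_sum,
        Finset.sum_mul_sum]
      refine Finset.sum_congr rfl fun j _ => Finset.sum_congr rfl fun k _ => ?_
      rw [map_mul]; ring
    simp only [h1]
    rw [Finset.sum_comm]
    refine Finset.sum_congr rfl fun j _ => ?_
    rw [Finset.sum_comm]
    simp only [← Finset.mul_sum, h.orth]
    simp only [mul_ite, mul_one, mul_zero]
    rw [Finset.sum_ite_eq' Finset.univ j]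
    simp only [Finset.mem_univ, if_true]
    rw [Complex.mul_conj, Complex.normSq_eq_norm_sq]
    push_cast
    rfl
  exact_mod_cast key

theorem pars2 {σ : ℝ} {V : T d L → ℝ} {ψ : T d L → T d L → ℂ} {E : T d L → ℝ} (h : EB σ V ψ E)
    (a : T d L → ℂ) : ∑ j, ‖∑ x, a x * (starRingEnd ℂ) (ψ j x)‖ ^ 2 = ∑ x, ‖a x‖ ^ 2 := by
  have key : ((∑ j, ‖∑ x, a x * (starRingEnd ℂ) (ψ j x)‖ ^ 2 : ℝ) : ℂ) =
      ((∑ x, ‖a x‖ ^ 2 : ℝ) : ℂ) := by
    push_cast
    have h1 : ∀ j, ((‖∑ x, a x * (starRingEnd ℂ) (ψ j x)‖ : ℝ) : ℂ) ^ 2 =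
        ∑ x, ∑ y, (a x * (starRingEnd ℂ) (a y)) * (ψ j y * (starRingEnd ℂ) (ψ j x)) := by
      intro j
      rw [← Complex.ofReal_pow, ← Complex.normSq_eq_norm_sq, ← Complex.mul_conj, map_sum,
        Finset.sum_mul_sum]
      refine Finset.sum_congr rfl fun x _ => Finset.sum_congr rfl fun y _ => ?_
      rw [map_mul, Complex.conj_conj]; ring
    simp only [h1]
    rw [Finset.sum_comm]
    refine Finset.sum_congr rfl fun x _ => ?_
    rw [Finset.sum_comm]
    simp only [← Finset.mul_sum, complete h]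
    simp only [mul_ite, mul_one, mul_zero]
    rw [Finset.sum_ite_eq' Finset.univ x]
    simp only [Finset.mem_univ, if_true]
    rw [Complex.mul_conj, Complex.normSq_eq_norm_sq]
    push_cast
    rfl
  exact_mod_cast key

theorem one_site {σ : ℝ} {V : T d L → ℝ} {ψ : T d L → T d L → ℂ} {E : T d L → ℝ}
    (h : EB σ V ψ E) (v : T d L) : ∑ j, ‖ψ j v‖ ^ 2 = 1 := by
  have h1 := complete h v v
  rw [if_pos rfl] at h1
  have h2 : ∀ j, ψ j v * (starRingEnd ℂ) (ψ j v) = ((‖ψ j v‖ ^ 2 : ℝ) : ℂ) := by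
    intro j
    rw [Complex.mul_conj, Complex.normSq_eq_norm_sq]
  simp only [h2] at h1
  exact_mod_cast h1

theorem rz_le (a : ℝ) (z : ℂ) (hz : 0 < z.im) : ‖((a : ℂ) - z)⁻¹‖ ≤ 1 / z.im := by
  rw [norm_inv, ← one_div]
  apply div_le_div_of_nonneg_left (by norm_num) hz
  have h1 := Complex.abs_im_le_norm ((a : ℂ) - z)
  have h2 : ((a : ℂ) - z).im = -z.im := by simp
  rw [h2, abs_neg, abs_of_pos hz] at h1
  exact h1

/-- columns -/
theorem col_le (z : ℂ) (hz : 0 < z.im) (σ : ℝ) (V : T d L → ℝ) (v : T d L) :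
    ∑ x, ‖RR z σ V x v‖ ^ 2 ≤ 1 / z.im ^ 2 := by
  obtain ⟨ψ, E, h⟩ := exists_EB σ V
  have e1 : ∀ x, RR z σ V x v = ∑ j, ((starRingEnd ℂ) (ψ j v) * ((E j : ℂ) - z)⁻¹) * ψ j x := by
    intro x
    rw [RR_eq h z hz]
    exact Finset.sum_congr rfl fun j _ => by ring
  simp only [e1]
  rw [pars1 h]
  have h2 : ∀ j, ‖(starRingEnd ℂ) (ψ j v) * ((E j : ℂ) - z)⁻¹‖ ^ 2 ≤
      ‖ψ j v‖ ^ 2 * (1 / z.im ^ 2) := by
    intro j
    rw [norm_mul, RCLike.norm_conj, mul_pow]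
    refine mul_le_mul_of_nonneg_left ?_ (by positivity)
    have := pow_le_pow_left₀ (norm_nonneg _) (rz_le (E j) z hz) 2
    rwa [div_pow, one_pow] at this
  refine (Finset.sum_le_sum fun j _ => h2 j).trans (le_of_eq ?_)
  rw [← Finset.sum_mul, one_site h v, one_mul]

/-- rows -/
theorem row_le (z : ℂ) (hz : 0 < z.im) (σ : ℝ) (V : T d L → ℝ) (v : T d L) :
    ∑ y, ‖RR z σ V v y‖ ^ 2 ≤ 1 / z.im ^ 2 := by
  obtain ⟨ψ, E, h⟩ := exists_EB σ V
  have e1 : ∀ y, ‖RR z σ V v y‖ ^ 2 =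
      ‖∑ j, (starRingEnd ℂ) (ψ j v * ((E j : ℂ) - z)⁻¹) * ψ j y‖ ^ 2 := by
    intro y
    rw [RR_eq h z hz, ← RCLike.norm_conj, map_sum]
    congr 2
    refine Finset.sum_congr rfl fun j _ => ?_
    simp only [map_mul, Complex.conj_conj]
    ring
  simp only [e1]
  rw [pars1 h]
  have h2 : ∀ j, ‖(starRingEnd ℂ) (ψ j v * ((E j : ℂ) - z)⁻¹)‖ ^ 2 ≤
      ‖ψ j v‖ ^ 2 * (1 / z.im ^ 2) := by
    intro j
    rw [RCLike.norm_conj, norm_mul, mul_pow]
    refine mul_le_mul_of_nonneg_left ?_ (by positivity)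
    have := pow_le_pow_left₀ (norm_nonneg _) (rz_le (E j) z hz) 2
    rwa [div_pow, one_pow] at this
  refine (Finset.sum_le_sum fun j _ => h2 j).trans (le_of_eq ?_)
  rw [← Finset.sum_mul, one_site h v, one_mul]

/-- the bilinear form of the resolvent -/
theorem bil_le (z : ℂ) (hz : 0 < z.im) (σ : ℝ) (V : T d L → ℝ) (a b : T d L → ℂ)
    (ha : ∑ x, ‖a x‖ ^ 2 ≤ 1 / z.im ^ 2) (hb : ∑ x, ‖b x‖ ^ 2 ≤ 1 / z.im ^ 2) :
    ‖∑ x, ∑ y, a x * b y * (starRingEnd ℂ) (RR z σ V x y)‖ ≤ 1 / z.im ^ 3 := by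
  obtain ⟨ψ, E, h⟩ := exists_EB σ V
  have e1 : ∑ x, ∑ y, a x * b y * (starRingEnd ℂ) (RR z σ V x y) =
      ∑ j, (starRingEnd ℂ) (((E j : ℂ) - z)⁻¹) * (∑ x, a x * (starRingEnd ℂ) (ψ j x)) *
        (∑ y, b y * ψ j y) := by
    have h1 : ∀ x y, a x * b y * (starRingEnd ℂ) (RR z σ V x y) = ∑ j,
        (starRingEnd ℂ) (((E j : ℂ) - z)⁻¹) * ((a x * (starRingEnd ℂ) (ψ j x)) * (b y * ψ j y)) := by
      intro x y
      rw [RR_eq h z hz, map_sum, Finset.mul_sum]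
      refine Finset.sum_congr rfl fun j _ => ?_
      simp only [map_mul, Complex.conj_conj]
      ring
    simp only [h1]
    have h2 : ∀ x, ∑ y, ∑ j, (starRingEnd ℂ) (((E j : ℂ) - z)⁻¹) *
        ((a x * (starRingEnd ℂ) (ψ j x)) * (b y * ψ j y)) = ∑ j, ∑ y,
        (starRingEnd ℂ) (((E j : ℂ) - z)⁻¹) * ((a x * (starRingEnd ℂ) (ψ j x)) * (b y * ψ j y)) :=
      fun x => Finset.sum_comm
    simp only [h2]
    rw [Finset.sum_comm]
    refine Finset.sum_congr rfl fun j _ => ?_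
    rw [mul_assoc, Finset.sum_mul_sum, Finset.mul_sum]
    refine Finset.sum_congr rfl fun x _ => ?_
    rw [Finset.mul_sum]
  rw [e1]
  have h3 : ∀ j, ‖(starRingEnd ℂ) (((E j : ℂ) - z)⁻¹) * (∑ x, a x * (starRingEnd ℂ) (ψ j x)) *
        (∑ y, b y * ψ j y)‖ ≤ 1 / z.im * (1 / 2 * ‖∑ x, a x * (starRingEnd ℂ) (ψ j x)‖ ^ 2 +
          1 / 2 * ‖∑ y, (starRingEnd ℂ) (b y) * (starRingEnd ℂ) (ψ j y)‖ ^ 2) := by
    intro j
    have e2 : ‖∑ y, b y * ψ j y‖ = ‖∑ y, (starRingEnd ℂ) (b y) * (starRingEnd ℂ) (ψ j y)‖ := by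
      rw [← RCLike.norm_conj, map_sum]
      congr 1
      exact Finset.sum_congr rfl fun y _ => map_mul _ _ _
    rw [norm_mul, norm_mul, RCLike.norm_conj, e2, mul_assoc]
    refine mul_le_mul (rz_le (E j) z hz) ?_ (by positivity) (by positivity)
    nlinarith [sq_nonneg (‖∑ x, a x * (starRingEnd ℂ) (ψ j x)‖ -
      ‖∑ y, (starRingEnd ℂ) (b y) * (starRingEnd ℂ) (ψ j y)‖)]
  refine (norm_sum_le _ _).trans ((Finset.sum_le_sum fun j _ => h3 j).trans ?_)
  rw [← Finset.mul_sum, Finset.sum_add_distrib, ← Finset.mul_sum, ← Finset.mul_sum, pars2 h,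
    pars2 h]
  simp only [RCLike.norm_conj]
  calc 1 / z.im * (1 / 2 * ∑ x, ‖a x‖ ^ 2 + 1 / 2 * ∑ x, ‖b x‖ ^ 2) ≤
      1 / z.im * (1 / 2 * (1 / z.im ^ 2) + 1 / 2 * (1 / z.im ^ 2)) := by
        refine mul_le_mul_of_nonneg_left ?_ (by positivity)
        linarith
    _ = 1 / z.im ^ 3 := by field_simp; norm_num

/-- the change of one value of the potential -/
theorem rank_one (z : ℂ) (hz : 0 < z.im) (σ : ℝ) (V : T d L → ℝ) (v : T d L) (s : ℝ)
    (x y : T d L) : RR z σ (Function.update V v s) x y - RR z σ V x y =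
      -((σ : ℂ) * ((s : ℂ) - V v)) * (RR z σ V x v * RR z σ (Function.update V v s) v y) := by
  set A := HM z σ V with hA
  set A' := HM z σ (Function.update V v s) with hA'
  have hu := isUnit_iff_ne_zero.2 (HM_det z hz σ V)
  have hu' := isUnit_iff_ne_zero.2 (HM_det z hz σ (Function.update V v s))
  have e0 : A⁻¹ * (A' - A) * A'⁻¹ = A⁻¹ - A'⁻¹ := by
    rw [Matrix.mul_sub, Matrix.sub_mul, Matrix.nonsing_inv_mul _ hu, Matrix.one_mul,
      Matrix.mul_assoc, Matrix.mul_nonsing_inv _ hu', Matrix.mul_one]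
  have e1 : ∀ a c, (A' - A) a c = if a = c then (if a = v then (σ : ℂ) * ((s : ℂ) - V v) else 0)
      else 0 := by
    intro a c
    rw [Matrix.sub_apply, hA, hA']
    unfold HM
    simp only [Matrix.of_apply]
    by_cases hac : a = c
    · subst hac
      rw [if_pos rfl, if_pos rfl, if_pos rfl]
      by_cases hav : a = v
      · subst hav
        rw [if_pos rfl, Function.update_self]
        ring
      · rw [if_neg hav, Function.update_of_ne hav]
        ring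
    · rw [if_neg hac, if_neg hac, if_neg hac]
      ring
  have e2 : (A⁻¹ * (A' - A) * A'⁻¹) x y = A⁻¹ x v * ((σ : ℂ) * ((s : ℂ) - V v)) * A'⁻¹ v y := by
    rw [Matrix.mul_apply]
    have e3 : ∀ c, (A⁻¹ * (A' - A)) x c = if c = v then A⁻¹ x v * ((σ : ℂ) * ((s : ℂ) - V v))
        else 0 := by
      intro c
      rw [Matrix.mul_apply]
      simp only [e1]
      simp only [mul_ite, mul_zero]
      rw [Finset.sum_ite_eq' Finset.univ c]
      simp only [Finset.mem_univ, if_true]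
      by_cases hc : c = v
      · rw [hc]
      · rw [if_neg hc, if_neg hc]
    simp only [e3, ite_mul, zero_mul]
    rw [Finset.sum_ite_eq' Finset.univ v]
    simp
  have e4 := congrFun (congrFun e0 x) y
  rw [e2, Matrix.sub_apply] at e4
  have e5 : RR z σ (Function.update V v s) x y = A'⁻¹ x y := rfl
  have e6 : RR z σ V x y = A⁻¹ x y := rfl
  have e7 : RR z σ V x v = A⁻¹ x v := rfl
  have e8 : RR z σ (Function.update V v s) v y = A'⁻¹ v y := rfl
  rw [e5, e6, e7, e8]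
  linear_combination e4

/-- bounded differences -/
theorem SS_diff {ι : Type} [Fintype ι] (Q : ι → T d L) (w : ι → ℝ) (hw : ∀ q, 0 ≤ w q)
    (hw1 : ∑ q, w q = 1) (K : T d L → ℝ)
    (hK : ∀ x, ((K x : ℝ) : ℂ) = ∑ q, (w q : ℂ) * e (Q q) x) (z : ℂ) (hz : 0 < z.im) (σ : ℝ)
    (V : T d L → ℝ) (v : T d L) (s : ℝ) :
    |SS K z σ (Function.update V v s) - SS K z σ V| ≤ 2 * (|σ| * |s - V v|) / z.im ^ 3 := by
  set R := RR z σ V with hR
  set R' := RR z σ (Function.update V v s) with hR'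
  set t : ℂ := -((σ : ℂ) * ((s : ℂ) - V v)) with ht
  have h1 : ∀ x y, ‖R' x y‖ ^ 2 - ‖R x y‖ ^ 2 = ((R' x y - R x y) *
      ((starRingEnd ℂ) (R' x y) + (starRingEnd ℂ) (R x y))).re := by
    intro x y
    rw [← Complex.normSq_eq_norm_sq, ← Complex.normSq_eq_norm_sq, Complex.normSq_apply,
      Complex.normSq_apply]
    simp only [Complex.mul_re, Complex.sub_re, Complex.add_re, Complex.conj_re, Complex.sub_im,
      Complex.add_im, Complex.conj_im]
    ring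
  have h2 : SS K z σ (Function.update V v s) - SS K z σ V =
      (∑ x, ∑ y, ((K (x - y) : ℝ) : ℂ) * ((R' x y - R x y) *
      ((starRingEnd ℂ) (R' x y) + (starRingEnd ℂ) (R x y)))).re := by
    unfold SS
    rw [← Finset.sum_sub_distrib, Complex.re_sum]
    refine Finset.sum_congr rfl fun x _ => ?_
    rw [← Finset.sum_sub_distrib, Complex.re_sum]
    refine Finset.sum_congr rfl fun y _ => ?_
    rw [Complex.re_ofReal_mul, ← h1]
    ring
  have h3 : ∑ x, ∑ y, ((K (x - y) : ℝ) : ℂ) * ((R' x y - R x y) *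
      ((starRingEnd ℂ) (R' x y) + (starRingEnd ℂ) (R x y))) =
      ∑ q, (w q : ℂ) * (t * ((∑ x, ∑ y, (e (Q q) x * R x v) *
        ((starRingEnd ℂ) (e (Q q) y) * R' v y) * (starRingEnd ℂ) (R' x y)) +
        ∑ x, ∑ y, (e (Q q) x * R x v) *
        ((starRingEnd ℂ) (e (Q q) y) * R' v y) * (starRingEnd ℂ) (R x y))) := by
    have h4 : ∀ x y, ((K (x - y) : ℝ) : ℂ) * ((R' x y - R x y) *
      ((starRingEnd ℂ) (R' x y) + (starRingEnd ℂ) (R x y))) =
      ∑ q, (w q : ℂ) * (t * (((e (Q q) x * R x v) *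
        ((starRingEnd ℂ) (e (Q q) y) * R' v y) * (starRingEnd ℂ) (R' x y)) +
        (e (Q q) x * R x v) *
        ((starRingEnd ℂ) (e (Q q) y) * R' v y) * (starRingEnd ℂ) (R x y))) := by
      intro x y
      rw [hR, hR', rank_one z hz σ V v s x y, hK, Finset.sum_mul]
      refine Finset.sum_congr rfl fun q _ => ?_
      rw [sub_eq_add_neg, e_add, e_neg]
      ring
    simp only [h4]
    have h5 : ∀ F : T d L → T d L → ι → ℂ, ∑ x, ∑ y, ∑ q, F x y q = ∑ q, ∑ x, ∑ y, F x y q := by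
      intro F
      have : ∀ x, ∑ y, ∑ q, F x y q = ∑ q, ∑ y, F x y q := fun x => Finset.sum_comm
      simp only [this]
      exact Finset.sum_comm
    rw [h5]
    refine Finset.sum_congr rfl fun q _ => ?_
    simp only [← Finset.mul_sum, ← Finset.sum_add_distrib]
  rw [h2]
  refine (Complex.abs_re_le_norm _).trans ?_
  rw [h3]
  have hn : ∀ q, ‖(w q : ℂ) * (t * ((∑ x, ∑ y, (e (Q q) x * R x v) *
        ((starRingEnd ℂ) (e (Q q) y) * R' v y) * (starRingEnd ℂ) (R' x y)) +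
        ∑ x, ∑ y, (e (Q q) x * R x v) *
        ((starRingEnd ℂ) (e (Q q) y) * R' v y) * (starRingEnd ℂ) (R x y)))‖ ≤
      w q * (2 * (|σ| * |s - V v|) / z.im ^ 3) := by
    intro q
    have ha : ∑ x, ‖e (Q q) x * R x v‖ ^ 2 ≤ 1 / z.im ^ 2 := by
      simp only [norm_mul, e_norm, one_mul]
      exact col_le z hz σ V v
    have hb : ∑ y, ‖(starRingEnd ℂ) (e (Q q) y) * R' v y‖ ^ 2 ≤ 1 / z.im ^ 2 := by
      simp only [norm_mul, RCLike.norm_conj, e_norm, one_mul]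
      exact row_le z hz σ (Function.update V v s) v
    have b1 := bil_le z hz σ (Function.update V v s) _ _ ha hb
    have b2 := bil_le z hz σ V _ _ ha hb
    have nt : ‖t‖ = |σ| * |s - V v| := by
      rw [ht, norm_neg, norm_mul, Complex.norm_real, Real.norm_eq_abs]
      congr 1
      have : (s : ℂ) - V v = ((s - V v : ℝ) : ℂ) := by push_cast; rfl
      rw [this, Complex.norm_real, Real.norm_eq_abs]
    rw [norm_mul, norm_mul, Complex.norm_real, Real.norm_eq_abs, abs_of_nonneg (hw q), nt]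
    refine mul_le_mul_of_nonneg_left ?_ (hw q)
    have b3 := (norm_add_le _ _).trans (add_le_add b1 b2)
    calc _ ≤ |σ| * |s - V v| * (1 / z.im ^ 3 + 1 / z.im ^ 3) :=
          mul_le_mul_of_nonneg_left b3 (by positivity)
      _ = _ := by ring
  refine (norm_sum_le _ _).trans ((Finset.sum_le_sum fun q _ => hn q).trans (le_of_eq ?_))
  rw [← Finset.sum_mul, hw1, one_mul]

end Pool.Agent.Zk60.LL.Dif
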