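import Pool.Agent.Zk60.LL.Bnd

/-! # Localization lengths of almost all eigenfunctions -/

set_option autoImplicit false
set_option linter.unusedSectionVars false

open scoped BigOperators Topology
open MeasureTheory Filter

namespace Pool.Agent.Zk60.LL.Fin

open Pool.Agent.W788.MFP.Four (T NN NN_pos card_T)
open Pool.Agent.Zk11.QD
open Pool.Agent.Zk60.LL.Ker Pool.Agent.Zk60.LL.Prob Pool.Agent.Zk60.LL.Det Pool.Agent.Zk60.LL.Lim
open Pool.Agent.Zk60.LL.Bnd Pool.Agent.Zk60.LL.Dos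

variable {d : ℕ}

theorem small_rpow (p x : ℝ) (hp : 0 < p) (hx : 0 < x) : ∃ l0 : ℝ, 0 < l0 ∧
    ∀ lam : ℝ, 0 < lam → lam < l0 → lam ^ p ≤ x := by
  refine ⟨x ^ (1 / p), Real.rpow_pos_of_pos hx _, fun lam h1 h2 => ?_⟩
  have h3 := Real.rpow_le_rpow h1.le h2.le hp.le
  rw [← Real.rpow_mul hx.le, one_div_mul_cancel hp.ne', Real.rpow_one] at h3
  exact h3

theorem Psi_nonneg {L : ℕ} [NeZero L] {ι : Type} [Fintype ι] (Q : ι → T d L) (w : ι → ℝ)
    (hw : ∀ q, 0 ≤ w q) (K : T d L → ℝ)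
    (hK : ∀ x, ((K x : ℝ) : ℂ) = ∑ q, (w q : ℂ) * Pool.Agent.W788.MFP.Four.e (Q q) x)
    (hK1 : ∀ x, K x ≤ 1) (η : ℝ) (hη : 0 < η) (E1 E2 σ : ℝ) (V : T d L → ℝ) :
    0 ≤ Psi K η E1 E2 σ V := by
  obtain ⟨ψ, E, h⟩ := exists_EB σ V
  have h1 := det_bound h Q w hw K hK hK1 η hη E1 E2
  refine le_trans ?_ h1
  have := Real.pi_pos
  exact mul_nonneg this.le (Finset.sum_nonneg fun j _ => AA_nonneg Q w hw _ _)

theorem Psi_meas {L : ℕ} [NeZero L] (K : T d L → ℝ) (η : ℝ) (hη : 0 < η) (E1 E2 σ : ℝ) :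
    Measurable (Psi K η E1 E2 σ) := by
  unfold Psi
  refine Measurable.add_const ?_ _
  have h1 : StronglyMeasurable (Function.uncurry fun (u : ℝ) (V : T d L → ℝ) =>
      η * (SS K ((u : ℂ) + η * Complex.I) σ V - SS (fun _ => 1) ((u : ℂ) + η * Complex.I) σ V)) :=
    (integrand_cont K η hη σ).stronglyMeasurable
  exact (StronglyMeasurable.integral_prod_left h1).measurable

/-- the count of concentrated eigenfunctions -/
theorem count {L : ℕ} [NeZero L] {ι : Type} [Fintype ι] (Q : ι → T d L) (w : ι → ℝ)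
    (hw : ∀ q, 0 ≤ w q) (K : T d L → ℝ)
    (hK : ∀ x, ((K x : ℝ) : ℂ) = ∑ q, (w q : ℂ) * Pool.Agent.W788.MFP.Four.e (Q q) x)
    (hK0 : ∀ x, 0 ≤ K x) (hK1 : ∀ x, K x ≤ 1) (η : ℝ) (hη : 0 < η) (E1 E2 σ : ℝ) (V : T d L → ℝ)
    (ψ : T d L → T d L → ℂ) (E : T d L → ℝ) (h : EB σ V ψ E) (c r t : ℝ) (hc : 0 < c)
    (hball : ∀ y0 x y : T d L, (∀ i, |((x - y0) i).valMinAbs| ≤ r) →
      (∀ i, |((y - y0) i).valMinAbs| ≤ r) → 1 / 2 ≤ K (x - y))
    (hV : Psi K η E1 E2 σ V ≤ t) (J : Finset (T d L))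
    (hJ : ∀ j ∈ J, ∃ (B : Finset (T d L)) (y0 : T d L),
      (∀ x ∈ B, ∀ i, |((x - y0) i).valMinAbs| ≤ r) ∧ c ≤ ∑ x ∈ B, ‖ψ j x‖ ^ 2) :
    (J.card : ℝ) ≤ 2 * t / (Real.pi * c ^ 2) := by
  have hpi := Real.pi_pos
  have h1 := det_bound h Q w hw K hK hK1 η hη E1 E2
  have h2 : ∀ j ∈ J, c ^ 2 / 2 ≤ AA Q w (ψ j) (ψ j) := by
    intro j hj
    obtain ⟨B, y0, hB, hcB⟩ := hJ j hj
    exact conc_bound Q w K hK hK0 (ψ j) B (fun x hx y hy => hball y0 x y (hB x hx) (hB y hy)) c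
      hc.le hcB
  have h3 : (J.card : ℝ) * (c ^ 2 / 2) ≤ ∑ j, AA Q w (ψ j) (ψ j) := by
    calc (J.card : ℝ) * (c ^ 2 / 2) = ∑ j ∈ J, c ^ 2 / 2 := by
          rw [Finset.sum_const, nsmul_eq_mul]
      _ ≤ ∑ j ∈ J, AA Q w (ψ j) (ψ j) := Finset.sum_le_sum h2
      _ ≤ _ := Finset.sum_le_univ_sum_of_nonneg fun j => AA_nonneg Q w hw _ _
  have h4 : Real.pi * ((J.card : ℝ) * (c ^ 2 / 2)) ≤ t :=
    (mul_le_mul_of_nonneg_left h3 hpi.le).trans (h1.trans hV)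
  rw [le_div_iff₀ (by positivity)]
  linarith

/-- bounds for the variance -/
theorem var_le (μ : Measure ℝ) [IsProbabilityMeasure μ] (b : ℝ) (hb : ∀ᵐ s ∂μ, |s| ≤ b) :
    ∫ s, (s - ∫ t, t ∂μ) ^ 2 ∂μ ≤ 4 * b ^ 2 := by
  have h0 : |∫ t, t ∂μ| ≤ b := by
    have := norm_integral_le_of_norm_le_const (μ := μ) (f := fun t : ℝ => t) (C := b) (by
      filter_upwards [hb] with s hs
      exact hs)
    simpa using this
  have h1 : ∫ s, (s - ∫ t, t ∂μ) ^ 2 ∂μ ≤ ∫ _s, 4 * b ^ 2 ∂μ := by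
    refine integral_mono_of_nonneg (Eventually.of_forall fun s => sq_nonneg _)
      (integrable_const _) ?_
    filter_upwards [hb] with s hs
    have h2 := abs_le.1 hs
    have h3 := abs_le.1 h0
    have h4 : |s - ∫ t, t ∂μ| ≤ 2 * b := by
      rw [abs_le]
      constructor <;> linarith
    have h5 := pow_le_pow_left₀ (abs_nonneg _) h4 2
    rw [sq_abs] at h5
    linarith
  refine h1.trans (le_of_eq ?_)
  simp

/-- the averaged bound for large tori -/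
theorem avg_small (hd : 3 ≤ d) (b v0 κ ε4 : ℝ) (hv0 : 0 < v0) (hκ0 : 0 < κ) (hκ1 : κ < 1 / 2)
    (hε4 : 0 < ε4) : ∃ (E1 E2 A : ℝ) (M : ℕ) (δ : ℝ), 0 ≤ A ∧ 0 < M ∧ 0 < δ ∧
    ∀ (μ : Measure ℝ) [IsProbabilityMeasure μ], (∀ᵐ s ∂μ, |s| ≤ b) →
      v0 ≤ ∫ s, (s - ∫ t, t ∂μ) ^ 2 ∂μ → ∀ lam η : ℝ, 0 < lam → lam < δ → lam ^ (2 + κ) ≤ η →
      η ≤ δ * lam ^ 2 → ∀ᶠ h : ℕ in atTop,
        (∫ u in Set.Icc E1 E2, hu μ (KT (d := d) (2 * h + 1) M
          (th ⟨0, by omega⟩ (lam * Real.sqrt η) A M)) η lam u) + Real.pi ≤ ε4 := by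
  have hpi := Real.pi_pos
  set i0 : Fin d := ⟨0, by omega⟩
  obtain ⟨E1, E2, hE1, hE12, hE2, hmass⟩ := dos_mass (d := d) hd (ε4 / 4) (by positivity)
  set C0 : ℝ := (∫ t in Set.Ioi (0 : ℝ), ‖GG d t‖) + 1 with hC0
  have hC0' : 0 ≤ ∫ t in Set.Ioi (0 : ℝ), ‖GG d t‖ := integral_nonneg fun _ => norm_nonneg _
  have hC0pos : 0 < C0 := by linarith
  have hgle : ∀ u : ℝ, (g0 d u).im ≤ C0 := by
    intro u
    have h1 := lap_bound (GG d) (GG_int hd) (u : ℂ) (by simp)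
    have h2 := (abs_le.1 (Complex.abs_im_le_norm (Lap (GG d) (u : ℂ)))).2
    have h3 : (g0 d u).im = (Lap (GG d) (u : ℂ)).im := rfl
    rw [h3]
    linarith
  -- lower bound for `h0`
  have hhc : Continuous fun u : ℝ => (h0 d u).im := Complex.continuous_im.comp (h0_cont hd)
  have hgc : Continuous fun u : ℝ => (g0 d u).im := Complex.continuous_im.comp (g0_cont hd)
  obtain ⟨u0, hu0, hmin⟩ := (isCompact_Icc (a := E1) (b := E2)).exists_isMinOn
    ⟨E1, le_rfl, hE12.le⟩ hhc.continuousOn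
  set hm : ℝ := (h0 d u0).im with hhm
  have hmpos : 0 < hm := h0_pos hd u0 (lt_of_lt_of_le hE1 hu0.1) (lt_of_le_of_lt hu0.2 hE2)
  set VM : ℝ := 4 * b ^ 2 + 1 with hVM
  have hVM0 : 0 < VM := by positivity
  set D0 : ℝ := hm / (4 * C0 ^ 2 * VM) with hD0
  have hD0pos : 0 < D0 := by positivity
  set I : ℝ := E2 - E1 with hI
  have hI0 : 0 < I := by linarith
  obtain ⟨M, hM⟩ := exists_nat_gt (8 * C0 * I / ε4)
  have hM0 : (0 : ℝ) < M := lt_of_le_of_lt (by positivity) hM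
  have hMpos : 0 < M := by exact_mod_cast hM0
  set A : ℝ := 1 + 8 * C0 * I / (ε4 * D0) with hA
  have hA1 : 1 ≤ A := by
    have : 0 ≤ 8 * C0 * I / (ε4 * D0) := by positivity
    linarith
  set ε2 : ℝ := ε4 / (16 * I) with hε2
  have hε20 : 0 < ε2 := by positivity
  obtain ⟨δ, hδ, hfin⟩ := fin_gen hd E1 E2 hE1 hE2 b v0 hv0 κ hκ0 hκ1 (A * M) ε2 hε20
  refine ⟨E1, E2, A, M, δ, by linarith, hMpos, hδ, ?_⟩
  intro μ _ hb hv lam η hl0 hl1 hη0 hη1
  have hη : 0 < η := lt_of_lt_of_le (Real.rpow_pos_of_pos hl0 _) hη0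
  set V : ℝ := ∫ s, (s - ∫ t, t ∂μ) ^ 2 ∂μ with hV
  have hV0 : 0 < V := lt_of_lt_of_le hv0 hv
  have hVle : V ≤ VM := (var_le μ b hb).trans (by linarith)
  set X : ℝ := 1 / (M : ℝ) + 1 / (1 + D0 * A ^ 2) with hX
  -- at each energy
  have hlim : ∀ u ∈ Set.Icc E1 E2, ∃ l : ℝ, Tendsto (fun h : ℕ =>
      hu μ (KT (d := d) (2 * h + 1) M (th i0 (lam * Real.sqrt η) A M)) η lam u) atTop (𝓝 l) ∧
      l ≤ (g0 d u).im * X - (g0 d u).im + 2 * ε2 := by
    intro u hu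
    have hgp := g0_pos hd u (lt_of_lt_of_le hE1 hu.1) (lt_of_le_of_lt hu.2 hE2)
    refine lim_le hd μ lam η u hη i0 A (by linarith) M hMpos ε2 V D0 hD0pos ?_ hgp.le ?_
    · rw [hD0]
      apply div_le_div₀ (le_trans hmpos.le (hmin hu)) (hmin hu) (by positivity)
      have h1 : (g0 d u).im ^ 2 ≤ C0 ^ 2 := pow_le_pow_left₀ hgp.le (hgle u) 2
      calc 4 * (g0 d u).im ^ 2 * V ≤ 4 * C0 ^ 2 * V :=
            mul_le_mul_of_nonneg_right (by linarith) hV0.le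
        _ ≤ 4 * C0 ^ 2 * VM := mul_le_mul_of_nonneg_left hVle (by positivity)
    · intro P hP G hG
      exact hfin μ hb V hV hv u hu.1 hu.2 P hP lam η hl0 hl1 hη0 hη1 G hG
  choose! l hl1' hl2' using hlim
  have hK0 : ∀ (h : ℕ) (x : T d (2 * h + 1)), 0 ≤ KT (2 * h + 1) M
      (th i0 (lam * Real.sqrt η) A M) x := fun h x => KT_nonneg _ M _ x
  have hK1 : ∀ (h : ℕ) (x : T d (2 * h + 1)), KT (2 * h + 1) M
      (th i0 (lam * Real.sqrt η) A M) x ≤ 1 := fun h x => KT_le _ M hMpos _ x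
  have hdom := tendsto_integral_of_dominated_convergence (μ := volume.restrict (Set.Icc E1 E2))
    (F := fun (h : ℕ) (u : ℝ) => hu μ (KT (d := d) (2 * h + 1) M
      (th i0 (lam * Real.sqrt η) A M)) η lam u) (f := l) (fun _ => 1 / η)
    (fun h => (hu_cont μ lam _ η hη).aestronglyMeasurable) (integrable_const _)
    (fun h => Eventually.of_forall fun u => hu_bdd μ lam _ (hK0 h) (hK1 h) η hη u)
    ((ae_restrict_mem measurableSet_Icc).mono fun u hu => hl1' u hu)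
  -- integrability of the limit
  have hlm : AEStronglyMeasurable l (volume.restrict (Set.Icc E1 E2)) :=
    aestronglyMeasurable_of_tendsto_ae atTop
      (fun h => (hu_cont μ lam (KT (d := d) (2 * h + 1) M
        (th i0 (lam * Real.sqrt η) A M)) η hη).aestronglyMeasurable)
      ((ae_restrict_mem measurableSet_Icc).mono fun u hu => hl1' u hu)
  have hlb : ∀ u ∈ Set.Icc E1 E2, |l u| ≤ 1 / η := fun u hu =>
    le_of_tendsto (hl1' u hu).abs (Eventually.of_forall fun h =>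
      hu_bdd μ lam _ (hK0 h) (hK1 h) η hη u)
  have hli : IntegrableOn l (Set.Icc E1 E2) :=
    Integrable.mono' (integrable_const (1 / η)) hlm
      ((ae_restrict_mem measurableSet_Icc).mono fun u hu => hlb u hu)
  have hgi : IntegrableOn (fun u : ℝ => (g0 d u).im) (Set.Icc E1 E2) :=
    hgc.continuousOn.integrableOn_compact isCompact_Icc
  have hle : ∫ u in Set.Icc E1 E2, l u ≤ ∫ u in Set.Icc E1 E2, (C0 * X + 2 * ε2 - (g0 d u).im) := by
    refine setIntegral_mono_on hli ((integrable_const _).sub hgi) measurableSet_Icc fun u hu => ?_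
    have h1 := hl2' u hu
    have hXn : 0 ≤ X := by rw [hX]; positivity
    have h2 : (g0 d u).im * X ≤ C0 * X := mul_le_mul_of_nonneg_right (hgle u) hXn
    linarith
  have hval : ∫ u in Set.Icc E1 E2, (C0 * X + 2 * ε2 - (g0 d u).im) =
      I * (C0 * X + 2 * ε2) - ∫ u in Set.Icc E1 E2, (g0 d u).im := by
    rw [integral_sub (integrable_const _) hgi, setIntegral_const, smul_eq_mul]
    congr 2
    rw [Real.volume_real_Icc_of_le hE12.le]
  have hI1 : I * (C0 * (1 / M)) ≤ ε4 / 8 := by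
    rw [div_lt_iff₀ hε4] at hM
    have : I * (C0 * (1 / M)) = C0 * I / M := by ring
    rw [this, div_le_iff₀ hM0]
    linarith
  have hI2 : I * (C0 * (1 / (1 + D0 * A ^ 2))) ≤ ε4 / 8 := by
    have h1 : 8 * C0 * I / ε4 ≤ 1 + D0 * A ^ 2 := by
      have h2 : D0 * (8 * C0 * I / (ε4 * D0)) = 8 * C0 * I / ε4 := by field_simp
      have h3 : D0 * (8 * C0 * I / (ε4 * D0)) ≤ D0 * A :=
        mul_le_mul_of_nonneg_left (by rw [hA]; linarith) hD0pos.le
      have h4' : A ≤ A ^ 2 := by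
        have := mul_le_mul_of_nonneg_left hA1 (by linarith : (0 : ℝ) ≤ A)
        rw [mul_one] at this
        rw [sq]; exact this
      have h4 : D0 * A ≤ D0 * A ^ 2 := mul_le_mul_of_nonneg_left h4' hD0pos.le
      linarith
    have h5 : I * (C0 * (1 / (1 + D0 * A ^ 2))) = C0 * I / (1 + D0 * A ^ 2) := by ring
    rw [h5, div_le_iff₀ (by positivity)]
    rw [div_le_iff₀ hε4] at h1
    linarith
  have hI3 : I * (2 * ε2) = ε4 / 8 := by
    rw [hε2]; field_simp; norm_num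
  have hfinal : (∫ u in Set.Icc E1 E2, l u) + Real.pi < ε4 := by
    have h1 : I * (C0 * X + 2 * ε2) = I * (C0 * (1 / M)) + I * (C0 * (1 / (1 + D0 * A ^ 2))) +
        I * (2 * ε2) := by rw [hX]; ring
    rw [hval, h1] at hle
    linarith
  have h1 := (hdom.add_const Real.pi).eventually (gt_mem_nhds hfinal)
  exact h1.mono fun h hh => hh.le

/-- **Localization lengths of almost all eigenfunctions at weak disorder.** -/
theorem main (hd : 3 ≤ d) (b v0 β c ε : ℝ) (hv0 : 0 < v0) (hβ : β < 9 / 4) (hc : 0 < c)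
    (hε : 0 < ε) :
    ∃ l0 : ℝ, 0 < l0 ∧ ∀ (μ : Measure ℝ) [IsProbabilityMeasure μ], (∀ᵐ s ∂μ, |s| ≤ b) →
      v0 ≤ ∫ s, (s - ∫ t, t ∂μ) ^ 2 ∂μ → ∀ lam : ℝ, 0 < lam → lam < l0 → ∃ H0 : ℕ, ∀ h : ℕ,
      H0 ≤ h → ∃ G : Set (T d (2 * h + 1) → ℝ), MeasurableSet G ∧
        1 - ε ≤ (PL (T d (2 * h + 1)) μ).real G ∧
          ∀ V ∈ G, ∀ (ψ : T d (2 * h + 1) → T d (2 * h + 1) → ℂ) (E : T d (2 * h + 1) → ℝ),
            EB lam V ψ E → ∀ J : Finset (T d (2 * h + 1)),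
              (∀ j ∈ J, ∃ (B : Finset (T d (2 * h + 1))) (y0 : T d (2 * h + 1)),
                (∀ x ∈ B, ∀ i, |((x - y0) i).valMinAbs| ≤ lam ^ (-β)) ∧
                  c ≤ ∑ x ∈ B, ‖ψ j x‖ ^ 2) →
              (J.card : ℝ) ≤ ε * (Fintype.card (T d (2 * h + 1)) : ℝ) := by
  have hpi := Real.pi_pos
  set κ : ℝ := max (1 / 4) (β - 7 / 4) with hκ
  have hκ0 : 0 < κ := lt_of_lt_of_le (by norm_num) (le_max_left _ _)
  have hκ1 : κ < 1 / 2 := max_lt (by norm_num) (by linarith)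
  have hκ2 : 0 < 2 + κ / 2 - β := by
    have := le_max_right (1 / 4 : ℝ) (β - 7 / 4)
    rw [← hκ] at this
    linarith
  set t : ℝ := Real.pi * c ^ 2 * ε / 2 with ht
  have ht0 : 0 < t := by positivity
  obtain ⟨E1, E2, A, M, δ, hA, hM, hδ, havg⟩ := avg_small (d := d) hd b v0 κ (ε * t) hv0 hκ0 hκ1
    (by positivity)
  have hd0 : (0 : ℝ) < d := by exact_mod_cast (by omega : 0 < d)
  have hM0 : (0 : ℝ) < M := by exact_mod_cast hM
  obtain ⟨l1, hl1, hl1'⟩ := small_rpow κ δ hκ0 hδ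
  obtain ⟨l2, hl2, hl2'⟩ := small_rpow (2 + κ / 2 - β) (1 / (16 * (d * (A * M + 1)))) hκ2
    (by positivity)
  refine ⟨min δ (min l1 l2), lt_min hδ (lt_min hl1 hl2), ?_⟩
  intro μ _ hb hv lam hlam0 hlam
  have hlam1 : lam < δ := hlam.trans_le (min_le_left _ _)
  have hlam2 : lam < l1 := hlam.trans_le ((min_le_right _ _).trans (min_le_left _ _))
  have hlam3 : lam < l2 := hlam.trans_le ((min_le_right _ _).trans (min_le_right _ _))
  set η : ℝ := lam ^ (2 + κ) with hη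
  have hη0 : 0 < η := Real.rpow_pos_of_pos hlam0 _
  have hη1 : η ≤ δ * lam ^ 2 := by
    rw [hη, Real.rpow_add hlam0, Real.rpow_two, mul_comm]
    exact mul_le_mul_of_nonneg_right (hl1' lam hlam0 hlam2) (by positivity)
  have hsq : lam * Real.sqrt η = lam ^ (2 + κ / 2) := by
    rw [hη, Real.sqrt_eq_rpow, ← Real.rpow_mul hlam0.le]
    have : lam * lam ^ ((2 + κ) * (1 / 2)) = lam ^ (1 : ℝ) * lam ^ ((2 + κ) * (1 / 2)) := by
      rw [Real.rpow_one]
    rw [this, ← Real.rpow_add hlam0]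
    congr 1
    ring
  have hr0 : 0 < lam ^ (-β) := Real.rpow_pos_of_pos hlam0 _
  have hsmall : 2 * (d * (lam * Real.sqrt η * (A * M) * lam ^ (-β))) ≤ 1 / 8 := by
    have h1 := hl2' lam hlam0 hlam3
    have h2 : lam * Real.sqrt η * lam ^ (-β) = lam ^ (2 + κ / 2 - β) := by
      rw [hsq, ← Real.rpow_add hlam0]
      congr 1
    have h3 : 2 * (d * (lam * Real.sqrt η * (A * M) * lam ^ (-β))) =
        2 * (d * (A * M)) * (lam * Real.sqrt η * lam ^ (-β)) := by ring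
    rw [h3, h2]
    have h4 : 2 * (d * (A * M)) * lam ^ (2 + κ / 2 - β) ≤
        2 * (d * (A * M + 1)) * (1 / (16 * (d * (A * M + 1)))) := by
      apply mul_le_mul _ h1 (Real.rpow_nonneg hlam0.le _) (by positivity)
      have : (d : ℝ) * (A * M) ≤ d * (A * M + 1) := mul_le_mul_of_nonneg_left (by linarith) hd0.le
      linarith
    refine h4.trans (le_of_eq ?_)
    have : (d : ℝ) * (A * M + 1) ≠ 0 := by positivity
    field_simp
    norm_num
  have hev := havg μ hb hv lam η hlam0 hlam1 le_rfl hη1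
  obtain ⟨H1, hH1⟩ := eventually_atTop.1 hev
  obtain ⟨H2, hH2⟩ := exists_nat_gt (32 * d * Real.pi * lam ^ (-β))
  refine ⟨max H1 H2, fun h hh => ?_⟩
  have hh1 := hH1 h ((le_max_left _ _).trans hh)
  have hh2 : (H2 : ℝ) ≤ h := by exact_mod_cast (le_max_right H1 H2).trans hh
  set i0 : Fin d := ⟨0, by omega⟩ with hi0
  set θ := th i0 (lam * Real.sqrt η) A M with hθ
  have hcube : 2 * (d * ((lam * Real.sqrt η * (A * M) + 2 * Real.pi / ((2 * h + 1 : ℕ) : ℝ)) *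
      lam ^ (-β))) ≤ 1 / 4 := by
    have hL : (0 : ℝ) < ((2 * h + 1 : ℕ) : ℝ) := by positivity
    have h1 : 2 * (d * (2 * Real.pi / ((2 * h + 1 : ℕ) : ℝ) * lam ^ (-β))) ≤ 1 / 8 := by
      have h2 : 2 * (d * (2 * Real.pi / ((2 * h + 1 : ℕ) : ℝ) * lam ^ (-β))) =
          4 * d * Real.pi * lam ^ (-β) / ((2 * h + 1 : ℕ) : ℝ) := by ring
      rw [h2, div_le_iff₀ hL]
      push_cast
      linarith
    have h3 : 2 * (d * ((lam * Real.sqrt η * (A * M) + 2 * Real.pi / ((2 * h + 1 : ℕ) : ℝ)) *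
      lam ^ (-β))) = 2 * (d * (lam * Real.sqrt η * (A * M) * lam ^ (-β))) +
        2 * (d * (2 * Real.pi / ((2 * h + 1 : ℕ) : ℝ) * lam ^ (-β))) := by ring
    rw [h3]
    linarith
  have hK0 : ∀ x, 0 ≤ KT (d := d) (2 * h + 1) M θ x := fun x => KT_nonneg _ M _ x
  have hK1 : ∀ x, KT (d := d) (2 * h + 1) M θ x ≤ 1 := fun x => KT_le _ M hM _ x
  set P := PL (T d (2 * h + 1)) μ with hP
  set Ψ := Psi (KT (d := d) (2 * h + 1) M θ) η E1 E2 lam with hΨ
  set N : ℝ := (Fintype.card (T d (2 * h + 1)) : ℝ) with hN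
  have hN0 : 0 < N := by
    rw [hN]
    exact_mod_cast Fintype.card_pos
  have hint := avg_Psi μ (KT (d := d) (2 * h + 1) M θ) hK0 hK1 η hη0 E1 E2 lam
  rw [← hP, ← hΨ] at hint
  have hmeas : Measurable Ψ := Psi_meas _ η hη0 E1 E2 lam
  have hw : ∀ q : Fin M × Fin M, 0 ≤ 1 / (M : ℝ) ^ 2 := fun _ => by positivity
  have hnn : ∀ V, 0 ≤ Ψ V := fun V => Psi_nonneg (fun q : Fin M × Fin M =>
    pm (2 * h + 1) (θ q.1) - pm (2 * h + 1) (θ q.2)) (fun _ => 1 / (M : ℝ) ^ 2) hw _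
    (KT_rep _ M θ) hK1 η hη0 E1 E2 lam V
  refine ⟨{V | Ψ V ≤ t * N}, measurableSet_le hmeas measurable_const, ?_, ?_⟩
  · have h1 := mul_meas_ge_le_integral_of_nonneg (μ := P) (Eventually.of_forall hnn) hint.1 (t * N)
    have h2 : ∫ V, Ψ V ∂P ≤ N * (ε * t) := by
      rw [hint.2]
      exact mul_le_mul_of_nonneg_left hh1 hN0.le
    have h3 : P.real {V | t * N ≤ Ψ V} ≤ ε := by
      have h4 : t * N * P.real {V | t * N ≤ Ψ V} ≤ t * N * ε := by
        calc _ ≤ _ := h1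
          _ ≤ _ := h2
          _ = t * N * ε := by ring
      exact le_of_mul_le_mul_left h4 (by positivity)
    have h5 : P.real ({V | Ψ V ≤ t * N}ᶜ) ≤ ε := by
      refine (measureReal_mono ?_ (measure_ne_top _ _)).trans h3
      intro V hV
      simp only [Set.mem_compl_iff, Set.mem_ofPred_eq, not_le] at hV
      exact hV.le
    rw [probReal_compl_eq_one_sub (measurableSet_le hmeas measurable_const)] at h5
    linarith
  · intro V hV ψ E hE J hJ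
    have h1 := count (fun q : Fin M × Fin M =>
      pm (2 * h + 1) (θ q.1) - pm (2 * h + 1) (θ q.2)) (fun _ => 1 / (M : ℝ) ^ 2) hw _
      (KT_rep _ M θ) hK0 hK1 η hη0 E1 E2 lam V ψ E hE c (lam ^ (-β)) (t * N) hc
      (fun y0 x y hx hy => KT_large (2 * h + 1) M hM θ (lam * Real.sqrt η * (A * M)) (lam ^ (-β))
        (fun m j => th_le i0 _ A (by positivity) hA M m j) hr0.le hcube y0 x y hx hy) hV J hJ
    refine h1.trans (le_of_eq ?_)
    rw [ht]
    field_simp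

end Pool.Agent.Zk60.LL.Fin
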