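import Pool.Agent.Zk60.LL.Wfin

/-! # The whole spectrum, with exponentially small probability of the exception -/

set_option autoImplicit false
set_option linter.unusedSectionVars false

open scoped BigOperators Topology
open MeasureTheory Filter

namespace Pool.Agent.Zk60.LL.Glob

open Pool.Agent.W788.MFP.Four (T NN NN_pos card_T)
open Pool.Agent.Zk11.QD
open Pool.Agent.Zk60.LL.Ker Pool.Agent.Zk60.LL.Prob Pool.Agent.Zk60.LL.Det Pool.Agent.Zk60.LL.Bnd
open Pool.Agent.Zk60.LL.Phi Pool.Agent.Zk60.LL.Lv Pool.Agent.Zk60.LL.Win Pool.Agent.Zk60.LL.Rar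
open Pool.Agent.Zk60.LL.Wdt Pool.Agent.Zk60.LL.Fin Pool.Agent.Zk60.LL.Dos

variable {d : ℕ}

theorem Psi_eq {L : ℕ} [NeZero L] {K : T d L → ℝ} (hK : Rep K) (η : ℝ) (hη : 0 < η)
    (E1 E2 σ : ℝ) (V : T d L → ℝ) :
    Psi K η E1 E2 σ V = η * Phi.Phi (volume.restrict (Set.Icc E1 E2)) K η σ V -
      η * Phi.Phi (volume.restrict (Set.Icc E1 E2)) (fun _ => 1) η σ V +
      Real.pi * (Fintype.card (T d L) : ℝ) := by
  unfold Psi Phi.Phi
  rw [integral_const_mul, integral_sub (SS_int _ hK η hη σ V) (SS_int _ rep_one η hη σ V)]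
  ring

theorem glob (hd : 3 ≤ d) (b v0 β c ε : ℝ) (hv0 : 0 < v0) (hβ : β < 9 / 4) (hc : 0 < c)
    (hε : 0 < ε) :
    ∃ l0 : ℝ, 0 < l0 ∧ ∀ (μ : Measure ℝ) [IsProbabilityMeasure μ], (∀ᵐ s ∂μ, |s| ≤ b) →
      v0 ≤ ∫ s, (s - ∫ t, t ∂μ) ^ 2 ∂μ → ∀ lam : ℝ, 0 < lam → lam < l0 →
      ∃ Bad : ∀ h : ℕ, Set (T d (2 * h + 1) → ℝ), Rare μ Bad ∧ (∀ h, MeasurableSet (Bad h)) ∧
        ∀ᶠ h : ℕ in atTop, ∀ V, V ∉ Bad h →
          ∀ (ψ : T d (2 * h + 1) → T d (2 * h + 1) → ℂ) (E : T d (2 * h + 1) → ℝ), EB lam V ψ E →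
            ∀ J : Finset (T d (2 * h + 1)), (∀ j ∈ J,
              ∃ (B : Finset (T d (2 * h + 1))) (y0 : T d (2 * h + 1)),
                (∀ x ∈ B, ∀ i, |((x - y0) i).valMinAbs| ≤ lam ^ (-β)) ∧
                  c ≤ ∑ x ∈ B, ‖ψ j x‖ ^ 2) →
              (J.card : ℝ) ≤ ε * (Fintype.card (T d (2 * h + 1)) : ℝ) := by
  have hpi := Real.pi_pos
  have hd0 : (0 : ℝ) < d := by exact_mod_cast (by omega : 0 < d)
  set κ : ℝ := max (1 / 4) (β - 7 / 4) with hκ
  have hκ0 : 0 < κ := lt_of_lt_of_le (by norm_num) (le_max_left _ _)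
  have hκ1 : κ < 1 / 2 := max_lt (by norm_num) (by linarith)
  have hκ2 : 0 < 2 + κ / 2 - β := by
    have := le_max_right (1 / 4 : ℝ) (β - 7 / 4)
    rw [← hκ] at this
    linarith
  set ε4 : ℝ := Real.pi * c ^ 2 * ε / 2 with hε4
  have hε40 : 0 < ε4 := by positivity
  obtain ⟨E1, E2, hE1, hE12, hE2, hmass⟩ := dos_mass (d := d) hd (ε4 / 4) (by positivity)
  obtain ⟨C0, gm, hm, hC0, hgm, hhm, hbulk⟩ := bulk hd E1 E2 hE1 hE12.le hE2
  set I : ℝ := E2 - E1 with hI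
  have hI0 : 0 < I := by linarith
  set x : ℝ := ε4 / (8 * I) with hx
  have hx0 : 0 < x := by positivity
  have hxI : x * I = ε4 / 8 := by rw [hx]; field_simp
  set VM : ℝ := 4 * b ^ 2 + 1 with hVM
  have hVM0 : 0 < VM := by positivity
  set D0 : ℝ := hm / (4 * C0 ^ 2 * VM) with hD0
  have hD0pos : 0 < D0 := by positivity
  obtain ⟨A, M, hA, hM, hAM⟩ := choose_AM C0 D0 x hC0 hD0pos hx0
  obtain ⟨δ, hδ, hfin⟩ := fin_gen hd E1 E2 hE1 hE2 b v0 hv0 κ hκ0 hκ1 (A * M) x hx0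
  have hM0 : (0 : ℝ) < M := by exact_mod_cast hM
  obtain ⟨l1, hl1, hl1'⟩ := small_rpow κ δ hκ0 hδ
  obtain ⟨l2, hl2, hl2'⟩ := small_rpow (2 + κ / 2 - β) (1 / (16 * (d * (A * M + 1)))) hκ2
    (by positivity)
  refine ⟨min δ (min l1 l2), lt_min hδ (lt_min hl1 hl2), ?_⟩
  intro μ _ hb hv lam hlam0 hlam
  simp only [lt_min_iff] at hlam
  obtain ⟨q0, q1, q2⟩ := hlam
  set i0 : Fin d := ⟨0, by omega⟩ with hi0
  set η : ℝ := lam ^ (2 + κ) with hη
  have hη0 : 0 < η := Real.rpow_pos_of_pos hlam0 _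
  have hηδ : η ≤ δ * lam ^ 2 := by
    rw [hη, Real.rpow_add hlam0, Real.rpow_two, mul_comm]
    exact mul_le_mul_of_nonneg_right (hl1' lam hlam0 q1) (by positivity)
  have hsq : lam * Real.sqrt η = lam ^ (2 + κ / 2) := by
    rw [hη, Real.sqrt_eq_rpow, ← Real.rpow_mul hlam0.le]
    have : lam * lam ^ ((2 + κ) * (1 / 2)) = lam ^ (1 : ℝ) * lam ^ ((2 + κ) * (1 / 2)) := by
      rw [Real.rpow_one]
    rw [this, ← Real.rpow_add hlam0]
    congr 1
    ring
  have hR0 : 0 < lam ^ (-β) := Real.rpow_pos_of_pos hlam0 _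
  have hsmall : 2 * (d * (lam * Real.sqrt η * (A * M) * lam ^ (-β))) ≤ 1 / 8 := by
    have h1 := hl2' lam hlam0 q2
    have h2 : lam * Real.sqrt η * lam ^ (-β) = lam ^ (2 + κ / 2 - β) := by
      rw [hsq, ← Real.rpow_add hlam0]
      congr 1
    have h3 : 2 * (d * (lam * Real.sqrt η * (A * M) * lam ^ (-β))) =
        2 * (d * (A * M)) * (lam * Real.sqrt η * lam ^ (-β)) := by ring
    rw [h3, h2]
    have h4 : 2 * (d * (A * M)) * lam ^ (2 + κ / 2 - β) ≤
        2 * (d * (A * M + 1)) * (1 / (16 * (d * (A * M + 1)))) := by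
      apply mul_le_mul _ h1 (Real.rpow_nonneg hlam0.le _) (by positivity)
      have : (d : ℝ) * (A * M) ≤ d * (A * M + 1) := mul_le_mul_of_nonneg_left (by linarith) hd0.le
      linarith
    refine h4.trans (le_of_eq ?_)
    have : (d : ℝ) * (A * M + 1) ≠ 0 := by positivity
    field_simp
    norm_num
  set Vv : ℝ := ∫ s, (s - ∫ t, t ∂μ) ^ 2 ∂μ with hVv
  have hVv0 : 0 < Vv := lt_of_lt_of_le hv0 hv
  have hVle : Vv ≤ VM := (var_le μ b hb).trans (by linarith)
  set ν : Measure ℝ := volume.restrict (Set.Icc E1 E2) with hν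
  have hgi : Integrable (fun u : ℝ => (g0 d u).im) ν := by
    have hgc : Continuous fun u : ℝ => (g0 d u).im := Complex.continuous_im.comp (g0_cont hd)
    exact hgc.continuousOn.integrableOn_compact isCompact_Icc
  have r1 : Rare μ (fun h => {V : T d (2 * h + 1) → ℝ | ε4 / 3 / η * (Fintype.card (T d (2 * h + 1)) : ℝ) ≤
      Phi.Phi ν (KT (2 * h + 1) M (th i0 (lam * Real.sqrt η) A M)) η lam V}) := by
    apply rare_up ν μ b hb (fun h => KT (2 * h + 1) M (th i0 (lam * Real.sqrt η) A M))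
      (fun h => rep_KT M hM _) η hη0 lam (fun _ => 2 * x) (integrable_const _)
    · refine (ae_restrict_mem measurableSet_Icc).mono fun u hu => ?_
      obtain ⟨g1, g2, g3⟩ := hbulk u hu
      have hgp : 0 < (g0 d u).im := hgm.trans_le g1
      obtain ⟨l, hl, hl'⟩ := lim_K μ lam η u hη0 i0 A hA M hM x Vv D0 hD0pos (by
        rw [hD0]
        apply div_le_div₀ (hhm.le.trans g3) g3 (by positivity)
        have h1 : (g0 d u).im ^ 2 ≤ C0 ^ 2 := pow_le_pow_left₀ hgp.le g2 2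
        calc 4 * (g0 d u).im ^ 2 * Vv ≤ 4 * C0 ^ 2 * Vv :=
              mul_le_mul_of_nonneg_right (by linarith) hVv0.le
          _ ≤ 4 * C0 ^ 2 * VM := mul_le_mul_of_nonneg_left hVle (by positivity)) hgp.le
        (fun P hP G hG => hfin μ hb Vv hVv hv u hu.1 hu.2 P hP lam η hlam0 q0 le_rfl hηδ G hG)
      refine ⟨l, hl, hl'.trans ?_⟩
      have h2 : (g0 d u).im * (1 / M + 1 / (1 + D0 * A ^ 2)) ≤
          C0 * (1 / M + 1 / (1 + D0 * A ^ 2)) := mul_le_mul_of_nonneg_right g2 (by positivity)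
      linarith
    · rw [hν, Wfin.const_restrict E1 E2 _ hE12.le]
      have e1 : η * (ε4 / 3 / η) = ε4 / 3 := by field_simp
      rw [e1]
      have : 2 * x * (E2 - E1) = 2 * (x * I) := by rw [hI]; ring
      rw [this, hxI]
      linarith
  have r2 : Rare μ (fun h => {V : T d (2 * h + 1) → ℝ | Phi.Phi ν (fun _ => 1) η lam V ≤
      (Real.pi - ε4 / 2) / η * (Fintype.card (T d (2 * h + 1)) : ℝ)}) := by
    apply rare_low ν μ b hb (fun h => fun _ => 1)
      (fun h => rep_one) η hη0 lam (fun u => (g0 d u).im - x) (hgi.sub (integrable_const _))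
    · refine (ae_restrict_mem measurableSet_Icc).mono fun u hu => ?_
      obtain ⟨l, hl, hl'⟩ := lim_1 μ lam η u hη0 x Vv (A * M) (by positivity)
        (fun P hP G hG => hfin μ hb Vv hVv hv u hu.1 hu.2 P hP lam η hlam0 q0 le_rfl hηδ G hG)
      refine ⟨l, hl, ?_⟩
      have := (abs_le.1 hl').1
      linarith
    · rw [integral_sub hgi (integrable_const _), hν, Wfin.const_restrict E1 E2 _ hE12.le]
      have e1 : η * ((Real.pi - ε4 / 2) / η) = Real.pi - ε4 / 2 := by field_simp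
      rw [e1]
      have : x * (E2 - E1) = x * I := by rw [hI]
      rw [this, hxI]
      linarith
  refine ⟨_, r1.union (by omega) r2, ?_, ?_⟩
  · intro h
    refine MeasurableSet.union ?_ ?_
    · exact measurableSet_le measurable_const (Phi_meas _ _ η hη0 lam)
    · exact measurableSet_le (Phi_meas _ _ η hη0 lam) measurable_const
  · obtain ⟨H2, hH2⟩ := exists_nat_gt (32 * d * Real.pi * lam ^ (-β))
    filter_upwards [eventually_ge_atTop H2] with h hh V hV ψ E hE J hJ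
    have hh2 : (H2 : ℝ) ≤ h := by exact_mod_cast hh
    have hcube : 2 * (d * ((lam * Real.sqrt η * (A * M) + 2 * Real.pi / ((2 * h + 1 : ℕ) : ℝ)) *
        lam ^ (-β))) ≤ 1 / 4 := by
      have hL : (0 : ℝ) < ((2 * h + 1 : ℕ) : ℝ) := by positivity
      have h1 : 2 * (d * (2 * Real.pi / ((2 * h + 1 : ℕ) : ℝ) * lam ^ (-β))) ≤ 1 / 8 := by
        have h2 : 2 * (d * (2 * Real.pi / ((2 * h + 1 : ℕ) : ℝ) * lam ^ (-β))) =
            4 * d * Real.pi * lam ^ (-β) / ((2 * h + 1 : ℕ) : ℝ) := by ring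
        rw [h2, div_le_iff₀ hL]
        push_cast
        linarith
      have h3 : 2 * (d * ((lam * Real.sqrt η * (A * M) + 2 * Real.pi / ((2 * h + 1 : ℕ) : ℝ)) *
        lam ^ (-β))) = 2 * (d * (lam * Real.sqrt η * (A * M) * lam ^ (-β))) +
          2 * (d * (2 * Real.pi / ((2 * h + 1 : ℕ) : ℝ) * lam ^ (-β))) := by ring
      rw [h3]
      linarith
    simp only [Set.mem_union, Set.mem_ofPred_eq, not_or, not_le] at hV
    obtain ⟨v1, v2⟩ := hV
    set N : ℝ := (Fintype.card (T d (2 * h + 1)) : ℝ) with hN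
    have hN0 : 0 ≤ N := by rw [hN]; positivity
    set θ := th i0 (lam * Real.sqrt η) A M with hθ
    have hPsi : Psi (KT (d := d) (2 * h + 1) M θ) η E1 E2 lam V ≤ ε4 * N := by
      rw [Psi_eq (rep_KT M hM θ) η hη0]
      have h1 := mul_le_mul_of_nonneg_left v1.le hη0.le
      have h2 := mul_le_mul_of_nonneg_left v2.le hη0.le
      have e1 : η * (ε4 / 3 / η * N) = ε4 / 3 * N := by field_simp
      have e2 : η * ((Real.pi - ε4 / 2) / η * N) = (Real.pi - ε4 / 2) * N := by field_simp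
      rw [e1] at h1
      rw [e2] at h2
      have h3 : 0 ≤ ε4 * N := by positivity
      linarith
    have hw : ∀ q : Fin M × Fin M, 0 ≤ 1 / (M : ℝ) ^ 2 := fun _ => by positivity
    have h1 := count (fun q : Fin M × Fin M =>
      pm (2 * h + 1) (θ q.1) - pm (2 * h + 1) (θ q.2)) (fun _ => 1 / (M : ℝ) ^ 2) hw _
      (KT_rep _ M θ) (fun x => KT_nonneg _ M _ x) (fun x => KT_le _ M hM _ x) η hη0 E1 E2 lam V ψ E
      hE c (lam ^ (-β)) (ε4 * N) hc
      (fun y0 x y hx hy => KT_large (2 * h + 1) M hM θ (lam * Real.sqrt η * (A * M)) (lam ^ (-β))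
        (fun m j => th_le i0 _ A (by positivity) hA M m j) hR0.le hcube y0 x y hx hy) hPsi J hJ
    refine h1.trans (le_of_eq ?_)
    rw [hε4]
    field_simp

end Pool.Agent.Zk60.LL.Glob
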