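import Pool.Agent.Zk60.LL.Tra

/-! # The Fejer type weights -/

set_option autoImplicit false
set_option linter.unusedSectionVars false

open scoped BigOperators Topology
open MeasureTheory Filter

namespace Pool.Agent.Zk60.LL.Ker

open Pool.Agent.W788.MFP.Four (T e NN e_add e_add_left e_zero e_neg e_neg_left e_normSq card_T)
open Pool.Agent.Zk11.QD

variable {d : ℕ}

/-- average of characters -/
noncomputable def kk (L : ℕ) [NeZero L] (M : ℕ) (θ : Fin M → Fin d → ℝ) (x : T d L) : ℂ :=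
  (1 / (M : ℂ)) * ∑ m, e (pm L (θ m)) x

/-- the weight -/
noncomputable def KT (L : ℕ) [NeZero L] (M : ℕ) (θ : Fin M → Fin d → ℝ) (x : T d L) : ℝ :=
  ‖kk L M θ x‖ ^ 2

/-- the weight on the lattice -/
noncomputable def kz (M : ℕ) (θ : Fin M → Fin d → ℝ) (y : Zd d) : ℂ :=
  (1 / (M : ℂ)) * ∑ m, Complex.exp (((∑ j, θ m j * y j : ℝ) : ℂ) * Complex.I)

theorem kk_le (L : ℕ) [NeZero L] (M : ℕ) (hM : 0 < M) (θ : Fin M → Fin d → ℝ) (x : T d L) :
    ‖kk L M θ x‖ ≤ 1 := by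
  have hM0 : (0 : ℝ) < M := by exact_mod_cast hM
  unfold kk
  rw [norm_mul, norm_div, norm_one, Complex.norm_natCast]
  have h1 : ‖∑ m : Fin M, e (pm L (θ m)) x‖ ≤ M := by
    refine (norm_sum_le _ _).trans (le_of_eq ?_)
    simp [e_norm]
  rw [one_div_mul_eq_div, div_le_one hM0]
  exact h1

theorem KT_nonneg (L : ℕ) [NeZero L] (M : ℕ) (θ : Fin M → Fin d → ℝ) (x : T d L) :
    0 ≤ KT L M θ x := by
  unfold KT; positivity

theorem KT_le (L : ℕ) [NeZero L] (M : ℕ) (hM : 0 < M) (θ : Fin M → Fin d → ℝ) (x : T d L) :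
    KT L M θ x ≤ 1 :=
  pow_le_one₀ (norm_nonneg _) (kk_le L M hM θ x)

theorem KT_rep (L : ℕ) [NeZero L] (M : ℕ) (θ : Fin M → Fin d → ℝ) (x : T d L) :
    ((KT L M θ x : ℝ) : ℂ) = ∑ q : Fin M × Fin M, (((1 / (M : ℝ) ^ 2 : ℝ)) : ℂ) *
      e (pm L (θ q.1) - pm L (θ q.2)) x := by
  unfold KT
  rw [← Complex.normSq_eq_norm_sq, ← Complex.mul_conj]
  unfold kk
  rw [map_mul, map_sum, map_div₀, map_one, map_natCast]
  have h1 : ∀ a b : T d L, e (a - b) x = e a x * (starRingEnd ℂ) (e b x) := by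
    intro a b
    rw [sub_eq_add_neg, e_add_left, e_neg_left]
  simp only [h1]
  rw [← Finset.mul_sum, Fintype.sum_prod_type]
  have h2 : (1 / (M : ℂ) * ∑ m, e (pm L (θ m)) x) *
      (1 / (M : ℂ) * ∑ m, (starRingEnd ℂ) (e (pm L (θ m)) x)) =
      (1 / (M : ℂ)) ^ 2 * ((∑ m, e (pm L (θ m)) x) * ∑ m, (starRingEnd ℂ) (e (pm L (θ m)) x)) := by
    ring
  rw [h2, Finset.sum_mul_sum]
  push_cast
  rw [one_div_pow]

theorem kk_lim (M : ℕ) (θ : Fin M → Fin d → ℝ) (y : Zd d) :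
    Tendsto (fun h : ℕ => kk (2 * h + 1) M θ (pr (2 * h + 1) y)) atTop (𝓝 (kz M θ y)) := by
  unfold kk kz
  exact (tendsto_finsetSum _ fun m _ => e_pm_lim (θ m) y).const_mul _

theorem KT_lim (M : ℕ) (θ : Fin M → Fin d → ℝ) (y : Zd d) :
    Tendsto (fun h : ℕ => ((KT (2 * h + 1) M θ (pr (2 * h + 1) y) : ℝ) : ℂ)) atTop
      (𝓝 ((‖kz M θ y‖ ^ 2 : ℝ) : ℂ)) :=
  (Complex.continuous_ofReal.tendsto _).comp ((kk_lim M θ y).norm.pow 2)

theorem kz_le (M : ℕ) (hM : 0 < M) (θ : Fin M → Fin d → ℝ) (y : Zd d) : ‖kz M θ y‖ ≤ 1 :=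
  le_of_tendsto (kk_lim M θ y).norm (Eventually.of_forall fun h => kk_le (2 * h + 1) M hM θ _)

theorem kz_rep (M : ℕ) (θ : Fin M → Fin d → ℝ) (y : Zd d) :
    ((‖kz M θ y‖ ^ 2 : ℝ) : ℂ) = ∑ q : Fin M × Fin M, (((1 / (M : ℝ) ^ 2 : ℝ)) : ℂ) *
      Complex.exp (((∑ j, (θ q.1 j - θ q.2 j) * y j : ℝ) : ℂ) * Complex.I) := by
  rw [← Complex.normSq_eq_norm_sq, ← Complex.mul_conj]
  unfold kz
  rw [map_mul, map_sum, map_div₀, map_one, map_natCast]
  have h1 : ∀ a b : Fin d → ℝ, Complex.exp (((∑ j, (a j - b j) * y j : ℝ) : ℂ) * Complex.I) =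
      Complex.exp (((∑ j, a j * y j : ℝ) : ℂ) * Complex.I) *
        (starRingEnd ℂ) (Complex.exp (((∑ j, b j * y j : ℝ) : ℂ) * Complex.I)) := by
    intro a b
    rw [← Complex.exp_conj, map_mul, Complex.conj_ofReal, Complex.conj_I, ← Complex.exp_add]
    congr 1
    simp only [sub_mul, Finset.sum_sub_distrib]
    push_cast
    ring
  simp only [h1]
  rw [← Finset.mul_sum, Fintype.sum_prod_type]
  have h2 : ∀ S S' : ℂ, (1 / (M : ℂ) * S) * (1 / (M : ℂ) * S') = (1 / (M : ℂ)) ^ 2 * (S * S') := by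
    intro S S'; ring
  rw [h2, Finset.sum_mul_sum]
  push_cast
  rw [one_div_pow]

/-- the weight is large on small cubes -/
theorem KT_large (L : ℕ) [NeZero L] (M : ℕ) (hM : 0 < M) (θ : Fin M → Fin d → ℝ) (B r : ℝ)
    (hθ : ∀ m j, |θ m j| ≤ B) (hr : 0 ≤ r) (hsm : 2 * (d * ((B + 2 * Real.pi / L) * r)) ≤ 1 / 4)
    (y0 x y : T d L) (hx : ∀ i, |((x - y0) i).valMinAbs| ≤ r)
    (hy : ∀ i, |((y - y0) i).valMinAbs| ≤ r) : 1 / 2 ≤ KT L M θ (x - y) := by
  have hM0 : (0 : ℝ) < M := by exact_mod_cast hM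
  have hL0 : 0 < L := Nat.pos_of_ne_zero (NeZero.ne L)
  -- one character
  have h1 : ∀ (m : Fin M) (v : T d L), (∀ i, (|(v i).valMinAbs| : ℝ) ≤ r) →
      ‖1 - e (pm L (θ m)) v‖ ≤ d * ((B + 2 * Real.pi / L) * r) := by
    intro m v hv
    have hv2 : v = pr L (lift v) := (pr_lift v).symm
    rw [hv2, e_pm, norm_sub_rev]
    have h2 : ∀ t : ℝ, ‖Complex.exp ((t : ℂ) * Complex.I) - 1‖ ≤ |t| := by
      intro t
      have := Real.norm_exp_I_mul_ofReal_sub_one_le (x := t)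
      rwa [mul_comm, Real.norm_eq_abs] at this
    refine (h2 _).trans ((Finset.abs_sum_le_sum_abs _ _).trans ?_)
    have h3 : ∀ j : Fin d, |an L (θ m j) * ((lift v j : ℤ) : ℝ)| ≤
        (B + 2 * Real.pi / L) * r := by
      intro j
      rw [abs_mul]
      have h4 := an_close L hL0 (θ m j)
      have h5 : |an L (θ m j)| ≤ B + 2 * Real.pi / L := by
        have h6 : an L (θ m j) = (an L (θ m j) - θ m j) + θ m j := by ring
        rw [h6]
        refine (abs_add_le _ _).trans ?_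
        linarith [hθ m j]
      have h7 : |((lift v j : ℤ) : ℝ)| ≤ r := by
        have := hv j
        exact this
      exact mul_le_mul h5 h7 (abs_nonneg _) ((abs_nonneg _).trans h5)
    refine (Finset.sum_le_sum fun j _ => h3 j).trans (le_of_eq ?_)
    rw [Finset.sum_const, Finset.card_univ, Fintype.card_fin, nsmul_eq_mul]
  have h2 : ∀ m : Fin M, ‖1 - e (pm L (θ m)) (x - y)‖ ≤ 1 / 4 := by
    intro m
    have e1 : x - y = (x - y0) + -(y - y0) := by abel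
    rw [e1, e_add, e_neg]
    set a := e (pm L (θ m)) (x - y0) with ha
    set b := e (pm L (θ m)) (y - y0) with hb
    have na : ‖a‖ = 1 := e_norm _ _
    have nb : ‖b‖ = 1 := e_norm _ _
    have e2 : 1 - a * (starRingEnd ℂ) b = (1 - a) + a * (starRingEnd ℂ) (1 - b) := by
      rw [map_sub, map_one]; ring
    rw [e2]
    refine (norm_add_le _ _).trans ?_
    rw [norm_mul, na, one_mul, RCLike.norm_conj]
    have g1 := h1 m (x - y0) (fun i => by exact_mod_cast hx i)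
    have g2 := h1 m (y - y0) (fun i => by exact_mod_cast hy i)
    linarith
  have h3 : ‖1 - kk L M θ (x - y)‖ ≤ 1 / 4 := by
    have e1 : 1 - kk L M θ (x - y) = (1 / (M : ℂ)) * ∑ m : Fin M, (1 - e (pm L (θ m)) (x - y)) := by
      unfold kk
      rw [Finset.sum_sub_distrib, mul_sub]
      congr 1
      rw [Finset.sum_const, Finset.card_univ, Fintype.card_fin, nsmul_eq_mul, mul_one]
      have : (M : ℂ) ≠ 0 := by exact_mod_cast hM.ne'
      field_simp
    rw [e1, norm_mul, norm_div, norm_one, Complex.norm_natCast, one_div_mul_eq_div,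
      div_le_iff₀ hM0]
    refine (norm_sum_le _ _).trans ((Finset.sum_le_sum fun m _ => h2 m).trans (le_of_eq ?_))
    rw [Finset.sum_const, Finset.card_univ, Fintype.card_fin, nsmul_eq_mul]
    ring
  have h4 : 3 / 4 ≤ ‖kk L M θ (x - y)‖ := by
    have h5 : ‖(1 : ℂ)‖ ≤ ‖1 - kk L M θ (x - y)‖ + ‖kk L M θ (x - y)‖ := by
      have := norm_add_le (1 - kk L M θ (x - y)) (kk L M θ (x - y))
      rwa [sub_add_cancel] at this
    rw [norm_one] at h5
    linarith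
  unfold KT
  nlinarith

end Pool.Agent.Zk60.LL.Ker
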