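import Pool.Agent.Zk60.LL.Prob
import Pool.Agent.Zk60.LL.Ker

/-! # The limit of large tori at fixed energy -/

set_option autoImplicit false
set_option linter.unusedSectionVars false

open scoped BigOperators Topology
open MeasureTheory Filter

namespace Pool.Agent.Zk60.LL.Lim

open Pool.Agent.W788.MFP.Four (T)
open Pool.Agent.Zk11.QD
open Pool.Agent.Zk60.LL.Ker Pool.Agent.Zk60.LL.Prob Pool.Agent.Zk60.LL.Det

variable {d : ℕ}

section
variable (μ : Measure ℝ) [IsProbabilityMeasure μ] (lam : ℝ)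

/-- convergence of `hu` -/
theorem hu_lim (M : ℕ) (hM : 0 < M) (θ : Fin M → Fin d → ℝ) (η u : ℝ) (hη : 0 < η)
    (G : (Zd d → ℝ) → Zd d → ℂ) (hG : ∀ᵐ ω ∂(PZ d μ), IsG lam ω ((u : ℂ) + η * Complex.I) (G ω)) :
    Tendsto (fun h : ℕ => hu μ (KT (d := d) (2 * h + 1) M θ) η lam u) atTop
      (𝓝 ((η : ℂ) * ∑' y : Zd d, ((‖kz M θ y‖ ^ 2 - 1 : ℝ) : ℂ) *
        ((∫ ω, ‖G ω y‖ ^ 2 ∂(PZ d μ) : ℝ) : ℂ)).re) := by
  have hz : 0 < ((u : ℂ) + η * Complex.I).im := by simpa using hη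
  have h1 := Tra.transfer' μ lam _ hz G hG
    (fun h x => ((KT (2 * h + 1) M θ x - 1 : ℝ) : ℂ)) (fun h x => by
      rw [Complex.norm_real, Real.norm_eq_abs, abs_le]
      constructor
      · linarith [KT_nonneg (2 * h + 1) M θ x]
      · linarith [KT_le (2 * h + 1) M hM θ x])
    (fun y => ((‖kz M θ y‖ ^ 2 - 1 : ℝ) : ℂ)) (fun y => by
      have := (KT_lim M θ y).sub_const 1
      simpa using this)
  have h2 := (Complex.continuous_re.tendsto _).comp (h1.const_mul (η : ℂ))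
  refine h2.congr fun h => ?_
  simp only [Function.comp]
  unfold hu
  have e1 : (η : ℂ) * ∑ x, ((KT (2 * h + 1) M θ x - 1 : ℝ) : ℂ) *
      ((∫ V, ‖uu ((u : ℂ) + η * Complex.I) lam V x‖ ^ 2 ∂(PL (T d (2 * h + 1)) μ) : ℝ) : ℂ) =
      ((η * ∑ x, (KT (2 * h + 1) M θ x - 1) *
        ∫ V, ‖uu ((u : ℂ) + η * Complex.I) lam V x‖ ^ 2 ∂(PL (T d (2 * h + 1)) μ) : ℝ) : ℂ) := by
    push_cast
    rfl
  rw [e1, Complex.ofReal_re]

/-- the value of the limit -/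
theorem lim_val (M : ℕ) (θ : Fin M → Fin d → ℝ) (η u : ℝ) (hη : 0 < η)
    (G : (Zd d → ℝ) → Zd d → ℂ) (hG : ∀ᵐ ω ∂(PZ d μ), IsG lam ω ((u : ℂ) + η * Complex.I) (G ω)) :
    (η : ℂ) * ∑' y : Zd d, ((‖kz M θ y‖ ^ 2 - 1 : ℝ) : ℂ) *
        ((∫ ω, ‖G ω y‖ ^ 2 ∂(PZ d μ) : ℝ) : ℂ) =
      (∑ q : Fin M × Fin M, (((1 / (M : ℝ) ^ 2 : ℝ)) : ℂ) * ((η : ℂ) * ∑' y : Zd d,
        Complex.exp (((∑ j, (θ q.1 j - θ q.2 j) * y j : ℝ) : ℂ) * Complex.I) *
          ((∫ ω, ‖G ω y‖ ^ 2 ∂(PZ d μ) : ℝ) : ℂ))) -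
      (η : ℂ) * ∑' y : Zd d, ((∫ ω, ‖G ω y‖ ^ 2 ∂(PZ d μ) : ℝ) : ℂ) := by
  have hz : 0 < ((u : ℂ) + η * Complex.I).im := by simpa using hη
  set a : Zd d → ℝ := fun y => ∫ ω, ‖G ω y‖ ^ 2 ∂(PZ d μ) with ha
  have hs : Summable a := G_summable μ lam _ hz G hG
  have hsc : Summable fun y => ((a y : ℝ) : ℂ) := Complex.ofRealCLM.summable hs
  have hse : ∀ φ : Zd d → ℝ, Summable fun y => Complex.exp (((φ y : ℝ) : ℂ) * Complex.I) *
      ((a y : ℝ) : ℂ) := by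
    intro φ
    refine Summable.of_norm ?_
    refine hsc.norm.congr fun y => ?_
    rw [norm_mul, Complex.norm_exp_ofReal_mul_I, one_mul]
  have h1 : ∀ y : Zd d, ((‖kz M θ y‖ ^ 2 - 1 : ℝ) : ℂ) * ((a y : ℝ) : ℂ) =
      (∑ q : Fin M × Fin M, (((1 / (M : ℝ) ^ 2 : ℝ)) : ℂ) *
        (Complex.exp (((∑ j, (θ q.1 j - θ q.2 j) * y j : ℝ) : ℂ) * Complex.I) *
          ((a y : ℝ) : ℂ))) - ((a y : ℝ) : ℂ) := by
    intro y
    rw [Complex.ofReal_sub, kz_rep, sub_mul, Complex.ofReal_one, one_mul, Finset.sum_mul]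
    congr 1
    exact Finset.sum_congr rfl fun q _ => by ring
  have h2 : ∀ q : Fin M × Fin M, Summable fun y : Zd d => (((1 / (M : ℝ) ^ 2 : ℝ)) : ℂ) *
        (Complex.exp (((∑ j, (θ q.1 j - θ q.2 j) * y j : ℝ) : ℂ) * Complex.I) *
          ((a y : ℝ) : ℂ)) := fun q => (hse _).mul_left _
  rw [tsum_congr h1, (summable_sum fun q _ => h2 q).tsum_sub hsc,
    Summable.tsum_finsetSum fun q _ => h2 q, mul_sub, Finset.mul_sum]
  congr 1
  refine Finset.sum_congr rfl fun q _ => ?_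
  rw [tsum_mul_left]
  ring

/-- `hu` is continuous in the energy -/
theorem hu_cont {L : ℕ} [NeZero L] (K : T d L → ℝ) (η : ℝ) (hη : 0 < η) :
    Continuous (hu μ K η lam) := by
  unfold hu
  refine continuous_const.mul (continuous_finsetSum _ fun x _ => continuous_const.mul ?_)
  refine continuous_of_dominated (bound := fun _ => 1 / η ^ 2) (fun u => ?_) (fun u => ?_)
    (integrable_const _) ?_
  · exact ((uu_meas _ lam x).norm.pow_const 2).aestronglyMeasurable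
  · refine Eventually.of_forall fun V => ?_
    rw [Real.norm_eq_abs, abs_of_nonneg (by positivity)]
    have h1 := uu_le ((u : ℂ) + η * Complex.I) (by simpa using hη) lam V x
    have h2 : ((u : ℂ) + η * Complex.I).im = η := by simp
    rwa [h2] at h1
  · refine Eventually.of_forall fun V => ?_
    have h1 := (RR_cont η hη lam x (0 : T d L)).comp (Continuous.prodMk_left V)
    exact h1.norm.pow 2

theorem hu_bdd {L : ℕ} [NeZero L] (K : T d L → ℝ) (hK0 : ∀ x, 0 ≤ K x) (hK1 : ∀ x, K x ≤ 1)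
    (η : ℝ) (hη : 0 < η) (u : ℝ) : |hu μ K η lam u| ≤ 1 / η := by
  have hz : 0 < ((u : ℂ) + η * Complex.I).im := by simpa using hη
  have hzi : ((u : ℂ) + η * Complex.I).im = η := by simp
  unfold hu
  rw [abs_mul, abs_of_pos hη]
  have hi : ∀ x : T d L, Integrable (fun V : T d L → ℝ => ‖uu ((u : ℂ) + η * Complex.I) lam V x‖ ^ 2)
      (PL (T d L) μ) := by
    intro x
    refine Integrable.mono' (integrable_const (1 / ((u : ℂ) + η * Complex.I).im ^ 2))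
      ((uu_meas _ lam x).norm.pow_const 2).aestronglyMeasurable (Eventually.of_forall fun V => ?_)
    rw [Real.norm_eq_abs, abs_of_nonneg (by positivity)]
    exact uu_le _ hz lam V x
  have h1 : |∑ x, (K x - 1) * ∫ V, ‖uu ((u : ℂ) + η * Complex.I) lam V x‖ ^ 2 ∂(PL (T d L) μ)| ≤
      1 / η ^ 2 := by
    refine (Finset.abs_sum_le_sum_abs _ _).trans ?_
    have h2 : ∀ x : T d L, |(K x - 1) * ∫ V, ‖uu ((u : ℂ) + η * Complex.I) lam V x‖ ^ 2
        ∂(PL (T d L) μ)| ≤ ∫ V, ‖uu ((u : ℂ) + η * Complex.I) lam V x‖ ^ 2 ∂(PL (T d L) μ) := by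
      intro x
      have h3 : 0 ≤ ∫ V, ‖uu ((u : ℂ) + η * Complex.I) lam V x‖ ^ 2 ∂(PL (T d L) μ) :=
        integral_nonneg fun _ => by positivity
      rw [abs_mul, abs_of_nonneg h3]
      have h4 : |K x - 1| ≤ 1 := by
        rw [abs_le]
        constructor
        · linarith [hK0 x]
        · linarith [hK1 x]
      nlinarith
    refine (Finset.sum_le_sum fun x _ => h2 x).trans ?_
    rw [← integral_finsetSum _ fun x _ => hi x]
    have h3 : ∫ V, ∑ x, ‖uu ((u : ℂ) + η * Complex.I) lam V x‖ ^ 2 ∂(PL (T d L) μ) ≤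
        ∫ _V, 1 / η ^ 2 ∂(PL (T d L) μ) := by
      refine integral_mono (integrable_finsetSum _ fun x _ => hi x) (integrable_const _) fun V => ?_
      have := uu_norm ((u : ℂ) + η * Complex.I) hz lam V
      rwa [hzi] at this
    refine h3.trans (le_of_eq ?_)
    simp
  calc η * |∑ x, (K x - 1) * ∫ V, ‖uu ((u : ℂ) + η * Complex.I) lam V x‖ ^ 2 ∂(PL (T d L) μ)|
      ≤ η * (1 / η ^ 2) := mul_le_mul_of_nonneg_left h1 hη.le
    _ = 1 / η := by field_simp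

end

end Pool.Agent.Zk60.LL.Lim
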