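import Pool.Agent.Zk60.LL.Phi

/-! # The values of the limits -/

set_option autoImplicit false
set_option linter.unusedSectionVars false

open scoped BigOperators Topology
open MeasureTheory Filter

namespace Pool.Agent.Zk60.LL.Lv

open Pool.Agent.W788.MFP.Four (T)
open Pool.Agent.Zk11.QD
open Pool.Agent.Zk60.LL.Ker Pool.Agent.Zk60.LL.Prob Pool.Agent.Zk60.LL.Det Pool.Agent.Zk60.LL.Bnd
open Pool.Agent.Zk60.LL.Phi

variable {d : ℕ}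

section
variable (μ : Measure ℝ) [IsProbabilityMeasure μ] (lam : ℝ)

/-- convergence of `hv` for the weights -/
theorem hv_lim_K (M : ℕ) (hM : 0 < M) (θ : Fin M → Fin d → ℝ) (η u : ℝ) (hη : 0 < η)
    (G : (Zd d → ℝ) → Zd d → ℂ) (hG : ∀ᵐ ω ∂(PZ d μ), IsG lam ω ((u : ℂ) + η * Complex.I) (G ω)) :
    Tendsto (fun h : ℕ => hv μ (KT (d := d) (2 * h + 1) M θ) η lam u) atTop
      (𝓝 (∑' y : Zd d, ((‖kz M θ y‖ ^ 2 : ℝ) : ℂ) *
        ((∫ ω, ‖G ω y‖ ^ 2 ∂(PZ d μ) : ℝ) : ℂ)).re) := by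
  have hz : 0 < ((u : ℂ) + η * Complex.I).im := by simpa using hη
  have h1 := Tra.transfer' μ lam _ hz G hG
    (fun h x => ((KT (2 * h + 1) M θ x : ℝ) : ℂ)) (fun h x => by
      rw [Complex.norm_real, Real.norm_eq_abs, abs_of_nonneg (KT_nonneg (2 * h + 1) M θ x)]
      exact KT_le (2 * h + 1) M hM θ x)
    (fun y => ((‖kz M θ y‖ ^ 2 : ℝ) : ℂ)) (fun y => KT_lim M θ y)
  have h2 := (Complex.continuous_re.tendsto _).comp h1
  refine h2.congr fun h => ?_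
  simp only [Function.comp]
  unfold hv
  have e1 : ∑ x, ((KT (2 * h + 1) M θ x : ℝ) : ℂ) *
      ((∫ V, ‖uu ((u : ℂ) + η * Complex.I) lam V x‖ ^ 2 ∂(PL (T d (2 * h + 1)) μ) : ℝ) : ℂ) =
      ((∑ x, (KT (2 * h + 1) M θ x) *
        ∫ V, ‖uu ((u : ℂ) + η * Complex.I) lam V x‖ ^ 2 ∂(PL (T d (2 * h + 1)) μ) : ℝ) : ℂ) := by
    push_cast
    rfl
  rw [e1, Complex.ofReal_re]

theorem hv_lim_1 (η u : ℝ) (hη : 0 < η)
    (G : (Zd d → ℝ) → Zd d → ℂ) (hG : ∀ᵐ ω ∂(PZ d μ), IsG lam ω ((u : ℂ) + η * Complex.I) (G ω)) :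
    Tendsto (fun h : ℕ => hv μ (fun _ : T d (2 * h + 1) => (1 : ℝ)) η lam u) atTop
      (𝓝 (∑' y : Zd d, ((∫ ω, ‖G ω y‖ ^ 2 ∂(PZ d μ) : ℝ) : ℂ)).re) := by
  have hz : 0 < ((u : ℂ) + η * Complex.I).im := by simpa using hη
  have h1 := Tra.transfer' μ lam _ hz G hG
    (fun h x => (1 : ℂ)) (fun h x => by simp) (fun y => (1 : ℂ)) (fun y => tendsto_const_nhds)
  simp only [one_mul] at h1
  have h2 := (Complex.continuous_re.tendsto _).comp h1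
  refine h2.congr fun h => ?_
  simp only [Function.comp]
  unfold hv
  have e1 : ∑ x, ((∫ V, ‖uu ((u : ℂ) + η * Complex.I) lam V x‖ ^ 2
      ∂(PL (T d (2 * h + 1)) μ) : ℝ) : ℂ) =
      ((∑ x, ∫ V, ‖uu ((u : ℂ) + η * Complex.I) lam V x‖ ^ 2 ∂(PL (T d (2 * h + 1)) μ) : ℝ) : ℂ) := by
    push_cast
    rfl
  rw [e1, Complex.ofReal_re]
  simp only [one_mul]

/-- the value of the limit -/
theorem lim_val' (M : ℕ) (θ : Fin M → Fin d → ℝ) (η u : ℝ) (hη : 0 < η)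
    (G : (Zd d → ℝ) → Zd d → ℂ) (hG : ∀ᵐ ω ∂(PZ d μ), IsG lam ω ((u : ℂ) + η * Complex.I) (G ω)) :
    (η : ℂ) * ∑' y : Zd d, ((‖kz M θ y‖ ^ 2 : ℝ) : ℂ) *
        ((∫ ω, ‖G ω y‖ ^ 2 ∂(PZ d μ) : ℝ) : ℂ) =
      (∑ q : Fin M × Fin M, (((1 / (M : ℝ) ^ 2 : ℝ)) : ℂ) * ((η : ℂ) * ∑' y : Zd d,
        Complex.exp (((∑ j, (θ q.1 j - θ q.2 j) * y j : ℝ) : ℂ) * Complex.I) *
          ((∫ ω, ‖G ω y‖ ^ 2 ∂(PZ d μ) : ℝ) : ℂ))) := by
  have hz : 0 < ((u : ℂ) + η * Complex.I).im := by simpa using hη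
  set a : Zd d → ℝ := fun y => ∫ ω, ‖G ω y‖ ^ 2 ∂(PZ d μ) with ha
  have hs : Summable a := G_summable μ lam _ hz G hG
  have hsc : Summable fun y => ((a y : ℝ) : ℂ) := Complex.ofRealCLM.summable hs
  have hse : ∀ φ : Zd d → ℝ, Summable fun y => Complex.exp (((φ y : ℝ) : ℂ) * Complex.I) *
      ((a y : ℝ) : ℂ) := by
    intro φ
    refine Summable.of_norm ?_
    refine hsc.norm.congr fun y => ?_
    rw [norm_mul, Complex.norm_exp_ofReal_mul_I, one_mul]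
  have h1 : ∀ y : Zd d, ((‖kz M θ y‖ ^ 2 : ℝ) : ℂ) * ((a y : ℝ) : ℂ) =
      ∑ q : Fin M × Fin M, (((1 / (M : ℝ) ^ 2 : ℝ)) : ℂ) *
        (Complex.exp (((∑ j, (θ q.1 j - θ q.2 j) * y j : ℝ) : ℂ) * Complex.I) *
          ((a y : ℝ) : ℂ)) := by
    intro y
    rw [kz_rep, Finset.sum_mul]
    exact Finset.sum_congr rfl fun q _ => by ring
  have h2 : ∀ q : Fin M × Fin M, Summable fun y : Zd d => (((1 / (M : ℝ) ^ 2 : ℝ)) : ℂ) *
        (Complex.exp (((∑ j, (θ q.1 j - θ q.2 j) * y j : ℝ) : ℂ) * Complex.I) *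
          ((a y : ℝ) : ℂ)) := fun q => (hse _).mul_left _
  rw [tsum_congr h1, Summable.tsum_finsetSum fun q _ => h2 q, Finset.mul_sum]
  refine Finset.sum_congr rfl fun q _ => ?_
  rw [tsum_mul_left]
  ring

/-- bound for the limit at a fixed energy -/
theorem lim_K (η u : ℝ) (hη : 0 < η)
    (i0 : Fin d) (A : ℝ) (hA : 0 ≤ A) (M : ℕ) (hM : 0 < M) (ε2 Vv D0 : ℝ) (hD0 : 0 < D0)
    (hD : D0 ≤ (h0 d u).im / (4 * (g0 d u).im ^ 2 * Vv)) (hg : 0 ≤ (g0 d u).im)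
    (hq : ∀ P : Fin d → ℝ, (∀ j, |P j| ≤ A * M) → ∀ G : (Zd d → ℝ) → Zd d → ℂ,
        (∀ᵐ ω ∂(PZ d μ), IsG lam ω ((u : ℂ) + η * Complex.I) (G ω)) →
        ‖(η : ℂ) * ∑' y : Zd d, Complex.exp (((∑ j, lam * Real.sqrt η * P j * y j : ℝ) : ℂ) *
          Complex.I) * ((∫ ω, ‖G ω y‖ ^ 2 ∂(PZ d μ) : ℝ) : ℂ) -
          (((g0 d u).im / (1 + (h0 d u).im / (4 * (g0 d u).im ^ 2 * Vv) *
            ∑ j, P j ^ 2) : ℝ) : ℂ)‖ ≤ ε2) :
    ∃ l : ℝ, Tendsto (fun h : ℕ => hv μ (KT (d := d) (2 * h + 1) M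
      (th i0 (lam * Real.sqrt η) A M)) η lam u) atTop (𝓝 l) ∧
      η * l ≤ (g0 d u).im * (1 / M + 1 / (1 + D0 * A ^ 2)) + ε2 := by
  have hz : 0 < ((u : ℂ) + η * Complex.I).im := by simpa using hη
  choose G hG using fun ω : Zd d → ℝ => isG_exists lam ω ((u : ℂ) + η * Complex.I) hz
  have hGae : ∀ᵐ ω ∂(PZ d μ), IsG lam ω ((u : ℂ) + η * Complex.I) (G ω) := Eventually.of_forall hG
  set θ := th i0 (lam * Real.sqrt η) A M with hθ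
  refine ⟨_, hv_lim_K μ lam M hM θ η u hη G hGae, ?_⟩
  rw [← Complex.re_ofReal_mul, lim_val' μ lam M θ η u hη G hGae, Complex.re_sum]
  have hM0 : (0 : ℝ) < M := by exact_mod_cast hM
  set g := (g0 d u).im with hgdef
  set D := (h0 d u).im / (4 * g ^ 2 * Vv) with hDdef
  have h1 : ∀ q : Fin M × Fin M, ((((1 / (M : ℝ) ^ 2 : ℝ)) : ℂ) * ((η : ℂ) * ∑' y : Zd d,
        Complex.exp (((∑ j, (θ q.1 j - θ q.2 j) * y j : ℝ) : ℂ) * Complex.I) *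
          ((∫ ω, ‖G ω y‖ ^ 2 ∂(PZ d μ) : ℝ) : ℂ))).re ≤
      1 / (M : ℝ) ^ 2 * (g / (1 + D * (A ^ 2 * (((q.1 : ℕ) : ℝ) - ((q.2 : ℕ) : ℝ)) ^ 2)) + ε2) := by
    intro q
    rw [Complex.re_ofReal_mul]
    refine mul_le_mul_of_nonneg_left ?_ (by positivity)
    have h2 := hq (PP i0 A M q) (PP_le i0 A hA M q) G hGae
    rw [PP_sq] at h2
    have h3 : ∀ y : Zd d, ∑ j, lam * Real.sqrt η * PP i0 A M q j * (y j : ℝ) =
        ∑ j, (θ q.1 j - θ q.2 j) * (y j : ℝ) := by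
      intro y
      refine Finset.sum_congr rfl fun j _ => ?_
      rw [hθ, th_sub]
    simp only [h3] at h2
    have h4 := (abs_le.1 ((Complex.abs_re_le_norm _).trans h2)).2
    rw [Complex.sub_re, Complex.ofReal_re] at h4
    linarith
  have h3 := pair_sum M hM g D D0 A hg hD0 hD
  have h4 : ∑ q : Fin M × Fin M, 1 / (M : ℝ) ^ 2 *
      (g / (1 + D * (A ^ 2 * (((q.1 : ℕ) : ℝ) - ((q.2 : ℕ) : ℝ)) ^ 2)) + ε2) =
      (∑ q : Fin M × Fin M, 1 / (M : ℝ) ^ 2 *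
      (g / (1 + D * (A ^ 2 * (((q.1 : ℕ) : ℝ) - ((q.2 : ℕ) : ℝ)) ^ 2)))) + ε2 := by
    simp only [mul_add, Finset.sum_add_distrib]
    congr 1
    rw [Finset.sum_const, Finset.card_univ, Fintype.card_prod, Fintype.card_fin, nsmul_eq_mul]
    push_cast
    field_simp
  have h5 := Finset.sum_le_sum fun q (_ : q ∈ (Finset.univ : Finset (Fin M × Fin M))) => h1 q
  rw [h4] at h5
  linarith

theorem lim_1 (η u : ℝ) (hη : 0 < η) (ε2 Vv R : ℝ) (hR : 0 ≤ R)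
    (hq : ∀ P : Fin d → ℝ, (∀ j, |P j| ≤ R) → ∀ G : (Zd d → ℝ) → Zd d → ℂ,
        (∀ᵐ ω ∂(PZ d μ), IsG lam ω ((u : ℂ) + η * Complex.I) (G ω)) →
        ‖(η : ℂ) * ∑' y : Zd d, Complex.exp (((∑ j, lam * Real.sqrt η * P j * y j : ℝ) : ℂ) *
          Complex.I) * ((∫ ω, ‖G ω y‖ ^ 2 ∂(PZ d μ) : ℝ) : ℂ) -
          (((g0 d u).im / (1 + (h0 d u).im / (4 * (g0 d u).im ^ 2 * Vv) *
            ∑ j, P j ^ 2) : ℝ) : ℂ)‖ ≤ ε2) :
    ∃ l : ℝ, Tendsto (fun h : ℕ => hv μ (fun _ : T d (2 * h + 1) => (1 : ℝ)) η lam u) atTop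
      (𝓝 l) ∧ |η * l - (g0 d u).im| ≤ ε2 := by
  have hz : 0 < ((u : ℂ) + η * Complex.I).im := by simpa using hη
  choose G hG using fun ω : Zd d → ℝ => isG_exists lam ω ((u : ℂ) + η * Complex.I) hz
  have hGae : ∀ᵐ ω ∂(PZ d μ), IsG lam ω ((u : ℂ) + η * Complex.I) (G ω) := Eventually.of_forall hG
  refine ⟨_, hv_lim_1 μ lam η u hη G hGae, ?_⟩
  have h3 := hq (fun _ => 0) (fun j => by simpa using hR) G hGae
  simp only [mul_zero, zero_mul, Finset.sum_const_zero, Complex.ofReal_zero, Complex.exp_zero,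
    one_mul, ne_eq, OfNat.ofNat_ne_zero, not_false_eq_true, zero_pow, add_zero, div_one] at h3
  have h4 := (Complex.abs_re_le_norm _).trans h3
  rw [Complex.sub_re, Complex.ofReal_re, Complex.re_ofReal_mul] at h4
  exact h4

end

end Pool.Agent.Zk60.LL.Lv
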