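import Pool.Agent.Zk60.LL.Dif
import Pool.Agent.Zk60.LL.Mcd
import Pool.Agent.Zk60.LL.Fin

/-! # Averages over energies: law of large numbers -/

set_option autoImplicit false
set_option linter.unusedSectionVars false

open scoped BigOperators Topology
open MeasureTheory Filter

namespace Pool.Agent.Zk60.LL.Phi

open Pool.Agent.W788.MFP.Four (T e NN e_add e_zero e_neg e_normSq card_T)
open Pool.Agent.Zk11.QD (Hz HM HM_apply HM_det uu uu_eq uu_norm uu_meas uu_le PL)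
open Pool.Agent.Zk60.LL.Cau Pool.Agent.Zk60.LL.Det Pool.Agent.Zk60.LL.Prob Pool.Agent.Zk60.LL.Dif

/-- weights which are averages of characters -/
structure Rep {d L : ℕ} [NeZero L] (K : T d L → ℝ) : Prop where
  nn : ∀ x, 0 ≤ K x
  le : ∀ x, K x ≤ 1
  ex : ∃ (ι : Type) (_ : Fintype ι) (Q : ι → T d L) (w : ι → ℝ), (∀ q, 0 ≤ w q) ∧
    ∑ q, w q = 1 ∧ ∀ x, ((K x : ℝ) : ℂ) = ∑ q, (w q : ℂ) * e (Q q) x

section
variable {d L : ℕ} [NeZero L]

theorem rep_one : Rep (fun _ : T d L => (1 : ℝ)) := by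
  refine ⟨fun _ => by norm_num, fun _ => le_rfl, Unit, inferInstance, fun _ => 0, fun _ => 1,
    fun _ => by norm_num, by simp, fun x => ?_⟩
  simp [Pool.Agent.W788.MFP.Four.e_comm, Pool.Agent.W788.MFP.Four.e_zero]

theorem rep_KT (M : ℕ) (hM : 0 < M) (θ : Fin M → Fin d → ℝ) : Rep (Ker.KT (d := d) L M θ) := by
  refine ⟨fun x => Ker.KT_nonneg _ M _ x, fun x => Ker.KT_le _ M hM _ x, Fin M × Fin M,
    inferInstance, fun q => Pool.Agent.Zk11.QD.pm L (θ q.1) - Pool.Agent.Zk11.QD.pm L (θ q.2),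
    fun _ => 1 / (M : ℝ) ^ 2, fun _ => by positivity, ?_, Ker.KT_rep L M θ⟩
  have : (M : ℝ) ≠ 0 := by exact_mod_cast hM.ne'
  rw [Finset.sum_const, Finset.card_univ, Fintype.card_prod, Fintype.card_fin, nsmul_eq_mul]
  push_cast
  field_simp

theorem SS_nonneg {K : T d L → ℝ} (hK : Rep K) (z : ℂ) (σ : ℝ) (V : T d L → ℝ) :
    0 ≤ SS K z σ V :=
  Finset.sum_nonneg fun x _ => Finset.sum_nonneg fun y _ => mul_nonneg (hK.nn _) (by positivity)

theorem SS_bdd {K : T d L → ℝ} (hK : Rep K) (z : ℂ) (hz : 0 < z.im) (σ : ℝ) (V : T d L → ℝ) :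
    SS K z σ V ≤ (Fintype.card (T d L) : ℝ) * (1 / z.im ^ 2) := by
  refine (SS_mono (K' := fun _ => 1) hK.le z σ V).trans ?_
  unfold SS
  simp only [one_mul]
  rw [Finset.sum_comm]
  refine (Finset.sum_le_sum fun y _ => col_le z hz σ V y).trans (le_of_eq ?_)
  rw [Finset.sum_const, Finset.card_univ, nsmul_eq_mul]

theorem SS_cont (K : T d L → ℝ) (η : ℝ) (hη : 0 < η) (σ : ℝ) :
    Continuous fun p : ℝ × (T d L → ℝ) => SS K ((p.1 : ℂ) + η * Complex.I) σ p.2 := by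
  unfold SS
  exact continuous_finsetSum _ fun x _ => continuous_finsetSum _ fun y _ =>
    continuous_const.mul ((RR_cont η hη σ x y).norm.pow 2)

theorem SS_diff' {K : T d L → ℝ} (hK : Rep K) (z : ℂ) (hz : 0 < z.im) (σ : ℝ)
    (V : T d L → ℝ) (v : T d L) (s : ℝ) :
    |SS K z σ (Function.update V v s) - SS K z σ V| ≤ 2 * (|σ| * |s - V v|) / z.im ^ 3 := by
  obtain ⟨ι, _, Q, w, h1, h2, h3⟩ := hK.ex
  exact SS_diff Q w h1 h2 K h3 z hz σ V v s

/-- average over energies -/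
noncomputable def Phi (ν : Measure ℝ) (K : T d L → ℝ) (η σ : ℝ) (V : T d L → ℝ) : ℝ :=
  ∫ u, SS K ((u : ℂ) + η * Complex.I) σ V ∂ν

noncomputable def hv (μ : Measure ℝ) (K : T d L → ℝ) (η σ u : ℝ) : ℝ :=
  ∑ x, K x * ∫ V, ‖uu ((u : ℂ) + η * Complex.I) σ V x‖ ^ 2 ∂(PL (T d L) μ)

variable (ν : Measure ℝ) [IsFiniteMeasure ν]

theorem im_eq (η u : ℝ) : ((u : ℂ) + η * Complex.I).im = η := by simp

theorem SS_int {K : T d L → ℝ} (hK : Rep K) (η : ℝ) (hη : 0 < η) (σ : ℝ) (V : T d L → ℝ) :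
    Integrable (fun u : ℝ => SS K ((u : ℂ) + η * Complex.I) σ V) ν := by
  refine Integrable.mono' (integrable_const ((Fintype.card (T d L) : ℝ) * (1 / η ^ 2))) ?_ ?_
  · exact ((SS_cont K η hη σ).comp (Continuous.prodMk_left V)).aestronglyMeasurable
  · refine Eventually.of_forall fun u => ?_
    rw [Real.norm_eq_abs, abs_of_nonneg (SS_nonneg hK _ _ _)]
    have := SS_bdd hK ((u : ℂ) + η * Complex.I) (by simpa using hη) σ V
    rwa [im_eq] at this

theorem Phi_meas (K : T d L → ℝ) (η : ℝ) (hη : 0 < η) (σ : ℝ) : Measurable (Phi ν K η σ) := by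
  unfold Phi
  have h1 : StronglyMeasurable (Function.uncurry fun (u : ℝ) (V : T d L → ℝ) =>
      SS K ((u : ℂ) + η * Complex.I) σ V) := (SS_cont K η hη σ).stronglyMeasurable
  exact (StronglyMeasurable.integral_prod_left h1).measurable

theorem Phi_bdd {K : T d L → ℝ} (hK : Rep K) (η : ℝ) (hη : 0 < η) (σ : ℝ) (V : T d L → ℝ) :
    |Phi ν K η σ V| ≤ (Fintype.card (T d L) : ℝ) * (1 / η ^ 2) * ν.real Set.univ := by
  unfold Phi
  rw [← Real.norm_eq_abs]
  refine norm_integral_le_of_norm_le_const (Eventually.of_forall fun u => ?_)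
  rw [Real.norm_eq_abs, abs_of_nonneg (SS_nonneg hK _ _ _)]
  have := SS_bdd hK ((u : ℂ) + η * Complex.I) (by simpa using hη) σ V
  rwa [im_eq] at this

theorem Phi_diff {K : T d L → ℝ} (hK : Rep K) (η : ℝ) (hη : 0 < η) (σ b : ℝ) (V : T d L → ℝ)
    (v : T d L) (s : ℝ) (hV : ∀ x, |V x| ≤ b) (hs : |s| ≤ b) :
    |Phi ν K η σ V - Phi ν K η σ (Function.update V v s)| ≤
      4 * (|σ| * b) / η ^ 3 * ν.real Set.univ := by
  unfold Phi
  rw [← integral_sub (SS_int ν hK η hη σ V) (SS_int ν hK η hη σ _), ← Real.norm_eq_abs]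
  refine norm_integral_le_of_norm_le_const (Eventually.of_forall fun u => ?_)
  rw [Real.norm_eq_abs, abs_sub_comm]
  have h1 := SS_diff' hK ((u : ℂ) + η * Complex.I) (by simpa using hη) σ V v s
  rw [im_eq] at h1
  refine h1.trans ?_
  apply div_le_div_of_nonneg_right _ (by positivity)
  have h2 : |s - V v| ≤ 2 * b := by
    have := abs_sub s (V v)
    linarith [hV v]
  have h3 := mul_le_mul_of_nonneg_left h2 (abs_nonneg σ)
  linarith

theorem SS_avg (μ : Measure ℝ) [IsProbabilityMeasure μ] (K : T d L → ℝ) (η : ℝ)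
    (hη : 0 < η) (σ u : ℝ) :
    ∫ V, SS K ((u : ℂ) + η * Complex.I) σ V ∂(PL (T d L) μ) =
      (Fintype.card (T d L) : ℝ) * hv μ K η σ u := by
  have hz : 0 < ((u : ℂ) + η * Complex.I).im := by simpa using hη
  unfold SS
  have hi : ∀ x y : T d L, Integrable (fun V : T d L → ℝ =>
      K (x - y) * ‖RR ((u : ℂ) + η * Complex.I) σ V x y‖ ^ 2) (PL (T d L) μ) := by
    intro x y
    refine Integrable.const_mul ?_ _
    refine Integrable.mono' (integrable_const (1 / ((u : ℂ) + η * Complex.I).im ^ 2)) ?_ ?_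
    · have h1 := (RR_cont η hη σ x y).comp (Continuous.prodMk_right u)
      exact (h1.norm.pow 2).aestronglyMeasurable
    · refine Eventually.of_forall fun V => ?_
      rw [Real.norm_eq_abs, abs_of_nonneg (by positivity)]
      exact RR_le _ hz σ V x y
  rw [integral_finsetSum _ fun x _ => integrable_finsetSum _ fun y _ => hi x y]
  have h1 : ∀ x : T d L, ∫ V, ∑ y, K (x - y) * ‖RR ((u : ℂ) + η * Complex.I) σ V x y‖ ^ 2
      ∂(PL (T d L) μ) = ∑ y, K y *
        ∫ V, ‖uu ((u : ℂ) + η * Complex.I) σ V y‖ ^ 2 ∂(PL (T d L) μ) := by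
    intro x
    rw [integral_finsetSum _ fun y _ => hi x y]
    simp only [integral_const_mul, avg_RR μ _ hz]
    exact Equiv.sum_comp (Equiv.subLeft x : T d L ≃ T d L) (fun y => K y *
        ∫ V, ‖uu ((u : ℂ) + η * Complex.I) σ V y‖ ^ 2 ∂(PL (T d L) μ))
  simp only [h1]
  rw [Finset.sum_const, Finset.card_univ, nsmul_eq_mul]
  rfl

theorem Phi_avg (μ : Measure ℝ) [IsProbabilityMeasure μ] {K : T d L → ℝ} (hK : Rep K) (η : ℝ)
    (hη : 0 < η) (σ : ℝ) :
    ∫ V, Phi ν K η σ V ∂(PL (T d L) μ) = (Fintype.card (T d L) : ℝ) * ∫ u, hv μ K η σ u ∂ν := by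
  have hint : Integrable (fun p : ℝ × (T d L → ℝ) => SS K ((p.1 : ℂ) + η * Complex.I) σ p.2)
      (ν.prod (PL (T d L) μ)) := by
    refine Integrable.mono' (integrable_const ((Fintype.card (T d L) : ℝ) * (1 / η ^ 2)))
      (SS_cont K η hη σ).aestronglyMeasurable (Eventually.of_forall fun p => ?_)
    rw [Real.norm_eq_abs, abs_of_nonneg (SS_nonneg hK _ _ _)]
    have := SS_bdd hK ((p.1 : ℂ) + η * Complex.I) (by simpa using hη) σ p.2
    rwa [im_eq] at this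
  have h2 := integral_integral_swap (f := fun (u : ℝ) (V : T d L → ℝ) =>
    SS K ((u : ℂ) + η * Complex.I) σ V) (μ := ν) (ν := PL (T d L) μ) hint
  unfold Phi
  rw [← h2]
  simp only [SS_avg μ K η hη σ]
  rw [integral_const_mul]

theorem hv_nonneg (μ : Measure ℝ) [IsProbabilityMeasure μ] {K : T d L → ℝ} (hK : Rep K)
    (η σ u : ℝ) : 0 ≤ hv μ K η σ u :=
  Finset.sum_nonneg fun x _ => mul_nonneg (hK.nn x) (integral_nonneg fun _ => by positivity)

theorem hv_bdd (μ : Measure ℝ) [IsProbabilityMeasure μ] {K : T d L → ℝ} (hK : Rep K)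
    (η : ℝ) (hη : 0 < η) (σ u : ℝ) : hv μ K η σ u ≤ 1 / η ^ 2 := by
  have hz : 0 < ((u : ℂ) + η * Complex.I).im := by simpa using hη
  have h1 := SS_avg μ K η hη σ u
  have h2 : ∫ V, SS K ((u : ℂ) + η * Complex.I) σ V ∂(PL (T d L) μ) ≤
      ∫ _V, (Fintype.card (T d L) : ℝ) * (1 / η ^ 2) ∂(PL (T d L) μ) := by
    refine integral_mono_of_nonneg (Eventually.of_forall fun V => SS_nonneg hK _ _ _)
      (integrable_const _) (Eventually.of_forall fun V => ?_)
    have := SS_bdd hK ((u : ℂ) + η * Complex.I) hz σ V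
    rwa [im_eq] at this
  rw [h1] at h2
  have hc : (0 : ℝ) < Fintype.card (T d L) := by exact_mod_cast Fintype.card_pos
  rw [integral_const] at h2
  simp only [probReal_univ, smul_eq_mul, one_mul] at h2
  exact le_of_mul_le_mul_left h2 hc

theorem hv_cont (μ : Measure ℝ) [IsProbabilityMeasure μ] (K : T d L → ℝ) (η : ℝ) (hη : 0 < η)
    (σ : ℝ) : Continuous (hv μ K η σ) := by
  unfold hv
  refine continuous_finsetSum _ fun x _ => continuous_const.mul ?_
  refine continuous_of_dominated (bound := fun _ => 1 / η ^ 2) (fun u => ?_) (fun u => ?_)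
    (integrable_const _) ?_
  · exact ((uu_meas _ σ x).norm.pow_const 2).aestronglyMeasurable
  · refine Eventually.of_forall fun V => ?_
    rw [Real.norm_eq_abs, abs_of_nonneg (by positivity)]
    have h1 := uu_le ((u : ℂ) + η * Complex.I) (by simpa using hη) σ V x
    rwa [im_eq] at h1
  · refine Eventually.of_forall fun V => ?_
    have h1 := (RR_cont η hη σ x (0 : T d L)).comp (Continuous.prodMk_left V)
    exact h1.norm.pow 2

end

section
variable {d : ℕ} (ν : Measure ℝ) [IsFiniteMeasure ν] (μ : Measure ℝ) [IsProbabilityMeasure μ]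

theorem hv_dom (K : ∀ h : ℕ, T d (2 * h + 1) → ℝ) (hK : ∀ h, Rep (K h)) (η : ℝ) (hη : 0 < η)
    (σ : ℝ) (l : ℝ → ℝ)
    (hl : ∀ᵐ u ∂ν, Tendsto (fun h => hv μ (K h) η σ u) atTop (𝓝 (l u))) :
    Tendsto (fun h => ∫ u, hv μ (K h) η σ u ∂ν) atTop (𝓝 (∫ u, l u ∂ν)) := by
  refine tendsto_integral_of_dominated_convergence (fun _ => 1 / η ^ 2)
    (fun h => (hv_cont μ (K h) η hη σ).aestronglyMeasurable) (integrable_const _)
    (fun h => Eventually.of_forall fun u => ?_) hl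
  rw [Real.norm_eq_abs, abs_of_nonneg (hv_nonneg μ (hK h) _ _ _)]
  exact hv_bdd μ (hK h) η hη σ u

/-- law of large numbers, upper bound -/
theorem lln_up (b : ℝ) (hb : ∀ᵐ s ∂μ, |s| ≤ b) (K : ∀ h : ℕ, T d (2 * h + 1) → ℝ)
    (hK : ∀ h, Rep (K h)) (η : ℝ) (hη : 0 < η) (σ : ℝ) (l : ℝ → ℝ)
    (hl : ∀ᵐ u ∂ν, Tendsto (fun h => hv μ (K h) η σ u) atTop (𝓝 (l u))) (U : ℝ)
    (hU : ∫ u, l u ∂ν < U) : ∃ a : ℝ, 0 < a ∧ ∀ᶠ h : ℕ in atTop,
      (PL (T d (2 * h + 1)) μ).real {V | U * (Fintype.card (T d (2 * h + 1)) : ℝ) ≤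
        Phi ν (K h) η σ V} ≤ Real.exp (-(a * (Fintype.card (T d (2 * h + 1)) : ℝ))) := by
  have hb0 : 0 ≤ b := by
    obtain ⟨s, hs⟩ := hb.exists
    exact (abs_nonneg s).trans hs
  set t : ℝ := (U - ∫ u, l u ∂ν) / 2 with ht
  have ht0 : 0 < t := by rw [ht]; linarith
  set B : ℝ := 4 * (|σ| * b) / η ^ 3 * ν.real Set.univ + 1 with hB
  have hB0 : 0 < B := by
    have : 0 ≤ 4 * (|σ| * b) / η ^ 3 * ν.real Set.univ := by positivity
    linarith
  refine ⟨t ^ 2 / (8 * B ^ 2), by positivity, ?_⟩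
  have hev := (hv_dom ν μ K hK η hη σ l hl).eventually
    (gt_mem_nhds (show ∫ u, l u ∂ν < U - t by rw [ht]; linarith))
  refine hev.mono fun h hh => ?_
  set N : ℝ := (Fintype.card (T d (2 * h + 1)) : ℝ) with hN
  have hN0 : 0 < N := by rw [hN]; exact_mod_cast Fintype.card_pos
  have h1 := Mcd.mcd_up (T := T d (2 * h + 1)) μ b hb0 hb (Phi ν (K h) η σ)
    (Phi_meas ν (K h) η hη σ) _ B (Phi_bdd ν (hK h) η hη σ) hB0
    (fun V v s hV hs => (Phi_diff ν (hK h) η hη σ b V v s hV hs).trans (by rw [hB]; linarith))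
    (t * N) (by positivity)
  have h2 : (∫ V, Phi ν (K h) η σ V ∂(PL (T d (2 * h + 1)) μ)) + t * N ≤ U * N := by
    rw [Phi_avg ν μ (hK h) η hη σ]
    have := mul_le_mul_of_nonneg_left hh.le hN0.le
    linarith
  have h3 : -((t * N) ^ 2) / (8 * B ^ 2 * N) = -(t ^ 2 / (8 * B ^ 2) * N) := by
    field_simp
  rw [← h3]
  refine le_trans (measureReal_mono ?_ (measure_ne_top _ _)) h1
  intro V hV
  have h4 : U * N ≤ Phi ν (K h) η σ V := hV
  exact h2.trans h4

/-- law of large numbers, lower bound -/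
theorem lln_low (b : ℝ) (hb : ∀ᵐ s ∂μ, |s| ≤ b) (K : ∀ h : ℕ, T d (2 * h + 1) → ℝ)
    (hK : ∀ h, Rep (K h)) (η : ℝ) (hη : 0 < η) (σ : ℝ) (l : ℝ → ℝ)
    (hl : ∀ᵐ u ∂ν, Tendsto (fun h => hv μ (K h) η σ u) atTop (𝓝 (l u))) (U : ℝ)
    (hU : U < ∫ u, l u ∂ν) : ∃ a : ℝ, 0 < a ∧ ∀ᶠ h : ℕ in atTop,
      (PL (T d (2 * h + 1)) μ).real {V | Phi ν (K h) η σ V ≤
        U * (Fintype.card (T d (2 * h + 1)) : ℝ)} ≤
          Real.exp (-(a * (Fintype.card (T d (2 * h + 1)) : ℝ))) := by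
  have hb0 : 0 ≤ b := by
    obtain ⟨s, hs⟩ := hb.exists
    exact (abs_nonneg s).trans hs
  set t : ℝ := ((∫ u, l u ∂ν) - U) / 2 with ht
  have ht0 : 0 < t := by rw [ht]; linarith
  set B : ℝ := 4 * (|σ| * b) / η ^ 3 * ν.real Set.univ + 1 with hB
  have hB0 : 0 < B := by
    have : 0 ≤ 4 * (|σ| * b) / η ^ 3 * ν.real Set.univ := by positivity
    linarith
  refine ⟨t ^ 2 / (8 * B ^ 2), by positivity, ?_⟩
  have hev := (hv_dom ν μ K hK η hη σ l hl).eventually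
    (lt_mem_nhds (show U + t < ∫ u, l u ∂ν by rw [ht]; linarith))
  refine hev.mono fun h hh => ?_
  set N : ℝ := (Fintype.card (T d (2 * h + 1)) : ℝ) with hN
  have hN0 : 0 < N := by rw [hN]; exact_mod_cast Fintype.card_pos
  have h1 := Mcd.mcd_low (T := T d (2 * h + 1)) μ b hb0 hb (Phi ν (K h) η σ)
    (Phi_meas ν (K h) η hη σ) _ B (Phi_bdd ν (hK h) η hη σ) hB0
    (fun V v s hV hs => (Phi_diff ν (hK h) η hη σ b V v s hV hs).trans (by rw [hB]; linarith))
    (t * N) (by positivity)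
  have h2 : U * N ≤ (∫ V, Phi ν (K h) η σ V ∂(PL (T d (2 * h + 1)) μ)) - t * N := by
    rw [Phi_avg ν μ (hK h) η hη σ]
    have := mul_le_mul_of_nonneg_left hh.le hN0.le
    linarith
  have h3 : -((t * N) ^ 2) / (8 * B ^ 2 * N) = -(t ^ 2 / (8 * B ^ 2) * N) := by
    field_simp
  rw [← h3]
  refine le_trans (measureReal_mono ?_ (measure_ne_top _ _)) h1
  intro V hV
  have h4 : Phi ν (K h) η σ V ≤ U * N := hV
  exact h4.trans h2

end

end Pool.Agent.Zk60.LL.Phi
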