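import Pool.Agent.Zk60.LL.Det2

/-! # Averages over the disorder on the torus -/

set_option autoImplicit false
set_option linter.unusedSectionVars false

open scoped BigOperators Topology
open MeasureTheory Filter

namespace Pool.Agent.Zk60.LL.Prob

open Pool.Agent.W788.MFP.Four (T e NN e_add e_zero e_neg e_normSq card_T)
open Pool.Agent.Zk11.QD (Hz HM HM_apply HM_det uu uu_eq uu_norm uu_meas uu_le PL)
open Pool.Agent.Zk60.LL.Cau Pool.Agent.Zk60.LL.Det

variable {d L : ℕ} [NeZero L]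

theorem RR_col (z : ℂ) (hz : 0 < z.im) (σ : ℝ) (V : T d L → ℝ) (x y : T d L) :
    Hz z σ V (fun x => RR z σ V x y) x = if x = y then 1 else 0 := by
  rw [← HM_apply]
  have h1 := Matrix.mul_nonsing_inv (HM z σ V) (isUnit_iff_ne_zero.2 (HM_det z hz σ V))
  have h2 := congrFun (congrFun h1 x) y
  rw [Matrix.mul_apply, Matrix.one_apply] at h2
  exact h2

theorem unique_sol (z : ℂ) (hz : 0 < z.im) (σ : ℝ) (V : T d L → ℝ) (v w : T d L → ℂ)
    (h : ∀ x, Hz z σ V v x = Hz z σ V w x) : v = w := by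
  have h1 : (HM z σ V).mulVec v = (HM z σ V).mulVec w := by
    funext x
    rw [HM_apply, HM_apply, h]
  have hu := isUnit_iff_ne_zero.2 (HM_det z hz σ V)
  have h2 := congrArg ((HM z σ V)⁻¹.mulVec) h1
  rw [Matrix.mulVec_mulVec, Matrix.mulVec_mulVec, Matrix.nonsing_inv_mul _ hu,
    Matrix.one_mulVec, Matrix.one_mulVec] at h2
  exact h2

theorem RR_shift (z : ℂ) (hz : 0 < z.im) (σ : ℝ) (V : T d L → ℝ) (x y : T d L) :
    RR z σ V x y = uu z σ (fun t => V (t + y)) (x - y) := by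
  have h1 : (fun t => RR z σ V (t + y) y) = uu z σ (fun t => V (t + y)) := by
    apply unique_sol z hz σ (fun t => V (t + y))
    intro t
    rw [uu_eq z hz]
    have h2 := RR_col z hz σ V (t + y) y
    have e1 : (if t + y = y then (1 : ℂ) else 0) = if t = 0 then 1 else 0 := by
      congr 1
      rw [eq_iff_iff]
      constructor
      · intro h; simpa using h
      · intro h; rw [h, zero_add]
    rw [e1] at h2
    rw [← h2]
    unfold Hz
    congr 1
    refine Finset.sum_congr rfl fun i _ => ?_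
    simp only
    rw [show t + Pi.single i 1 + y = t + y + Pi.single i 1 by abel,
      show t - Pi.single i 1 + y = t + y - Pi.single i 1 by abel]
  have h3 := congrFun h1 (x - y)
  simp only [sub_add_cancel] at h3
  exact h3

theorem shift_mp (μ : Measure ℝ) [IsProbabilityMeasure μ] (y : T d L) :
    MeasurePreserving (fun (V : T d L → ℝ) (t : T d L) => V (t + y)) (PL (T d L) μ)
      (PL (T d L) μ) := by
  have h := measurePreserving_piCongrLeft (α := fun _ : T d L => ℝ) (fun _ => μ)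
    (Equiv.subRight y : T d L ≃ T d L)
  have e1 : (fun (V : T d L → ℝ) (t : T d L) => V (t + y)) =
      ⇑(MeasurableEquiv.piCongrLeft (fun _ : T d L => ℝ) (Equiv.subRight y)) := by
    funext V t
    have h2 := Equiv.piCongrLeft_apply_apply (P := fun _ : T d L => ℝ)
      (Equiv.subRight y : T d L ≃ T d L) V (t + y)
    rw [Equiv.subRight_apply, add_sub_cancel_right] at h2
    exact h2.symm
  rw [e1]
  exact h

theorem avg_RR (μ : Measure ℝ) [IsProbabilityMeasure μ] (z : ℂ) (hz : 0 < z.im) (σ : ℝ)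
    (x y : T d L) : ∫ V, ‖RR z σ V x y‖ ^ 2 ∂(PL (T d L) μ) =
      ∫ V, ‖uu z σ V (x - y)‖ ^ 2 ∂(PL (T d L) μ) := by
  have h1 : (fun V : T d L → ℝ => ‖RR z σ V x y‖ ^ 2) =
      fun V => (fun W : T d L → ℝ => ‖uu z σ W (x - y)‖ ^ 2) (fun t => V (t + y)) := by
    funext V
    rw [RR_shift z hz]
  rw [h1]
  have hm : AEStronglyMeasurable (fun W : T d L → ℝ => ‖uu z σ W (x - y)‖ ^ 2)
      (Measure.map (fun (V : T d L → ℝ) (t : T d L) => V (t + y)) (PL (T d L) μ)) :=
    ((uu_meas z σ (x - y)).norm.pow_const 2).aestronglyMeasurable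
  rw [← integral_map (shift_mp μ y).measurable.aemeasurable hm, (shift_mp μ y).map_eq]

theorem RR_le (z : ℂ) (hz : 0 < z.im) (σ : ℝ) (V : T d L → ℝ) (x y : T d L) :
    ‖RR z σ V x y‖ ^ 2 ≤ 1 / z.im ^ 2 := by
  rw [RR_shift z hz]
  exact uu_le z hz σ _ _

theorem RR_cont (η : ℝ) (hη : 0 < η) (σ : ℝ) (x y : T d L) :
    Continuous fun p : ℝ × (T d L → ℝ) => RR ((p.1 : ℂ) + η * Complex.I) σ p.2 x y := by
  have hc : Continuous fun p : ℝ × (T d L → ℝ) => HM ((p.1 : ℂ) + η * Complex.I) σ p.2 := by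
    unfold HM
    refine continuous_matrix fun x y => ?_
    simp only [Matrix.of_apply]
    refine Continuous.sub ?_ continuous_const
    split_ifs
    · fun_prop
    · exact continuous_const
  unfold RR
  simp only [Matrix.inv_def, Ring.inverse_eq_inv', Matrix.smul_apply, smul_eq_mul]
  refine Continuous.mul ?_ ?_
  · refine (Continuous.matrix_det hc).inv₀ fun p => ?_
    exact HM_det _ (by simpa using hη) σ p.2
  · exact (continuous_apply_apply x y).comp (Continuous.matrix_adjugate hc)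

/-- the random variable of the bound -/
noncomputable def Psi (K : T d L → ℝ) (η E1 E2 σ : ℝ) (V : T d L → ℝ) : ℝ :=
  (∫ u in Set.Icc E1 E2, η * (SS K ((u : ℂ) + η * Complex.I) σ V -
        SS (fun _ => 1) ((u : ℂ) + η * Complex.I) σ V)) + Real.pi * (Fintype.card (T d L) : ℝ)

theorem SS_sub (K : T d L → ℝ) (z : ℂ) (σ : ℝ) (V : T d L → ℝ) :
    SS K z σ V - SS (fun _ => 1) z σ V = ∑ x, ∑ y, (K (x - y) - 1) * ‖RR z σ V x y‖ ^ 2 := by
  unfold SS
  rw [← Finset.sum_sub_distrib]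
  refine Finset.sum_congr rfl fun x _ => ?_
  rw [← Finset.sum_sub_distrib]
  exact Finset.sum_congr rfl fun y _ => by ring

theorem integrand_cont (K : T d L → ℝ) (η : ℝ) (hη : 0 < η) (σ : ℝ) :
    Continuous fun p : ℝ × (T d L → ℝ) => η * (SS K ((p.1 : ℂ) + η * Complex.I) σ p.2 -
        SS (fun _ => 1) ((p.1 : ℂ) + η * Complex.I) σ p.2) := by
  simp only [SS_sub]
  refine continuous_const.mul (continuous_finsetSum _ fun x _ => continuous_finsetSum _ fun y _ =>
    continuous_const.mul ?_)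
  exact (RR_cont η hη σ x y).norm.pow 2

theorem integrand_bdd (K : T d L → ℝ) (hK0 : ∀ x, 0 ≤ K x) (hK1 : ∀ x, K x ≤ 1) (η : ℝ)
    (hη : 0 < η) (σ u : ℝ) (V : T d L → ℝ) :
    |η * (SS K ((u : ℂ) + η * Complex.I) σ V - SS (fun _ => 1) ((u : ℂ) + η * Complex.I) σ V)| ≤
      η * ((Fintype.card (T d L) : ℝ) * ((Fintype.card (T d L) : ℝ) * (1 / η ^ 2))) := by
  rw [SS_sub, abs_mul, abs_of_pos hη]
  refine mul_le_mul_of_nonneg_left ?_ hη.le
  refine (Finset.abs_sum_le_sum_abs _ _).trans ?_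
  have h1 : ∀ x y : T d L, |(K (x - y) - 1) * ‖RR ((u : ℂ) + η * Complex.I) σ V x y‖ ^ 2| ≤
      1 / η ^ 2 := by
    intro x y
    rw [abs_mul, abs_of_nonneg (by positivity : 0 ≤ ‖RR ((u : ℂ) + η * Complex.I) σ V x y‖ ^ 2)]
    have h2 : |K (x - y) - 1| ≤ 1 := by
      rw [abs_le]
      constructor
      · linarith [hK0 (x - y)]
      · linarith [hK1 (x - y)]
    have h3 := RR_le ((u : ℂ) + η * Complex.I) (by simpa using hη) σ V x y
    have h4 : ((u : ℂ) + η * Complex.I).im = η := by simp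
    rw [h4] at h3
    have h5 : 0 ≤ ‖RR ((u : ℂ) + η * Complex.I) σ V x y‖ ^ 2 := by positivity
    nlinarith
  have h2 : ∀ x : T d L, |∑ y, (K (x - y) - 1) * ‖RR ((u : ℂ) + η * Complex.I) σ V x y‖ ^ 2| ≤
      (Fintype.card (T d L) : ℝ) * (1 / η ^ 2) := by
    intro x
    refine (Finset.abs_sum_le_sum_abs _ _).trans ?_
    refine (Finset.sum_le_sum fun y _ => h1 x y).trans (le_of_eq ?_)
    rw [Finset.sum_const, Finset.card_univ, nsmul_eq_mul]
  refine (Finset.sum_le_sum fun x _ => h2 x).trans (le_of_eq ?_)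
  rw [Finset.sum_const, Finset.card_univ, nsmul_eq_mul]

/-- the limit function -/
noncomputable def hu (μ : Measure ℝ) (K : T d L → ℝ) (η σ u : ℝ) : ℝ :=
  η * ∑ x, (K x - 1) * ∫ V, ‖uu ((u : ℂ) + η * Complex.I) σ V x‖ ^ 2 ∂(PL (T d L) μ)

theorem avg_integrand (μ : Measure ℝ) [IsProbabilityMeasure μ] (K : T d L → ℝ) (η : ℝ)
    (hη : 0 < η) (σ u : ℝ) :
    ∫ V, η * (SS K ((u : ℂ) + η * Complex.I) σ V - SS (fun _ => 1) ((u : ℂ) + η * Complex.I) σ V)
      ∂(PL (T d L) μ) = (Fintype.card (T d L) : ℝ) * hu μ K η σ u := by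
  have hz : 0 < ((u : ℂ) + η * Complex.I).im := by simpa using hη
  simp only [SS_sub]
  have hi : ∀ x y : T d L, Integrable (fun V : T d L → ℝ =>
      (K (x - y) - 1) * ‖RR ((u : ℂ) + η * Complex.I) σ V x y‖ ^ 2) (PL (T d L) μ) := by
    intro x y
    refine Integrable.const_mul ?_ _
    refine Integrable.mono' (integrable_const (1 / ((u : ℂ) + η * Complex.I).im ^ 2)) ?_ ?_
    · have h1 := (RR_cont η hη σ x y).comp (Continuous.prodMk_right u)
      exact (h1.norm.pow 2).aestronglyMeasurable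
    · refine Eventually.of_forall fun V => ?_
      rw [Real.norm_eq_abs, abs_of_nonneg (by positivity)]
      exact RR_le _ hz σ V x y
  rw [integral_const_mul, integral_finsetSum _ fun x _ => integrable_finsetSum _ fun y _ => hi x y]
  have h1 : ∀ x : T d L, ∫ V, ∑ y, (K (x - y) - 1) * ‖RR ((u : ℂ) + η * Complex.I) σ V x y‖ ^ 2
      ∂(PL (T d L) μ) = ∑ y, (K y - 1) *
        ∫ V, ‖uu ((u : ℂ) + η * Complex.I) σ V y‖ ^ 2 ∂(PL (T d L) μ) := by
    intro x
    rw [integral_finsetSum _ fun y _ => hi x y]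
    simp only [integral_const_mul, avg_RR μ _ hz]
    exact Equiv.sum_comp (Equiv.subLeft x : T d L ≃ T d L) (fun y => (K y - 1) *
        ∫ V, ‖uu ((u : ℂ) + η * Complex.I) σ V y‖ ^ 2 ∂(PL (T d L) μ))
  simp only [h1]
  rw [Finset.sum_const, Finset.card_univ, nsmul_eq_mul]
  unfold hu
  ring

theorem avg_Psi (μ : Measure ℝ) [IsProbabilityMeasure μ] (K : T d L → ℝ) (hK0 : ∀ x, 0 ≤ K x)
    (hK1 : ∀ x, K x ≤ 1) (η : ℝ) (hη : 0 < η) (E1 E2 σ : ℝ) :
    Integrable (Psi K η E1 E2 σ) (PL (T d L) μ) ∧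
    ∫ V, Psi K η E1 E2 σ V ∂(PL (T d L) μ) =
      (Fintype.card (T d L) : ℝ) * ((∫ u in Set.Icc E1 E2, hu μ K η σ u) + Real.pi) := by
  have hint : Integrable (fun p : ℝ × (T d L → ℝ) =>
      η * (SS K ((p.1 : ℂ) + η * Complex.I) σ p.2 -
        SS (fun _ => 1) ((p.1 : ℂ) + η * Complex.I) σ p.2))
      ((volume.restrict (Set.Icc E1 E2)).prod (PL (T d L) μ)) := by
    refine Integrable.mono' (integrable_const (η * ((Fintype.card (T d L) : ℝ) *
      ((Fintype.card (T d L) : ℝ) * (1 / η ^ 2))))) (integrand_cont K η hη σ).aestronglyMeasurable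
      (Eventually.of_forall fun p => integrand_bdd K hK0 hK1 η hη σ p.1 p.2)
  have h1 : Integrable (fun V : T d L → ℝ => ∫ u in Set.Icc E1 E2,
      η * (SS K ((u : ℂ) + η * Complex.I) σ V -
        SS (fun _ => 1) ((u : ℂ) + η * Complex.I) σ V)) (PL (T d L) μ) := hint.integral_prod_right
  refine ⟨h1.add (integrable_const _), ?_⟩
  unfold Psi
  rw [integral_add h1 (integrable_const _), integral_const]
  have h2 := integral_integral_swap (f := fun (u : ℝ) (V : T d L → ℝ) =>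
    η * (SS K ((u : ℂ) + η * Complex.I) σ V -
        SS (fun _ => 1) ((u : ℂ) + η * Complex.I) σ V)) (μ := volume.restrict (Set.Icc E1 E2))
    (ν := PL (T d L) μ) hint
  rw [← h2]
  simp only [avg_integrand μ K η hη σ]
  rw [integral_const_mul]
  simp
  ring

end Pool.Agent.Zk60.LL.Prob
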