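import Pool.Agent.Zk60.LL.Det2

/-! # Deterministic part: windows of energies -/

set_option autoImplicit false
set_option linter.unusedSectionVars false

open scoped BigOperators Topology
open MeasureTheory Filter

namespace Pool.Agent.Zk60.LL.Win

open Pool.Agent.W788.MFP.Four (T e NN e_add e_zero e_neg e_normSq card_T)
open Pool.Agent.Zk11.QD (Hz HM HM_apply HM_det)
open Pool.Agent.Zk60.LL.Cau Pool.Agent.Zk60.LL.Det

variable {d L : ℕ} [NeZero L]

/-- the kernel of a function of the operator -/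
noncomputable def MC (ψ : T d L → T d L → ℂ) (r : T d L → ℂ) (x y : T d L) : ℂ :=
  ∑ j, ψ j x * (starRingEnd ℂ) (ψ j y) * r j

/-- its weighted Hilbert-Schmidt norm -/
noncomputable def NK (K : T d L → ℝ) (ψ : T d L → T d L → ℂ) (r : T d L → ℂ) : ℝ :=
  ∑ x, ∑ y, K (x - y) * ‖MC ψ r x y‖ ^ 2

theorem NK_eq (ψ : T d L → T d L → ℂ)
    {ι : Type} [Fintype ι] (Q : ι → T d L) (w : ι → ℝ) (K : T d L → ℝ)
    (hK : ∀ x, ((K x : ℝ) : ℂ) = ∑ q, (w q : ℂ) * e (Q q) x) (r : T d L → ℂ) :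
    NK K ψ r = ∑ j, ∑ k, AA Q w (ψ j) (ψ k) * (r j * (starRingEnd ℂ) (r k)).re := by
  have key : ((NK K ψ r : ℝ) : ℂ) =
      ∑ j, ∑ k, ((AA Q w (ψ j) (ψ k) : ℝ) : ℂ) * (r j * (starRingEnd ℂ) (r k)) := by
    unfold NK
    push_cast
    have h1 : ∀ x y : T d L, ((K (x - y) : ℝ) : ℂ) * ((‖MC ψ r x y‖ : ℝ) : ℂ) ^ 2 =
        ∑ j, ∑ k, (((K (x - y) : ℝ) : ℂ) * ((ψ j x * (starRingEnd ℂ) (ψ k x)) *
          (starRingEnd ℂ) (ψ j y * (starRingEnd ℂ) (ψ k y)))) * (r j * (starRingEnd ℂ) (r k)) := by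
      intro x y
      unfold MC
      rw [← Complex.ofReal_pow, ← Complex.normSq_eq_norm_sq, ← Complex.mul_conj,
        map_sum, Finset.sum_mul_sum, Finset.mul_sum]
      refine Finset.sum_congr rfl fun j _ => ?_
      rw [Finset.mul_sum]
      refine Finset.sum_congr rfl fun k _ => ?_
      simp only [map_mul, Complex.conj_conj]
      ring
    simp only [h1]
    simp only [AA_eq Q w K hK, Finset.sum_mul]
    have h2 : ∀ F : T d L → T d L → T d L → T d L → ℂ,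
        ∑ x, ∑ y, ∑ j, ∑ k, F x y j k = ∑ j, ∑ k, ∑ x, ∑ y, F x y j k := by
      intro F
      have a1 : ∀ x, ∑ y, ∑ j, ∑ k, F x y j k = ∑ j, ∑ k, ∑ y, F x y j k := by
        intro x
        rw [Finset.sum_comm]
        exact Finset.sum_congr rfl fun j _ => Finset.sum_comm
      simp only [a1]
      rw [Finset.sum_comm]
      exact Finset.sum_congr rfl fun j _ => Finset.sum_comm
    exact h2 _
  have h3 := congrArg Complex.re key
  rw [Complex.ofReal_re, Complex.re_sum] at h3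
  rw [h3]
  refine Finset.sum_congr rfl fun j _ => ?_
  rw [Complex.re_sum]
  refine Finset.sum_congr rfl fun k _ => ?_
  rw [Complex.re_ofReal_mul]

theorem NK_one {σ : ℝ} {V : T d L → ℝ} {ψ : T d L → T d L → ℂ} {E : T d L → ℝ} (h : EB σ V ψ E)
    (r : T d L → ℂ) : NK (fun _ => 1) ψ r = ∑ j, ‖r j‖ ^ 2 := by
  rw [NK_eq ψ (fun _ : Unit => (0 : T d L)) (fun _ => 1) (fun _ => 1) (fun x => by
    simp [Pool.Agent.W788.MFP.Four.e_comm, Pool.Agent.W788.MFP.Four.e_zero]) r]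
  refine Finset.sum_congr rfl fun j _ => ?_
  have h1 : ∀ k, AA (fun _ : Unit => (0 : T d L)) (fun _ => 1) (ψ j) (ψ k) =
      if k = j then 1 else 0 := by
    intro k
    unfold AA
    simp only [Finset.univ_unique, Finset.sum_singleton, one_mul,
      Pool.Agent.W788.MFP.Four.e_comm (0 : T d L), Pool.Agent.W788.MFP.Four.e_zero]
    have h2 := h.orth k j
    have h3 : ∑ x, ψ j x * (starRingEnd ℂ) (ψ k x) = if k = j then 1 else 0 := by
      rw [← h2]
      exact Finset.sum_congr rfl fun x _ => mul_comm _ _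
    rw [h3]
    split_ifs <;> simp
  simp only [h1, ite_mul, one_mul, zero_mul]
  rw [Finset.sum_ite_eq']
  simp only [Finset.mem_univ, if_true]
  rw [Complex.mul_conj, Complex.ofReal_re, Complex.normSq_eq_norm_sq]

theorem NK_le_one (K : T d L → ℝ) (hK1 : ∀ x, K x ≤ 1) (ψ : T d L → T d L → ℂ) (r : T d L → ℂ) :
    NK K ψ r ≤ NK (fun _ => 1) ψ r := by
  unfold NK
  refine Finset.sum_le_sum fun x _ => Finset.sum_le_sum fun y _ => ?_
  exact mul_le_mul_of_nonneg_right (hK1 _) (by positivity)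

theorem NK_comb (K : T d L → ℝ) (hK0 : ∀ x, 0 ≤ K x) (ψ : T d L → T d L → ℂ)
    (α β γ : ℂ) (r1 r2 r3 : T d L → ℂ) :
    NK K ψ (fun j => α * r1 j + β * r2 j + γ * r3 j) ≤
      3 * (‖α‖ ^ 2 * NK K ψ r1 + ‖β‖ ^ 2 * NK K ψ r2 + ‖γ‖ ^ 2 * NK K ψ r3) := by
  unfold NK
  simp only [Finset.mul_sum, ← Finset.sum_add_distrib]
  refine Finset.sum_le_sum fun x _ => Finset.sum_le_sum fun y _ => ?_
  have e1 : MC ψ (fun j => α * r1 j + β * r2 j + γ * r3 j) x y =
      α * MC ψ r1 x y + β * MC ψ r2 x y + γ * MC ψ r3 x y := by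
    unfold MC
    simp only [Finset.mul_sum, ← Finset.sum_add_distrib]
    exact Finset.sum_congr rfl fun j _ => by ring
  rw [e1]
  have h1 : ‖α * MC ψ r1 x y + β * MC ψ r2 x y + γ * MC ψ r3 x y‖ ≤
      ‖α‖ * ‖MC ψ r1 x y‖ + ‖β‖ * ‖MC ψ r2 x y‖ + ‖γ‖ * ‖MC ψ r3 x y‖ := by
    refine (norm_add_le _ _).trans (add_le_add ((norm_add_le _ _).trans (le_of_eq ?_)) (le_of_eq ?_))
    · rw [norm_mul, norm_mul]
    · rw [norm_mul]
  have h2 : ‖α * MC ψ r1 x y + β * MC ψ r2 x y + γ * MC ψ r3 x y‖ ^ 2 ≤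
      3 * (‖α‖ ^ 2 * ‖MC ψ r1 x y‖ ^ 2 + ‖β‖ ^ 2 * ‖MC ψ r2 x y‖ ^ 2 +
        ‖γ‖ ^ 2 * ‖MC ψ r3 x y‖ ^ 2) := by
    refine (pow_le_pow_left₀ (norm_nonneg _) h1 2).trans ?_
    nlinarith [sq_nonneg (‖α‖ * ‖MC ψ r1 x y‖ - ‖β‖ * ‖MC ψ r2 x y‖),
      sq_nonneg (‖α‖ * ‖MC ψ r1 x y‖ - ‖γ‖ * ‖MC ψ r3 x y‖),
      sq_nonneg (‖β‖ * ‖MC ψ r2 x y‖ - ‖γ‖ * ‖MC ψ r3 x y‖)]
  refine (mul_le_mul_of_nonneg_left h2 (hK0 (x - y))).trans (le_of_eq ?_)
  ring

/-- the resolvent coefficients -/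
noncomputable def rz (E : T d L → ℝ) (z : ℂ) (j : T d L) : ℂ := ((E j : ℂ) - z)⁻¹

theorem SS_NK {σ : ℝ} {V : T d L → ℝ} {ψ : T d L → T d L → ℂ} {E : T d L → ℝ} (h : EB σ V ψ E)
    (K : T d L → ℝ) (z : ℂ) (hz : 0 < z.im) : SS K z σ V = NK K ψ (rz E z) := by
  unfold SS NK MC rz
  refine Finset.sum_congr rfl fun x _ => Finset.sum_congr rfl fun y _ => ?_
  rw [RR_eq h z hz x y]

/-- the window function -/
noncomputable def ff (E0 w a : ℝ) : ℝ := w ^ 2 / ((a - E0) ^ 2 + w ^ 2)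

theorem ff_nonneg (E0 w a : ℝ) : 0 ≤ ff E0 w a := by unfold ff; positivity

theorem ff_half (E0 w a : ℝ) (hw : 0 < w) (ha : |a - E0| ≤ w) : 1 / 4 ≤ ff E0 w a ^ 2 := by
  have h1 : (a - E0) ^ 2 ≤ w ^ 2 := by
    have := pow_le_pow_left₀ (abs_nonneg _) ha 2
    rwa [sq_abs] at this
  have h2 : 1 / 2 ≤ ff E0 w a := by
    unfold ff
    rw [le_div_iff₀ (by positivity)]
    linarith
  nlinarith

theorem part_frac (E0 w a u η : ℝ) (hw : 0 < w) (hη : 0 < η) (hηw : η < w) :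
    ((ff E0 w a : ℝ) : ℂ) * ((a : ℂ) - ((u : ℂ) + η * Complex.I))⁻¹ =
      ((w : ℂ) ^ 2 / ((((u : ℂ) + η * Complex.I) - ((E0 : ℂ) + w * Complex.I)) *
        (((u : ℂ) + η * Complex.I) - ((E0 : ℂ) - w * Complex.I)))) *
          ((a : ℂ) - ((u : ℂ) + η * Complex.I))⁻¹ +
      ((w : ℂ) ^ 2 / ((((E0 : ℂ) + w * Complex.I) - ((u : ℂ) + η * Complex.I)) *
        (2 * w * Complex.I))) * ((a : ℂ) - ((E0 : ℂ) + w * Complex.I))⁻¹ +
      (-(w : ℂ) ^ 2 / ((((E0 : ℂ) - w * Complex.I) - ((u : ℂ) + η * Complex.I)) *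
        (2 * w * Complex.I))) * ((a : ℂ) - ((E0 : ℂ) - w * Complex.I))⁻¹ := by
  have n1 : (a : ℂ) - ((u : ℂ) + η * Complex.I) ≠ 0 := by
    intro h
    have := congrArg Complex.im h
    simp at this
    exact hη.ne' this
  have n2 : (a : ℂ) - ((E0 : ℂ) + w * Complex.I) ≠ 0 := by
    intro h
    have := congrArg Complex.im h
    simp at this
    exact hw.ne' this
  have n3 : (a : ℂ) - ((E0 : ℂ) - w * Complex.I) ≠ 0 := by
    intro h
    have := congrArg Complex.im h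
    simp at this
    exact hw.ne' this
  have n4 : ((u : ℂ) + η * Complex.I) - ((E0 : ℂ) + w * Complex.I) ≠ 0 := by
    intro h
    have := congrArg Complex.im h
    simp at this
    linarith
  have n5 : ((u : ℂ) + η * Complex.I) - ((E0 : ℂ) - w * Complex.I) ≠ 0 := by
    intro h
    have := congrArg Complex.im h
    simp at this
    linarith
  have n4' : ((E0 : ℂ) + w * Complex.I) - ((u : ℂ) + η * Complex.I) ≠ 0 := by
    intro h; apply n4; linear_combination -h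
  have n5' : ((E0 : ℂ) - w * Complex.I) - ((u : ℂ) + η * Complex.I) ≠ 0 := by
    intro h; apply n5; linear_combination -h
  have n6 : (w : ℂ) ≠ 0 := by exact_mod_cast hw.ne'
  have e1 : ((ff E0 w a : ℝ) : ℂ) = (w : ℂ) ^ 2 * (((a : ℂ) - ((E0 : ℂ) + w * Complex.I))⁻¹ *
      ((a : ℂ) - ((E0 : ℂ) - w * Complex.I))⁻¹) := by
    unfold ff
    rw [← mul_inv]
    push_cast
    rw [div_eq_mul_inv]
    congr 2
    linear_combination ((w : ℂ) ^ 2) * Complex.I_sq
  rw [e1]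
  set ζ : ℂ := (E0 : ℂ) + w * Complex.I with hζ
  set ζ' : ℂ := (E0 : ℂ) - w * Complex.I with hζ'
  set z : ℂ := (u : ℂ) + η * Complex.I with hz
  have e2 : (2 * w * Complex.I : ℂ) = ζ - ζ' := by rw [hζ, hζ']; ring
  have n7 : ζ - ζ' ≠ 0 := by
    rw [← e2]
    simp [n6, Complex.I_ne_zero]
  rw [e2]
  field_simp
  ring

/-- the weight in the energy -/
noncomputable def ro (E0 w u : ℝ) : ℝ := 4 * w ^ 2 / ((u - E0) ^ 2 + w ^ 2 / 4)

theorem ro_nonneg (E0 w u : ℝ) : 0 ≤ ro E0 w u := by unfold ro; positivity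

theorem ro_le (E0 w u : ℝ) (hw : 0 < w) : ro E0 w u ≤ 16 := by
  unfold ro
  rw [div_le_iff₀ (by positivity)]
  nlinarith [sq_nonneg (u - E0)]

theorem ro_far (E0 w u r : ℝ) (hr : 0 < r) (hu : r ≤ |u - E0|) : ro E0 w u ≤ 4 * w ^ 2 / r ^ 2 := by
  unfold ro
  apply div_le_div_of_nonneg_left (by positivity) (by positivity)
  have := pow_le_pow_left₀ hr.le hu 2
  rw [sq_abs] at this
  nlinarith [sq_nonneg w]

theorem ro_eq (E0 w u : ℝ) : ro E0 w u = 4 * w ^ 2 * (1 / ((E0 - u) ^ 2 + (w / 2) ^ 2)) := by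
  unfold ro
  rw [mul_one_div]
  congr 1
  ring

theorem ro_cont (E0 w : ℝ) (hw : 0 < w) : Continuous (ro E0 w) := by
  unfold ro
  exact Continuous.div (by fun_prop) (by fun_prop) fun u => by positivity

theorem ro_int (E0 w : ℝ) (hw : 0 < w) : Integrable (ro E0 w) := by
  have : ro E0 w = fun u => 4 * w ^ 2 * (1 / ((E0 - u) ^ 2 + (w / 2) ^ 2)) := by
    funext u; exact ro_eq E0 w u
  rw [this]
  exact (cau_int (w / 2) E0 (by positivity)).const_mul _

theorem ro_val (E0 w : ℝ) (hw : 0 < w) : ∫ u, ro E0 w u = 8 * Real.pi * w := by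
  have : ro E0 w = fun u => 4 * w ^ 2 * fc (w / 2) E0 E0 u := by
    funext u
    rw [ro_eq, fc_self (w / 2) E0 u (by positivity)]
  rw [this, integral_const_mul, fc_diag (w / 2) E0 (by positivity)]
  field_simp
  ring

/-- the pointwise bound -/
theorem win_point {σ : ℝ} {V : T d L → ℝ} {ψ : T d L → T d L → ℂ} {E : T d L → ℝ}
    (h : EB σ V ψ E) {ι : Type} [Fintype ι] (Q : ι → T d L) (wt : ι → ℝ)
    (K : T d L → ℝ) (hK : ∀ x, ((K x : ℝ) : ℂ) = ∑ q, (wt q : ℂ) * e (Q q) x)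
    (hK0 : ∀ x, 0 ≤ K x) (hK1 : ∀ x, K x ≤ 1) (η w E0 u : ℝ) (hη : 0 < η) (hw : 0 < w)
    (hηw : η ≤ w / 2) :
    ∑ j, ∑ k, AA Q wt (ψ j) (ψ k) * (ff E0 w (E j) * ff E0 w (E k) * fc η (E j) (E k) u) ≤
      3 * (ro E0 w u * SS K ((u : ℂ) + η * Complex.I) σ V) +
        3 / 8 * (ro E0 w u * SS (fun _ => 1) ((E0 : ℂ) + w * Complex.I) σ V) := by
  set z : ℂ := (u : ℂ) + η * Complex.I with hz
  set ζ : ℂ := (E0 : ℂ) + w * Complex.I with hζ
  set ζ' : ℂ := (E0 : ℂ) - w * Complex.I with hζ'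
  have hzim : 0 < z.im := by rw [hz]; simpa using hη
  have hζim : 0 < ζ.im := by rw [hζ]; simpa using hw
  set α : ℂ := (w : ℂ) ^ 2 / ((z - ζ) * (z - ζ')) with hα
  set β : ℂ := (w : ℂ) ^ 2 / ((ζ - z) * (2 * w * Complex.I)) with hβ
  set γ : ℂ := -(w : ℂ) ^ 2 / ((ζ' - z) * (2 * w * Complex.I)) with hγ
  have h1 : NK K ψ (fun j => ((ff E0 w (E j) : ℝ) : ℂ) * rz E z j) ≤
      3 * (‖α‖ ^ 2 * NK K ψ (rz E z) + ‖β‖ ^ 2 * NK K ψ (rz E ζ) +
        ‖γ‖ ^ 2 * NK K ψ (rz E ζ')) := by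
    have e1 : (fun j => ((ff E0 w (E j) : ℝ) : ℂ) * rz E z j) =
        fun j => α * rz E z j + β * rz E ζ j + γ * rz E ζ' j := by
      funext j
      exact part_frac E0 w (E j) u η hw hη (by linarith)
    rw [e1]
    exact NK_comb K hK0 ψ α β γ _ _ _
  have h2 : NK K ψ (fun j => ((ff E0 w (E j) : ℝ) : ℂ) * rz E z j) =
      ∑ j, ∑ k, AA Q wt (ψ j) (ψ k) * (ff E0 w (E j) * ff E0 w (E k) * fc η (E j) (E k) u) := by
    rw [NK_eq ψ Q wt K hK]
    refine Finset.sum_congr rfl fun j _ => Finset.sum_congr rfl fun k _ => ?_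
    congr 1
    have e1 : ((ff E0 w (E j) : ℝ) : ℂ) * rz E z j *
        (starRingEnd ℂ) (((ff E0 w (E k) : ℝ) : ℂ) * rz E z k) =
        ((ff E0 w (E j) * ff E0 w (E k) : ℝ) : ℂ) * (rz E z j * (starRingEnd ℂ) (rz E z k)) := by
      rw [map_mul, Complex.conj_ofReal]
      push_cast
      ring
    rw [e1, Complex.re_ofReal_mul]
    congr 1
    exact re_fc η (E j) (E k) u hη
  rw [h2] at h1
  refine h1.trans ?_
  -- the norms of the coefficients
  have nz1 : ‖z - ζ‖ ^ 2 = (u - E0) ^ 2 + (w - η) ^ 2 := by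
    rw [← Complex.normSq_eq_norm_sq, Complex.normSq_apply]
    simp [hz, hζ]
    ring
  have nz2 : ‖z - ζ'‖ ^ 2 = (u - E0) ^ 2 + (w + η) ^ 2 := by
    rw [← Complex.normSq_eq_norm_sq, Complex.normSq_apply]
    simp [hz, hζ']
    ring
  have nw : ‖(w : ℂ)‖ = w := by rw [Complex.norm_real, Real.norm_eq_abs, abs_of_pos hw]
  have b1 : (u - E0) ^ 2 + w ^ 2 / 4 ≤ (u - E0) ^ 2 + (w - η) ^ 2 := by nlinarith
  have b2 : (u - E0) ^ 2 + w ^ 2 / 4 ≤ (u - E0) ^ 2 + (w + η) ^ 2 := by nlinarith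
  have b3 : w ^ 2 / 4 ≤ (u - E0) ^ 2 + (w + η) ^ 2 := by nlinarith [sq_nonneg (u - E0)]
  have p0 : 0 < (u - E0) ^ 2 + w ^ 2 / 4 := by positivity
  have hρ : ro E0 w u = 4 * w ^ 2 / ((u - E0) ^ 2 + w ^ 2 / 4) := rfl
  have c1 : ‖α‖ ^ 2 ≤ ro E0 w u := by
    rw [hα, norm_div, norm_mul, norm_pow, nw, div_pow, mul_pow, nz1, nz2, hρ]
    have e1 : 4 * w ^ 2 / ((u - E0) ^ 2 + w ^ 2 / 4) =
        (w ^ 2) ^ 2 / (((u - E0) ^ 2 + w ^ 2 / 4) * (w ^ 2 / 4)) := by
      field_simp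
    rw [e1]
    apply div_le_div_of_nonneg_left (by positivity) (by positivity)
    exact mul_le_mul b1 b3 (by positivity) (by positivity)
  have n2w : ‖(2 * w * Complex.I : ℂ)‖ = 2 * w := by
    rw [norm_mul, norm_mul, nw, Complex.norm_I]
    simp
  have c2 : ‖β‖ ^ 2 ≤ ro E0 w u / 16 := by
    rw [hβ, norm_div, norm_mul, norm_pow, nw, n2w, norm_sub_rev, div_pow, mul_pow, nz1, hρ]
    have e1 : 4 * w ^ 2 / ((u - E0) ^ 2 + w ^ 2 / 4) / 16 =
        (w ^ 2) ^ 2 / (((u - E0) ^ 2 + w ^ 2 / 4) * (2 * w) ^ 2) := by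
      field_simp
      ring
    rw [e1]
    apply div_le_div_of_nonneg_left (by positivity) (by positivity)
    exact mul_le_mul_of_nonneg_right b1 (by positivity)
  have c3 : ‖γ‖ ^ 2 ≤ ro E0 w u / 16 := by
    rw [hγ, norm_div, norm_mul, norm_neg, norm_pow, nw, n2w, norm_sub_rev, div_pow, mul_pow, nz2,
      hρ]
    have e1 : 4 * w ^ 2 / ((u - E0) ^ 2 + w ^ 2 / 4) / 16 =
        (w ^ 2) ^ 2 / (((u - E0) ^ 2 + w ^ 2 / 4) * (2 * w) ^ 2) := by
      field_simp
      ring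
    rw [e1]
    apply div_le_div_of_nonneg_left (by positivity) (by positivity)
    exact mul_le_mul_of_nonneg_right b2 (by positivity)
  -- the norms at the other points
  have d1 : NK K ψ (rz E z) = SS K z σ V := (SS_NK h K z hzim).symm
  have d2 : NK K ψ (rz E ζ) ≤ SS (fun _ => 1) ζ σ V := by
    rw [SS_NK h _ ζ hζim]
    exact NK_le_one K hK1 ψ _
  have d3 : NK K ψ (rz E ζ') ≤ SS (fun _ => 1) ζ σ V := by
    refine (NK_le_one K hK1 ψ _).trans (le_of_eq ?_)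
    rw [SS_NK h _ ζ hζim, NK_one h, NK_one h]
    refine Finset.sum_congr rfl fun j _ => ?_
    unfold rz
    rw [norm_inv, norm_inv]
    congr 2
    have e1 : ((E j : ℂ) - ζ') = (starRingEnd ℂ) ((E j : ℂ) - ζ) := by
      rw [hζ, hζ', map_sub, map_add, map_mul, Complex.conj_ofReal, Complex.conj_ofReal,
        Complex.conj_ofReal, Complex.conj_I]
      ring
    rw [e1, RCLike.norm_conj]
  have hS0 : 0 ≤ SS (fun _ => 1) ζ σ V := by
    unfold SS
    exact Finset.sum_nonneg fun x _ => Finset.sum_nonneg fun y _ => by positivity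
  have hSK0 : 0 ≤ SS K z σ V := by
    unfold SS
    exact Finset.sum_nonneg fun x _ => Finset.sum_nonneg fun y _ =>
      mul_nonneg (hK0 _) (by positivity)
  have hN3 : 0 ≤ NK K ψ (rz E ζ') := Finset.sum_nonneg fun x _ => Finset.sum_nonneg fun y _ =>
      mul_nonneg (hK0 _) (by positivity)
  have hN2 : 0 ≤ NK K ψ (rz E ζ) := Finset.sum_nonneg fun x _ => Finset.sum_nonneg fun y _ =>
      mul_nonneg (hK0 _) (by positivity)
  have f1 : ‖α‖ ^ 2 * NK K ψ (rz E z) ≤ ro E0 w u * SS K z σ V := by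
    rw [d1]; exact mul_le_mul_of_nonneg_right c1 hSK0
  have hr16 : 0 ≤ ro E0 w u / 16 := by
    have := ro_nonneg E0 w u
    positivity
  have f2 : ‖β‖ ^ 2 * NK K ψ (rz E ζ) ≤ ro E0 w u / 16 * SS (fun _ => 1) ζ σ V :=
    mul_le_mul c2 d2 hN2 hr16
  have f3 : ‖γ‖ ^ 2 * NK K ψ (rz E ζ') ≤ ro E0 w u / 16 * SS (fun _ => 1) ζ σ V :=
    mul_le_mul c3 d3 hN3 hr16
  linarith

/-- the bound in a window -/
theorem win_bound {σ : ℝ} {V : T d L → ℝ} {ψ : T d L → T d L → ℂ} {E : T d L → ℝ}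
    (h : EB σ V ψ E) {ι : Type} [Fintype ι] (Q : ι → T d L) (wt : ι → ℝ) (hwt : ∀ q, 0 ≤ wt q)
    (K : T d L → ℝ) (hK : ∀ x, ((K x : ℝ) : ℂ) = ∑ q, (wt q : ℂ) * e (Q q) x)
    (hK0 : ∀ x, 0 ≤ K x) (hK1 : ∀ x, K x ≤ 1) (η w E0 : ℝ) (hη : 0 < η) (hw : 0 < w)
    (hηw : η ≤ w / 2) (E1 E2 r : ℝ) (hr : 0 < r) (h1r : E1 + r ≤ E0) (h2r : E0 + r ≤ E2) :
    Real.pi * ∑ j, AA Q wt (ψ j) (ψ j) * ff E0 w (E j) ^ 2 ≤
      3 * (η * ∫ u in Set.Icc E1 E2, ro E0 w u * SS K ((u : ℂ) + η * Complex.I) σ V) +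
        3 * Real.pi * η * (w * SS (fun _ => 1) ((E0 : ℂ) + w * Complex.I) σ V) +
        12 * Real.pi * w ^ 2 / r ^ 2 * (Fintype.card (T d L) : ℝ) := by
  have hpi := Real.pi_pos
  set S1 : ℝ := SS (fun _ => 1) ((E0 : ℂ) + w * Complex.I) σ V with hS1
  set SK : ℝ → ℝ := fun u => SS K ((u : ℂ) + η * Complex.I) σ V with hSK
  set SO : ℝ → ℝ := fun u => SS (fun _ => 1) ((u : ℂ) + η * Complex.I) σ V with hSO
  have eK : SK = fun u => ∑ j, ∑ k, AA Q wt (ψ j) (ψ k) * fc η (E j) (E k) u := by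
    funext u
    exact SS_eq h Q wt K hK η u hη
  have eO : SO = fun u => ∑ j, fc η (E j) (E j) u := by
    funext u
    exact SS_one h η u hη
  have iK : Integrable SK := by
    rw [eK]
    exact integrable_finsetSum _ fun j _ => integrable_finsetSum _ fun k _ =>
      (fc_int η (E j) (E k) hη).const_mul _
  have iO : Integrable SO := by
    rw [eO]
    exact integrable_finsetSum _ fun j _ => fc_int η (E j) (E j) hη
  have hSK0 : ∀ u, 0 ≤ SK u := fun u => Finset.sum_nonneg fun x _ => Finset.sum_nonneg fun y _ =>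
      mul_nonneg (hK0 _) (by positivity)
  have hSKO : ∀ u, SK u ≤ SO u := fun u => SS_mono hK1 _ σ V
  have iro : Integrable fun u => ro E0 w u * SK u := by
    refine (iK.const_mul 16).mono' ?_ ?_
    · exact (ro_cont E0 w hw).aestronglyMeasurable.mul iK.aestronglyMeasurable
    · refine Eventually.of_forall fun u => ?_
      rw [Real.norm_eq_abs, abs_of_nonneg (mul_nonneg (ro_nonneg _ _ _) (hSK0 u))]
      exact mul_le_mul_of_nonneg_right (ro_le E0 w u hw) (hSK0 u)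
  -- the left side
  have hterm : ∀ j k, Integrable fun u => AA Q wt (ψ j) (ψ k) *
      (ff E0 w (E j) * ff E0 w (E k) * fc η (E j) (E k) u) := fun j k =>
    ((fc_int η (E j) (E k) hη).const_mul _).const_mul _
  have left : Real.pi * ∑ j, AA Q wt (ψ j) (ψ j) * ff E0 w (E j) ^ 2 ≤
      η * ∫ u, ∑ j, ∑ k, AA Q wt (ψ j) (ψ k) *
        (ff E0 w (E j) * ff E0 w (E k) * fc η (E j) (E k) u) := by
    rw [integral_finsetSum _ fun j _ => integrable_finsetSum _ fun k _ => hterm j k,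
      Finset.mul_sum, Finset.mul_sum]
    refine Finset.sum_le_sum fun j _ => ?_
    rw [integral_finsetSum _ fun k _ => hterm j k]
    have h1 : AA Q wt (ψ j) (ψ j) * (ff E0 w (E j) * ff E0 w (E j) * (Real.pi / η)) ≤
        ∑ k, ∫ u, AA Q wt (ψ j) (ψ k) *
          (ff E0 w (E j) * ff E0 w (E k) * fc η (E j) (E k) u) := by
      have h2 : ∀ k ∈ (Finset.univ : Finset (T d L)),
          0 ≤ ∫ u, AA Q wt (ψ j) (ψ k) *
            (ff E0 w (E j) * ff E0 w (E k) * fc η (E j) (E k) u) := by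
        intro k _
        rw [integral_const_mul, integral_const_mul]
        exact mul_nonneg (AA_nonneg Q wt hwt _ _) (mul_nonneg
          (mul_nonneg (ff_nonneg _ _ _) (ff_nonneg _ _ _)) (fc_nonneg_int η _ _ hη))
      have h3 := Finset.single_le_sum h2 (Finset.mem_univ j)
      rw [integral_const_mul, integral_const_mul, fc_diag η (E j) hη] at h3
      exact h3
    calc Real.pi * (AA Q wt (ψ j) (ψ j) * ff E0 w (E j) ^ 2) =
          η * (AA Q wt (ψ j) (ψ j) * (ff E0 w (E j) * ff E0 w (E j) * (Real.pi / η))) := by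
          field_simp
      _ ≤ _ := mul_le_mul_of_nonneg_left h1 hη.le
  refine left.trans ?_
  have mid : ∫ u, ∑ j, ∑ k, AA Q wt (ψ j) (ψ k) *
        (ff E0 w (E j) * ff E0 w (E k) * fc η (E j) (E k) u) ≤
      3 * (∫ u, ro E0 w u * SK u) + 3 / 8 * (8 * Real.pi * w * S1) := by
    have h1 : ∫ u, ∑ j, ∑ k, AA Q wt (ψ j) (ψ k) *
        (ff E0 w (E j) * ff E0 w (E k) * fc η (E j) (E k) u) ≤
        ∫ u, (3 * (ro E0 w u * SK u) + 3 / 8 * (ro E0 w u * S1)) := by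
      refine integral_mono (integrable_finsetSum _ fun j _ => integrable_finsetSum _ fun k _ =>
        hterm j k) ((iro.const_mul 3).add (((ro_int E0 w hw).mul_const S1).const_mul (3 / 8)))
        fun u => ?_
      exact win_point h Q wt K hK hK0 hK1 η w E0 u hη hw hηw
    refine h1.trans (le_of_eq ?_)
    rw [integral_add (iro.const_mul 3) (((ro_int E0 w hw).mul_const S1).const_mul (3 / 8)),
      integral_const_mul, integral_const_mul, integral_mul_const, ro_val E0 w hw]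
  have split := integral_add_compl (f := fun u => ro E0 w u * SK u)
    (measurableSet_Icc (a := E1) (b := E2)) iro
  have outside : ∫ u in (Set.Icc E1 E2)ᶜ, ro E0 w u * SK u ≤
      4 * w ^ 2 / r ^ 2 * (Real.pi / η * (Fintype.card (T d L) : ℝ)) := by
    have h1 : ∫ u in (Set.Icc E1 E2)ᶜ, ro E0 w u * SK u ≤
        ∫ u in (Set.Icc E1 E2)ᶜ, 4 * w ^ 2 / r ^ 2 * SO u := by
      refine setIntegral_mono_on iro.integrableOn (iO.const_mul _).integrableOn
        measurableSet_Icc.compl fun u hu => ?_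
      have h2 : r ≤ |u - E0| := by
        rw [Set.mem_compl_iff, Set.mem_Icc, not_and_or, not_le, not_le] at hu
        rcases hu with hu | hu
        · rw [abs_of_neg (by linarith)]; linarith
        · rw [abs_of_pos (by linarith)]; linarith
      exact mul_le_mul (ro_far E0 w u r hr h2) (hSKO u) (hSK0 u) (by positivity)
    have h3 : ∫ u in (Set.Icc E1 E2)ᶜ, 4 * w ^ 2 / r ^ 2 * SO u ≤
        ∫ u, 4 * w ^ 2 / r ^ 2 * SO u := by
      refine setIntegral_le_integral (iO.const_mul _) (Eventually.of_forall fun u => ?_)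
      have := (hSK0 u).trans (hSKO u)
      simp only [Pi.zero_apply]
      positivity
    refine (h1.trans h3).trans (le_of_eq ?_)
    rw [integral_const_mul]
    congr 1
    rw [eO, integral_finsetSum _ fun j _ => fc_int η (E j) (E j) hη]
    simp only [fc_diag η _ hη]
    rw [Finset.sum_const, Finset.card_univ, nsmul_eq_mul]
    ring
  have fin : η * (3 * (∫ u, ro E0 w u * SK u) + 3 / 8 * (8 * Real.pi * w * S1)) ≤
      3 * (η * ∫ u in Set.Icc E1 E2, ro E0 w u * SK u) + 3 * Real.pi * η * (w * S1) +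
        12 * Real.pi * w ^ 2 / r ^ 2 * (Fintype.card (T d L) : ℝ) := by
    rw [← split]
    have h1 : η * (3 * ∫ u in (Set.Icc E1 E2)ᶜ, ro E0 w u * SK u) ≤
        η * (3 * (4 * w ^ 2 / r ^ 2 * (Real.pi / η * (Fintype.card (T d L) : ℝ)))) :=
      mul_le_mul_of_nonneg_left (mul_le_mul_of_nonneg_left outside (by norm_num)) hη.le
    have h2 : η * (3 * (4 * w ^ 2 / r ^ 2 * (Real.pi / η * (Fintype.card (T d L) : ℝ)))) =
        12 * Real.pi * w ^ 2 / r ^ 2 * (Fintype.card (T d L) : ℝ) := by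
      field_simp
      ring
    rw [h2] at h1
    linarith
  exact (mul_le_mul_of_nonneg_left mid hη.le).trans fin

/-- lower bound for the number of eigenvalues in a window -/
theorem win_low {σ : ℝ} {V : T d L → ℝ} {ψ : T d L → T d L → ℂ} {E : T d L → ℝ}
    (h : EB σ V ψ E) (η w E0 : ℝ) (hη : 0 < η) (hw : 0 < w) :
    η * ∫ u in Set.Icc (E0 - w / 2) (E0 + w / 2), SS (fun _ => 1) ((u : ℂ) + η * Complex.I) σ V ≤
      Real.pi * ((Finset.univ.filter fun j => |E j - E0| < w).card : ℝ) +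
        8 * η * (w * SS (fun _ => 1) ((E0 : ℂ) + w * Complex.I) σ V) := by
  have hpi := Real.pi_pos
  have eO : ∀ u : ℝ, SS (fun _ => 1) ((u : ℂ) + η * Complex.I) σ V = ∑ j, fc η (E j) (E j) u :=
    fun u => SS_one h η u hη
  simp only [eO]
  rw [SS_one h w E0 hw, integral_finsetSum _ fun j _ => (fc_int η (E j) (E j) hη).integrableOn,
    Finset.mul_sum, Finset.mul_sum, Finset.mul_sum]
  have hcard : Real.pi * ((Finset.univ.filter fun j => |E j - E0| < w).card : ℝ) =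
      ∑ j, if |E j - E0| < w then Real.pi else 0 := by
    rw [← Finset.sum_filter, Finset.sum_const, nsmul_eq_mul, mul_comm]
  rw [hcard, ← Finset.sum_add_distrib]
  refine Finset.sum_le_sum fun j _ => ?_
  have hnn : ∀ u, 0 ≤ fc η (E j) (E j) u := fun u => by
    rw [fc_self η (E j) u hη]; positivity
  by_cases hj : |E j - E0| < w
  · rw [if_pos hj]
    have h1 : ∫ u in Set.Icc (E0 - w / 2) (E0 + w / 2), fc η (E j) (E j) u ≤ Real.pi / η := by
      rw [← fc_diag η (E j) hη]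
      exact setIntegral_le_integral (fc_int η (E j) (E j) hη) (Eventually.of_forall hnn)
    have h2 : η * ∫ u in Set.Icc (E0 - w / 2) (E0 + w / 2), fc η (E j) (E j) u ≤ Real.pi := by
      have := mul_le_mul_of_nonneg_left h1 hη.le
      rwa [mul_div_cancel₀ _ hη.ne'] at this
    have h3 : 0 ≤ 8 * η * (w * fc w (E j) (E j) E0) := by
      rw [fc_self w (E j) E0 hw]; positivity
    linarith
  · rw [if_neg hj, zero_add]
    rw [not_lt] at hj
    have h1 : ∀ u ∈ Set.Icc (E0 - w / 2) (E0 + w / 2), fc η (E j) (E j) u ≤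
        8 / ((E j - E0) ^ 2 + w ^ 2) := by
      intro u hu
      rw [fc_self η (E j) u hη, div_le_div_iff₀ (by positivity) (by positivity), one_mul]
      have h2 : |u - E0| ≤ w / 2 := by
        rw [abs_le]
        constructor
        · linarith [hu.1]
        · linarith [hu.2]
      have h3 : |E j - E0| / 2 ≤ |E j - u| := by
        have h4 : |E j - E0| ≤ |E j - u| + |u - E0| := by
          have := abs_add_le (E j - u) (u - E0)
          rwa [sub_add_sub_cancel] at this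
        linarith
      have h5 : (|E j - E0| / 2) ^ 2 ≤ (E j - u) ^ 2 := by
        rw [← sq_abs (E j - u)]
        exact pow_le_pow_left₀ (by positivity) h3 2
      have h6 : w ^ 2 ≤ (E j - E0) ^ 2 := by
        rw [← sq_abs (E j - E0)]
        exact pow_le_pow_left₀ hw.le hj 2
      rw [div_pow, sq_abs] at h5
      nlinarith [sq_nonneg η]
    have h2 : ∫ u in Set.Icc (E0 - w / 2) (E0 + w / 2), fc η (E j) (E j) u ≤
        ∫ _u in Set.Icc (E0 - w / 2) (E0 + w / 2), 8 / ((E j - E0) ^ 2 + w ^ 2) :=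
      setIntegral_mono_on (fc_int η (E j) (E j) hη).integrableOn (integrable_const _)
        measurableSet_Icc h1
    rw [setIntegral_const, smul_eq_mul, Real.volume_real_Icc_of_le (by linarith)] at h2
    rw [fc_self w (E j) E0 hw]
    have h3 := mul_le_mul_of_nonneg_left h2 hη.le
    refine h3.trans (le_of_eq ?_)
    ring

end Pool.Agent.Zk60.LL.Win
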