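import Pool.Agent.Zk60.LL.Lv
import Pool.Agent.Zk60.LL.Win

/-! # Exponentially rare events -/

set_option autoImplicit false
set_option linter.unusedSectionVars false

open scoped BigOperators Topology
open MeasureTheory Filter

namespace Pool.Agent.Zk60.LL.Rar

open Pool.Agent.W788.MFP.Four (T NN NN_pos card_T)
open Pool.Agent.Zk11.QD
open Pool.Agent.Zk60.LL.Ker Pool.Agent.Zk60.LL.Prob Pool.Agent.Zk60.LL.Det Pool.Agent.Zk60.LL.Bnd
open Pool.Agent.Zk60.LL.Phi Pool.Agent.Zk60.LL.Lv Pool.Agent.Zk60.LL.Win Pool.Agent.Zk60.LL.Dos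

variable {d : ℕ}

/-- exponentially rare events -/
def Rare (μ : Measure ℝ) (B : ∀ h : ℕ, Set (T d (2 * h + 1) → ℝ)) : Prop :=
  ∃ a : ℝ, 0 < a ∧ ∀ᶠ h : ℕ in atTop, (PL (T d (2 * h + 1)) μ).real (B h) ≤
    Real.exp (-(a * (Fintype.card (T d (2 * h + 1)) : ℝ)))

theorem card_eq (h : ℕ) : (Fintype.card (T d (2 * h + 1)) : ℝ) = ((2 * h + 1 : ℕ) : ℝ) ^ d := by
  rw [Fintype.card_fun, ZMod.card, Fintype.card_fin]
  push_cast
  ring

theorem card_tendsto (hd : 1 ≤ d) :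
    Tendsto (fun h : ℕ => (Fintype.card (T d (2 * h + 1)) : ℝ)) atTop atTop := by
  refine tendsto_atTop_mono (f := fun h : ℕ => (h : ℝ)) (fun h => ?_)
    tendsto_natCast_atTop_atTop
  rw [card_eq]
  have h1 : (1 : ℝ) ≤ ((2 * h + 1 : ℕ) : ℝ) := by push_cast; linarith [(Nat.cast_nonneg h : (0:ℝ) ≤ h)]
  have h2 := pow_le_pow_right₀ h1 hd
  rw [pow_one] at h2
  refine le_trans ?_ h2
  push_cast
  linarith [(Nat.cast_nonneg h : (0:ℝ) ≤ h)]

theorem Rare.union (hd : 1 ≤ d) {μ : Measure ℝ} [IsProbabilityMeasure μ]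
    {B B' : ∀ h : ℕ, Set (T d (2 * h + 1) → ℝ)}
    (h1 : Rare μ B) (h2 : Rare μ B') : Rare μ (fun h => B h ∪ B' h) := by
  obtain ⟨a1, ha1, h1⟩ := h1
  obtain ⟨a2, ha2, h2⟩ := h2
  set a := min a1 a2 / 2 with ha
  have ha0 : 0 < a := by have := lt_min ha1 ha2; positivity
  refine ⟨a, ha0, ?_⟩
  have h3 := (card_tendsto hd).eventually (eventually_ge_atTop (Real.log 2 / a))
  filter_upwards [h1, h2, h3] with h g1 g2 g3
  set N : ℝ := (Fintype.card (T d (2 * h + 1)) : ℝ) with hN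
  have hN0 : 0 ≤ N := by rw [hN]; positivity
  rw [div_le_iff₀ ha0] at g3
  have e1 : Real.exp (-(a1 * N)) ≤ Real.exp (-(2 * a * N)) := by
    apply Real.exp_le_exp.2
    have : 2 * a ≤ a1 := by rw [ha]; linarith [min_le_left a1 a2]
    have := mul_le_mul_of_nonneg_right this hN0
    linarith
  have e2 : Real.exp (-(a2 * N)) ≤ Real.exp (-(2 * a * N)) := by
    apply Real.exp_le_exp.2
    have : 2 * a ≤ a2 := by rw [ha]; linarith [min_le_right a1 a2]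
    have := mul_le_mul_of_nonneg_right this hN0
    linarith
  have e3 : 2 * Real.exp (-(2 * a * N)) ≤ Real.exp (-(a * N)) := by
    have h4 : (2 : ℝ) = Real.exp (Real.log 2) := (Real.exp_log (by norm_num)).symm
    calc 2 * Real.exp (-(2 * a * N)) = Real.exp (Real.log 2) * Real.exp (-(2 * a * N)) := by
          rw [← h4]
      _ = Real.exp (Real.log 2 + -(2 * a * N)) := (Real.exp_add _ _).symm
      _ ≤ _ := Real.exp_le_exp.2 (by linarith)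
  refine (measureReal_union_le _ _).trans ?_
  linarith

theorem Rare.mono {μ : Measure ℝ} [IsProbabilityMeasure μ]
    {B B' : ∀ h : ℕ, Set (T d (2 * h + 1) → ℝ)}
    (h1 : Rare μ B) (h2 : ∀ h, B' h ⊆ B h) : Rare μ B' := by
  obtain ⟨a1, ha1, h1⟩ := h1
  refine ⟨a1, ha1, h1.mono fun h hh => ?_⟩
  exact (measureReal_mono (h2 h) (measure_ne_top _ _)).trans hh

theorem Rare.empty (μ : Measure ℝ) [IsProbabilityMeasure μ] :
    Rare μ (fun h => (∅ : Set (T d (2 * h + 1) → ℝ))) :=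
  ⟨1, one_pos, Eventually.of_forall fun h => by simp; positivity⟩

theorem Rare.biUnion (hd : 1 ≤ d) {μ : Measure ℝ} [IsProbabilityMeasure μ] {ι : Type}
    (s : Finset ι) (B : ι → ∀ h : ℕ, Set (T d (2 * h + 1) → ℝ)) (h1 : ∀ i ∈ s, Rare μ (B i)) :
    Rare μ (fun h => ⋃ i ∈ s, B i h) := by
  classical
  induction s using Finset.induction_on with
  | empty => simpa using Rare.empty μ
  | insert a s _ ih =>
    have h2 := (h1 a (Finset.mem_insert_self a s)).union hd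
      (ih fun i hi => h1 i (Finset.mem_insert_of_mem hi))
    refine h2.mono fun h => ?_
    rw [Finset.set_biUnion_insert]

section
variable (ν : Measure ℝ) [IsFiniteMeasure ν] (μ : Measure ℝ) [IsProbabilityMeasure μ]

theorem lim_props (K : ∀ h : ℕ, T d (2 * h + 1) → ℝ)
    (hK : ∀ h, Rep (K h)) (η : ℝ) (hη : 0 < η) (σ : ℝ) (X : ℝ → ℝ → Prop)
    (hl : ∀ᵐ u ∂ν, ∃ l : ℝ, Tendsto (fun h => hv μ (K h) η σ u) atTop (𝓝 l) ∧ X u l) :
    ∃ l : ℝ → ℝ, Integrable l ν ∧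
      (∀ᵐ u ∂ν, Tendsto (fun h => hv μ (K h) η σ u) atTop (𝓝 (l u))) ∧ ∀ᵐ u ∂ν, X u (l u) := by
  classical
  set l : ℝ → ℝ := fun u => if hh : ∃ l : ℝ, Tendsto (fun h => hv μ (K h) η σ u) atTop (𝓝 l) ∧
    X u l then hh.choose else 0 with hldef
  have h1 : ∀ᵐ u ∂ν, Tendsto (fun h => hv μ (K h) η σ u) atTop (𝓝 (l u)) ∧ X u (l u) := by
    filter_upwards [hl] with u hu
    rw [hldef]
    simp only
    rw [dif_pos hu]
    exact hu.choose_spec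
  refine ⟨l, ?_, h1.mono fun u hu => hu.1, h1.mono fun u hu => hu.2⟩
  have hm : AEStronglyMeasurable l ν :=
    aestronglyMeasurable_of_tendsto_ae atTop
      (fun h => (hv_cont μ (K h) η hη σ).aestronglyMeasurable) (h1.mono fun u hu => hu.1)
  refine Integrable.mono' (integrable_const (1 / η ^ 2)) hm (h1.mono fun u hu => ?_)
  rw [Real.norm_eq_abs]
  refine le_of_tendsto hu.1.abs (Eventually.of_forall fun h => ?_)
  rw [abs_of_nonneg (hv_nonneg μ (hK h) _ _ _)]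
  exact hv_bdd μ (hK h) η hη σ u

theorem rare_up (b : ℝ) (hb : ∀ᵐ s ∂μ, |s| ≤ b) (K : ∀ h : ℕ, T d (2 * h + 1) → ℝ)
    (hK : ∀ h, Rep (K h)) (η : ℝ) (hη : 0 < η) (σ : ℝ) (X : ℝ → ℝ) (hX : Integrable X ν)
    (hl : ∀ᵐ u ∂ν, ∃ l : ℝ, Tendsto (fun h => hv μ (K h) η σ u) atTop (𝓝 l) ∧ η * l ≤ X u)
    (U : ℝ) (hU : ∫ u, X u ∂ν < η * U) :
    Rare μ (fun h => {V | U * (Fintype.card (T d (2 * h + 1)) : ℝ) ≤ Phi.Phi ν (K h) η σ V}) := by
  obtain ⟨l, hli, hl1, hl2⟩ := lim_props ν μ K hK η hη σ (fun u l => η * l ≤ X u) hl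
  apply lln_up ν μ b hb K hK η hη σ l hl1 U
  have h1 : ∫ u, η * l u ∂ν ≤ ∫ u, X u ∂ν := integral_mono_ae (hli.const_mul η) hX hl2
  rw [integral_const_mul] at h1
  exact lt_of_mul_lt_mul_left (h1.trans_lt hU) hη.le

theorem rare_low (b : ℝ) (hb : ∀ᵐ s ∂μ, |s| ≤ b) (K : ∀ h : ℕ, T d (2 * h + 1) → ℝ)
    (hK : ∀ h, Rep (K h)) (η : ℝ) (hη : 0 < η) (σ : ℝ) (X : ℝ → ℝ) (hX : Integrable X ν)
    (hl : ∀ᵐ u ∂ν, ∃ l : ℝ, Tendsto (fun h => hv μ (K h) η σ u) atTop (𝓝 l) ∧ X u ≤ η * l)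
    (U : ℝ) (hU : η * U < ∫ u, X u ∂ν) :
    Rare μ (fun h => {V | Phi.Phi ν (K h) η σ V ≤ U * (Fintype.card (T d (2 * h + 1)) : ℝ)}) := by
  obtain ⟨l, hli, hl1, hl2⟩ := lim_props ν μ K hK η hη σ (fun u l => X u ≤ η * l) hl
  apply lln_low ν μ b hb K hK η hη σ l hl1 U
  have h1 : ∫ u, X u ∂ν ≤ ∫ u, η * l u ∂ν := integral_mono_ae hX (hli.const_mul η) hl2
  rw [integral_const_mul] at h1
  exact lt_of_mul_lt_mul_left (hU.trans_le h1) hη.le

end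

/-- constants in the bulk -/
theorem bulk (hd : 3 ≤ d) (F1 F2 : ℝ) (h1 : 0 < F1) (h12 : F1 ≤ F2) (h2 : F2 < 4 * d) :
    ∃ C0 gm hm : ℝ, 0 < C0 ∧ 0 < gm ∧ 0 < hm ∧ ∀ u ∈ Set.Icc F1 F2,
      gm ≤ (g0 d u).im ∧ (g0 d u).im ≤ C0 ∧ hm ≤ (h0 d u).im := by
  set C0 : ℝ := (∫ t in Set.Ioi (0 : ℝ), ‖GG d t‖) + 1 with hC0
  have hC0' : 0 ≤ ∫ t in Set.Ioi (0 : ℝ), ‖GG d t‖ := integral_nonneg fun _ => norm_nonneg _
  have hC0pos : 0 < C0 := by linarith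
  have hgle : ∀ u : ℝ, (g0 d u).im ≤ C0 := by
    intro u
    have h1 := lap_bound (GG d) (GG_int hd) (u : ℂ) (by simp)
    have h2 := (abs_le.1 (Complex.abs_im_le_norm (Lap (GG d) (u : ℂ)))).2
    have h3 : (g0 d u).im = (Lap (GG d) (u : ℂ)).im := rfl
    rw [h3]
    linarith
  have hhc : Continuous fun u : ℝ => (h0 d u).im := Complex.continuous_im.comp (h0_cont hd)
  have hgc : Continuous fun u : ℝ => (g0 d u).im := Complex.continuous_im.comp (g0_cont hd)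
  obtain ⟨u0, hu0, hmin⟩ := (isCompact_Icc (a := F1) (b := F2)).exists_isMinOn
    ⟨F1, le_rfl, h12⟩ hhc.continuousOn
  obtain ⟨u1, hu1, hmin1⟩ := (isCompact_Icc (a := F1) (b := F2)).exists_isMinOn
    ⟨F1, le_rfl, h12⟩ hgc.continuousOn
  refine ⟨C0, (g0 d u1).im, (h0 d u0).im, hC0pos, g0_pos hd u1 (h1.trans_le hu1.1)
    (hu1.2.trans_lt h2), h0_pos hd u0 (h1.trans_le hu0.1) (hu0.2.trans_lt h2), fun u hu => ?_⟩
  exact ⟨hmin1 hu, hgle u, hmin hu⟩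

/-- the choice of the parameters of the weights -/
theorem choose_AM (C0 D0 X : ℝ) (hC0 : 0 < C0) (hD0 : 0 < D0) (hX : 0 < X) :
    ∃ (A : ℝ) (M : ℕ), 0 ≤ A ∧ 0 < M ∧ C0 * (1 / M + 1 / (1 + D0 * A ^ 2)) ≤ X := by
  obtain ⟨M, hM⟩ := exists_nat_gt (2 * C0 / X)
  have hM0 : (0 : ℝ) < M := lt_of_le_of_lt (by positivity) hM
  refine ⟨Real.sqrt (2 * C0 / (X * D0)), M, Real.sqrt_nonneg _, by exact_mod_cast hM0, ?_⟩
  rw [Real.sq_sqrt (by positivity)]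
  have h1 : C0 * (1 / (M : ℝ)) ≤ X / 2 := by
    rw [div_lt_iff₀ hX] at hM
    rw [mul_one_div, div_le_iff₀ hM0]
    linarith
  have h2 : C0 * (1 / (1 + D0 * (2 * C0 / (X * D0)))) ≤ X / 2 := by
    have e1 : D0 * (2 * C0 / (X * D0)) = 2 * C0 / X := by field_simp
    rw [e1, mul_one_div, div_le_iff₀ (by positivity)]
    have e2 : X / 2 * (1 + 2 * C0 / X) = X / 2 + C0 := by field_simp
    rw [e2]
    linarith
  linarith

end Pool.Agent.Zk60.LL.Rar
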