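import Pool.Agent.Zk11.QD.Gen

/-! # Transfer from the torus to the lattice with general weights (after `Zk11.QD.Zp`) -/

set_option autoImplicit false
set_option linter.unusedSectionVars false

open scoped BigOperators Topology
open MeasureTheory Filter

namespace Pool.Agent.Zk60.LL.Tra

open Pool.Agent.W788.MFP.Four (T e NN e_add e_zero e_neg e_normSq card_T)
open Pool.Agent.Zk11.QD

variable {d : ℕ}

/-- convergence for a fixed potential -/
theorem det_lim' (lam : ℝ) (ω : Zd d → ℝ) (z : ℂ) (hz : 0 < z.im) (G : Zd d → ℂ)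
    (hG : IsG lam ω z G) (χ : ∀ h : ℕ, T d (2 * h + 1) → ℂ) (hχ : ∀ h x, ‖χ h x‖ ≤ 1)
    (χ' : Zd d → ℂ) (hlim : ∀ y, Tendsto (fun h => χ h (pr (2 * h + 1) y)) atTop (𝓝 (χ' y))) :
    Tendsto (fun h : ℕ => ∑ x : T d (2 * h + 1), χ h x *
      ((‖uu z lam (VL h ω) x‖ ^ 2 : ℝ) : ℂ)) atTop
      (𝓝 (∑' y, χ' y * ((‖G y‖ ^ 2 : ℝ) : ℂ))) := by
  classical
  -- comparison
  have h1 : Tendsto (fun h : ℕ => ∑ x : T d (2 * h + 1), χ h x *
      ((‖uu z lam (VL h ω) x‖ ^ 2 : ℝ) : ℂ) - ∑ x : T d (2 * h + 1), χ h x *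
      ((‖G (lift x)‖ ^ 2 : ℝ) : ℂ)) atTop (𝓝 0) := by
    have hc := close_lim lam ω z hz G hG
    have h2 : Tendsto (fun h : ℕ => Real.sqrt ((∑ x : T d (2 * h + 1),
        ‖G (lift x) - uu z lam (VL h ω) x‖ ^ 2) * (6 / z.im ^ 2))) atTop (𝓝 0) := by
      have h3 := (Real.continuous_sqrt.tendsto _).comp (hc.mul_const (6 / z.im ^ 2))
      rw [zero_mul, Real.sqrt_zero] at h3
      exact h3
    rw [tendsto_zero_iff_norm_tendsto_zero]
    refine squeeze_zero (fun _ => norm_nonneg _) (fun h => ?_) h2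
    rw [← Finset.sum_sub_distrib]
    apply Real.le_sqrt_of_sq_le
    have h3 : ‖∑ x : T d (2 * h + 1), (χ h x *
        ((‖uu z lam (VL h ω) x‖ ^ 2 : ℝ) : ℂ) - χ h x *
        ((‖G (lift x)‖ ^ 2 : ℝ) : ℂ))‖ ≤ ∑ x : T d (2 * h + 1),
        ‖G (lift x) - uu z lam (VL h ω) x‖ * (‖G (lift x)‖ + ‖uu z lam (VL h ω) x‖) := by
      refine (norm_sum_le _ _).trans (Finset.sum_le_sum fun x _ => ?_)
      rw [← mul_sub, norm_mul, ← Complex.ofReal_sub, Complex.norm_real, Real.norm_eq_abs]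
      have e1 : ‖uu z lam (VL h ω) x‖ ^ 2 - ‖G (lift x)‖ ^ 2 =
          (‖uu z lam (VL h ω) x‖ - ‖G (lift x)‖) * (‖G (lift x)‖ + ‖uu z lam (VL h ω) x‖) := by ring
      have h4 : |‖uu z lam (VL h ω) x‖ ^ 2 - ‖G (lift x)‖ ^ 2| ≤
          ‖G (lift x) - uu z lam (VL h ω) x‖ * (‖G (lift x)‖ + ‖uu z lam (VL h ω) x‖) := by
        rw [e1, abs_mul, abs_of_nonneg (by positivity :
          0 ≤ ‖G (lift x)‖ + ‖uu z lam (VL h ω) x‖)]
        refine mul_le_mul_of_nonneg_right ?_ (by positivity)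
        rw [abs_sub_comm]
        exact abs_norm_sub_norm_le _ _
      calc ‖χ h x‖ * |‖uu z lam (VL h ω) x‖ ^ 2 - ‖G (lift x)‖ ^ 2|
          ≤ 1 * |‖uu z lam (VL h ω) x‖ ^ 2 - ‖G (lift x)‖ ^ 2| :=
            mul_le_mul_of_nonneg_right (hχ h x) (abs_nonneg _)
        _ ≤ _ := by rw [one_mul]; exact h4
    refine (pow_le_pow_left₀ (norm_nonneg _) h3 2).trans ?_
    refine (Finset.sum_mul_sq_le_sq_mul_sq _ _ _).trans ?_
    refine mul_le_mul_of_nonneg_left ?_ (Finset.sum_nonneg fun _ _ => by positivity)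
    have h4 : ∀ x : T d (2 * h + 1), (‖G (lift x)‖ + ‖uu z lam (VL h ω) x‖) ^ 2 ≤
        2 * ‖G (lift x)‖ ^ 2 + 2 * ‖uu z lam (VL h ω) x‖ ^ 2 := by
      intro x
      nlinarith [sq_nonneg (‖G (lift x)‖ - ‖uu z lam (VL h ω) x‖)]
    refine (Finset.sum_le_sum fun x _ => h4 x).trans ?_
    rw [Finset.sum_add_distrib, ← Finset.mul_sum, ← Finset.mul_sum]
    have h5 := uu_norm z hz lam (VL h ω)
    have h6 : ∑ x : T d (2 * h + 1), ‖G (lift x)‖ ^ 2 ≤ 2 / z.im ^ 2 := by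
      refine le_trans ?_ (isG_norm lam ω z hz G hG)
      have h7 : ∑ x : T d (2 * h + 1), ‖G (lift x)‖ ^ 2 =
          ∑ y ∈ (Finset.univ : Finset (T d (2 * h + 1))).image lift, ‖G y‖ ^ 2 := by
        rw [Finset.sum_image]
        intro a _ b _ hab
        exact lift_inj hab
      rw [h7]
      exact hG.sq.sum_le_tsum _ (fun _ _ => by positivity)
    have h8 : 6 / z.im ^ 2 = 2 * (2 / z.im ^ 2) + 2 * (1 / z.im ^ 2) := by ring
    rw [h8]
    linarith
  -- the main part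
  have h2 : Tendsto (fun h : ℕ => ∑ x : T d (2 * h + 1), χ h x *
      ((‖G (lift x)‖ ^ 2 : ℝ) : ℂ)) atTop (𝓝 (∑' y, χ' y * ((‖G y‖ ^ 2 : ℝ) : ℂ))) := by
    have h3 : ∀ h : ℕ, ∑ x : T d (2 * h + 1), χ h x *
        ((‖G (lift x)‖ ^ 2 : ℝ) : ℂ) = ∑' y : Zd d, if ∀ i, |y i| ≤ (h : ℤ) then
          χ h (pr (2 * h + 1) y) * ((‖G y‖ ^ 2 : ℝ) : ℂ) else 0 := by
      intro h
      have h4 := sum_lift h (fun y : Zd d => χ h (pr (2 * h + 1) y) *
        ((‖G y‖ ^ 2 : ℝ) : ℂ))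
      simp only [pr_lift] at h4
      rw [h4]
    simp only [h3]
    refine tendsto_tsum_of_dominated_convergence hG.sq (fun y => ?_) ?_
    · have h5 := (hlim y).mul_const ((‖G y‖ ^ 2 : ℝ) : ℂ)
      refine (tendsto_congr' ?_).2 h5
      filter_upwards [in_box y] with h hh
      rw [if_pos hh]
    · refine Eventually.of_forall fun h y => ?_
      split_ifs
      · rw [norm_mul, Complex.norm_real, Real.norm_eq_abs, abs_of_nonneg (by positivity)]
        have := hχ h (pr (2 * h + 1) y)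
        have h6 : 0 ≤ ‖G y‖ ^ 2 := by positivity
        nlinarith
      · rw [norm_zero]
        positivity
  have h3 := h1.add h2
  rw [zero_add] at h3
  refine h3.congr fun h => ?_
  ring

section
variable (μ : Measure ℝ) [IsProbabilityMeasure μ] (lam : ℝ) (z : ℂ) (hz : 0 < z.im)
  (G : (Zd d → ℝ) → Zd d → ℂ) (hG : ∀ᵐ ω ∂(PZ d μ), IsG lam ω z (G ω))

include hz hG

theorem G_tsum' (χ' : Zd d → ℂ) (hχ' : ∀ y, ‖χ' y‖ ≤ 1) :
    ∫ ω, ∑' y, χ' y * ((‖G ω y‖ ^ 2 : ℝ) : ℂ) ∂(PZ d μ) =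
    ∑' y : Zd d, χ' y * ((∫ ω, ‖G ω y‖ ^ 2 ∂(PZ d μ) : ℝ) : ℂ) := by
  have h1 := hasSum_integral_of_summable_integral_norm (μ := PZ d μ)
    (F := fun (y : Zd d) (ω : Zd d → ℝ) => χ' y * ((‖G ω y‖ ^ 2 : ℝ) : ℂ))
    (fun y => ((G_int μ lam z hz G hG y).ofReal).const_mul _) (by
      refine Summable.of_nonneg_of_le (fun y => integral_nonneg fun _ => norm_nonneg _) (fun y => ?_)
        (G_summable μ lam z hz G hG)
      refine integral_mono_of_nonneg (Eventually.of_forall fun _ => norm_nonneg _)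
        (G_int μ lam z hz G hG y) (Eventually.of_forall fun ω => ?_)
      simp only
      rw [norm_mul, Complex.norm_real, Real.norm_eq_abs, abs_of_nonneg (by positivity)]
      have := hχ' y
      have h6 : 0 ≤ ‖G ω y‖ ^ 2 := by positivity
      nlinarith)
  rw [← h1.tsum_eq]
  refine tsum_congr fun y => ?_
  rw [integral_const_mul, integral_complex_ofReal]

/-- **transfer** -/
theorem transfer' (χ : ∀ h : ℕ, T d (2 * h + 1) → ℂ) (hχ : ∀ h x, ‖χ h x‖ ≤ 1)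
    (χ' : Zd d → ℂ) (hlim : ∀ y, Tendsto (fun h => χ h (pr (2 * h + 1) y)) atTop (𝓝 (χ' y))) :
    Tendsto (fun h : ℕ => ∑ x : T d (2 * h + 1), χ h x *
        ((∫ V, ‖uu z lam V x‖ ^ 2 ∂(PL (T d (2 * h + 1)) μ) : ℝ) : ℂ)) atTop
      (𝓝 (∑' y : Zd d, χ' y * ((∫ ω, ‖G ω y‖ ^ 2 ∂(PZ d μ) : ℝ) : ℂ))) := by
  have hχ' : ∀ y, ‖χ' y‖ ≤ 1 := fun y =>
    le_of_tendsto (hlim y).norm (Eventually.of_forall fun h => hχ h _)
  rw [← G_tsum' μ lam z hz G hG χ' hχ']
  simp only [← avg_eq μ lam z hz]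
  refine tendsto_integral_filter_of_dominated_convergence (fun _ => 1 / z.im ^ 2) ?_ ?_
    (integrable_const _) ?_
  · refine Eventually.of_forall fun h => ?_
    refine Measurable.aestronglyMeasurable ?_
    refine Finset.measurable_fun_sum _ fun x _ => ?_
    exact (Complex.measurable_ofReal.comp
      (((uu_meas z lam x).comp (VL_meas h)).norm.pow_const 2)).const_mul _
  · refine Eventually.of_forall fun h => Eventually.of_forall fun ω => ?_
    refine (norm_sum_le _ _).trans (le_trans ?_ (uu_norm z hz lam (VL h ω)))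
    refine Finset.sum_le_sum fun x _ => ?_
    rw [norm_mul, Complex.norm_real, Real.norm_eq_abs, abs_of_nonneg (by positivity)]
    have := hχ h x
    have h6 : 0 ≤ ‖uu z lam (VL h ω) x‖ ^ 2 := by positivity
    nlinarith
  · filter_upwards [hG] with ω hω
    exact det_lim' lam ω z hz (G ω) hω χ hχ χ' hlim

end

end Pool.Agent.Zk60.LL.Tra
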