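import Pool.Agent.Zk60.LL.Rar

/-! # One window -/

set_option autoImplicit false
set_option linter.unusedSectionVars false

open scoped BigOperators Topology
open MeasureTheory Filter

namespace Pool.Agent.Zk60.LL.Wdt

open Pool.Agent.W788.MFP.Four (T NN NN_pos card_T)
open Pool.Agent.Zk11.QD
open Pool.Agent.Zk60.LL.Ker Pool.Agent.Zk60.LL.Prob Pool.Agent.Zk60.LL.Det Pool.Agent.Zk60.LL.Bnd
open Pool.Agent.Zk60.LL.Phi Pool.Agent.Zk60.LL.Lv Pool.Agent.Zk60.LL.Win Pool.Agent.Zk60.LL.Rar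

variable {d : ℕ}

/-- the weight of a window as a measure -/
noncomputable def nu1 (F1 F2 E0 w : ℝ) : Measure ℝ :=
  (volume.restrict (Set.Icc F1 F2)).withDensity (fun u => ENNReal.ofReal (ro E0 w u))

theorem nu1_finite (F1 F2 E0 w : ℝ) (hw : 0 < w) : IsFiniteMeasure (nu1 F1 F2 E0 w) :=
  isFiniteMeasure_withDensity_ofReal (ro_int E0 w hw).integrableOn.hasFiniteIntegral

theorem nu1_integral (F1 F2 E0 w : ℝ) (hw : 0 < w) (g : ℝ → ℝ) :
    ∫ u, g u ∂(nu1 F1 F2 E0 w) = ∫ u in Set.Icc F1 F2, ro E0 w u * g u := by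
  have h1 := integral_withDensity_eq_integral_smul (μ := volume.restrict (Set.Icc F1 F2))
    (f := fun u => (ro E0 w u).toNNReal) (ro_cont E0 w hw).measurable.real_toNNReal g
  have h2 : ∫ u, g u ∂(nu1 F1 F2 E0 w) = ∫ u in Set.Icc F1 F2, (ro E0 w u).toNNReal • g u := h1
  rw [h2]
  refine integral_congr_ae (Eventually.of_forall fun u => ?_)
  simp only [NNReal.smul_def, Real.coe_toNNReal _ (ro_nonneg E0 w u), smul_eq_mul]

theorem nu1_ae (F1 F2 E0 w : ℝ) : ∀ᵐ u ∂(nu1 F1 F2 E0 w), u ∈ Set.Icc F1 F2 :=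
  (withDensity_absolutelyContinuous _ _).ae_le (ae_restrict_mem measurableSet_Icc)

theorem nu1_const (F1 F2 E0 w : ℝ) (hw : 0 < w) (x : ℝ) (hx : 0 ≤ x) :
    ∫ _u, x ∂(nu1 F1 F2 E0 w) ≤ x * (8 * Real.pi * w) := by
  rw [nu1_integral F1 F2 E0 w hw, integral_mul_const, mul_comm]
  refine mul_le_mul_of_nonneg_left ?_ hx
  rw [← ro_val E0 w hw]
  exact setIntegral_le_integral (ro_int E0 w hw) (Eventually.of_forall fun u => ro_nonneg E0 w u)

theorem win_det {L : ℕ} [NeZero L] {σ : ℝ} {V : T d L → ℝ} {ψ : T d L → T d L → ℂ}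
    {E : T d L → ℝ} (h : EB σ V ψ E) {K : T d L → ℝ} (hK : Rep K)
    (η w E0 F1 F2 r c R U1 U2 U3 : ℝ) (hη : 0 < η) (hw : 0 < w) (hηw : η ≤ w / 2) (hr : 0 < r)
    (h1r : F1 + r ≤ E0) (h2r : E0 + r ≤ F2) (hc : 0 < c)
    (hball : ∀ y0 x y : T d L, (∀ i, |((x - y0) i).valMinAbs| ≤ R) →
      (∀ i, |((y - y0) i).valMinAbs| ≤ R) → 1 / 2 ≤ K (x - y))
    (g1 : Phi.Phi (nu1 F1 F2 E0 w) K η σ V ≤ U1 * (Fintype.card (T d L) : ℝ))
    (g2 : Phi.Phi (Measure.dirac E0) (fun _ => 1) w σ V ≤ U2 * (Fintype.card (T d L) : ℝ))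
    (g3 : U3 * (Fintype.card (T d L) : ℝ) ≤
      Phi.Phi (volume.restrict (Set.Icc (E0 - w / 2) (E0 + w / 2))) (fun _ => 1) η σ V) :
    (∀ J : Finset (T d L), (∀ j ∈ J, |E j - E0| ≤ w ∧ ∃ (B : Finset (T d L)) (y0 : T d L),
      (∀ x ∈ B, ∀ i, |((x - y0) i).valMinAbs| ≤ R) ∧ c ≤ ∑ x ∈ B, ‖ψ j x‖ ^ 2) →
      Real.pi * (c ^ 2 / 8) * (J.card : ℝ) ≤
        (3 * (η * U1) + 3 * Real.pi * η * (w * U2) + 12 * Real.pi * w ^ 2 / r ^ 2) *
          (Fintype.card (T d L) : ℝ)) ∧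
    (η * U3 - 8 * η * (w * U2)) * (Fintype.card (T d L) : ℝ) ≤
      Real.pi * ((Finset.univ.filter fun j => |E j - E0| < w).card : ℝ) := by
  have hpi := Real.pi_pos
  obtain ⟨ι, _, Q, wt, hwt, -, hrep⟩ := hK.ex
  set N : ℝ := (Fintype.card (T d L) : ℝ) with hN
  have hN0 : 0 ≤ N := by rw [hN]; positivity
  have e1 : Phi.Phi (nu1 F1 F2 E0 w) K η σ V =
      ∫ u in Set.Icc F1 F2, ro E0 w u * SS K ((u : ℂ) + η * Complex.I) σ V := by
    unfold Phi.Phi
    exact nu1_integral F1 F2 E0 w hw _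
  have e2 : Phi.Phi (Measure.dirac E0) (fun _ => 1) w σ V =
      SS (fun _ => 1) ((E0 : ℂ) + w * Complex.I) σ V := by
    unfold Phi.Phi
    rw [integral_dirac]
  rw [e1] at g1
  rw [e2] at g2
  constructor
  · intro J hJ
    have hb := win_bound h Q wt hwt K hrep hK.nn hK.le η w E0 hη hw hηw F1 F2 r hr h1r h2r
    have h2 : ∀ j ∈ J, c ^ 2 / 8 ≤ AA Q wt (ψ j) (ψ j) * ff E0 w (E j) ^ 2 := by
      intro j hj
      obtain ⟨hj1, B, y0, hB, hcB⟩ := hJ j hj
      have h3 := conc_bound Q wt K hrep hK.nn (ψ j) B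
        (fun x hx y hy => hball y0 x y (hB x hx) (hB y hy)) c hc.le hcB
      have h4 := ff_half E0 w (E j) hw hj1
      have h5 := mul_le_mul h3 h4 (by norm_num) (AA_nonneg Q wt hwt _ _)
      linarith
    have h3 : (J.card : ℝ) * (c ^ 2 / 8) ≤ ∑ j, AA Q wt (ψ j) (ψ j) * ff E0 w (E j) ^ 2 := by
      calc (J.card : ℝ) * (c ^ 2 / 8) = ∑ j ∈ J, c ^ 2 / 8 := by
            rw [Finset.sum_const, nsmul_eq_mul]
        _ ≤ ∑ j ∈ J, AA Q wt (ψ j) (ψ j) * ff E0 w (E j) ^ 2 := Finset.sum_le_sum h2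
        _ ≤ _ := Finset.sum_le_univ_sum_of_nonneg fun j =>
            mul_nonneg (AA_nonneg Q wt hwt _ _) (by positivity)
    have h4 := mul_le_mul_of_nonneg_left h3 hpi.le
    have h5 : 3 * (η * ∫ u in Set.Icc F1 F2, ro E0 w u * SS K ((u : ℂ) + η * Complex.I) σ V) ≤
        3 * (η * U1) * N := by
      have := mul_le_mul_of_nonneg_left g1 hη.le
      linarith
    have h6 : 3 * Real.pi * η * (w * SS (fun _ => 1) ((E0 : ℂ) + w * Complex.I) σ V) ≤
        3 * Real.pi * η * (w * U2) * N := by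
      have h7 : w * SS (fun _ => 1) ((E0 : ℂ) + w * Complex.I) σ V ≤ w * U2 * N := by
        have := mul_le_mul_of_nonneg_left g2 hw.le
        linarith
      have := mul_le_mul_of_nonneg_left h7 (by positivity : 0 ≤ 3 * Real.pi * η)
      linarith
    linarith
  · have hl := win_low h η w E0 hη hw
    have h5 : η * U3 * N ≤ η * ∫ u in Set.Icc (E0 - w / 2) (E0 + w / 2),
        SS (fun _ => 1) ((u : ℂ) + η * Complex.I) σ V := by
      have := mul_le_mul_of_nonneg_left g3 hη.le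
      unfold Phi.Phi at this
      linarith
    have h6 : 8 * η * (w * SS (fun _ => 1) ((E0 : ℂ) + w * Complex.I) σ V) ≤
        8 * η * (w * U2) * N := by
      have h7 : w * SS (fun _ => 1) ((E0 : ℂ) + w * Complex.I) σ V ≤ w * U2 * N := by
        have := mul_le_mul_of_nonneg_left g2 hw.le
        linarith
      have := mul_le_mul_of_nonneg_left h7 (by positivity : 0 ≤ 8 * η)
      linarith
    linarith

/-- counting with windows -/
theorem cover {ι : Type} [Fintype ι] (E : ι → ℝ) (w s t : ℝ) (hw : 0 < w)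
    (hst : 16 * w ≤ t - s) (p : ι → Prop) (a1 a2 : ℝ) (ha1 : 0 ≤ a1)
    (h1 : ∀ i : ℤ, ⌊s / (2 * w)⌋ ≤ i → i ≤ ⌊t / (2 * w)⌋ → ∀ J : Finset ι,
      (∀ j ∈ J, |E j - (2 * i + 1) * w| ≤ w ∧ p j) → (J.card : ℝ) ≤ a1)
    (h2 : ∀ i : ℤ, ⌊s / (2 * w)⌋ ≤ i → i ≤ ⌊t / (2 * w)⌋ →
      a2 ≤ ((Finset.univ.filter fun j => |E j - (2 * i + 1) * w| < w).card : ℝ)) :
    (∀ J : Finset ι, (∀ j ∈ J, s ≤ E j ∧ E j ≤ t ∧ p j) → ∀ ε : ℝ, 0 ≤ ε → 2 * a1 ≤ ε * a2 →
      (J.card : ℝ) ≤ ε * ((Finset.univ.filter fun j => s ≤ E j ∧ E j ≤ t).card : ℝ)) ∧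
    (0 ≤ a2 → (t - s) / (4 * w) * a2 ≤
      ((Finset.univ.filter fun j => s ≤ E j ∧ E j ≤ t).card : ℝ)) := by
  classical
  set a : ℤ := ⌊s / (2 * w)⌋ with ha
  set bb : ℤ := ⌊t / (2 * w)⌋ with hbb
  have hw2 : 0 < 2 * w := by positivity
  have fl : ∀ (x : ℝ) (i : ℤ), ⌊x / (2 * w)⌋ = i ↔ 2 * i * w ≤ x ∧ x < (2 * i + 2) * w := by
    intro x i
    rw [Int.floor_eq_iff, le_div_iff₀ hw2, div_lt_iff₀ hw2]
    constructor
    · rintro ⟨h1, h2⟩; constructor <;> linarith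
    · rintro ⟨h1, h2⟩; constructor <;> linarith
  have hsa := (fl s a).1 ha.symm
  have htb := (fl t bb).1 hbb.symm
  have hab : (a : ℝ) + 7 ≤ bb := by
    have h3 : (16 : ℝ) * w ≤ (2 * bb + 2) * w - 2 * a * w := by linarith
    have h4 : (16 : ℝ) * w < (2 * bb + 2 - 2 * a) * w := by
      have := htb.2
      have := hsa.1
      nlinarith
    have h5 : (16 : ℝ) < 2 * bb + 2 - 2 * a := lt_of_mul_lt_mul_right h4 hw.le
    have h6 : (7 : ℝ) < bb - a := by linarith
    linarith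
  have habi : a + 7 ≤ bb := by exact_mod_cast hab
  -- lower bound
  have low : ((bb : ℝ) - a - 1) * a2 ≤
      ((Finset.univ.filter fun j => s ≤ E j ∧ E j ≤ t).card : ℝ) := by
    set S := Finset.univ.filter fun j => s ≤ E j ∧ E j ≤ t with hS
    set S' := S.filter fun j => ⌊E j / (2 * w)⌋ ∈ Finset.Icc (a + 1) (bb - 1) with hS'
    have h3 : (S'.card : ℝ) ≤ S.card := by exact_mod_cast Finset.card_filter_le _ _
    refine le_trans ?_ h3
    have h4 : S'.card = ∑ i ∈ Finset.Icc (a + 1) (bb - 1),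
        (S'.filter fun j => ⌊E j / (2 * w)⌋ = i).card :=
      Finset.card_eq_sum_card_fiberwise (f := fun j => ⌊E j / (2 * w)⌋) (fun j hj =>
        (Finset.mem_filter.1 hj).2)
    rw [h4]
    push_cast
    have h5 : ∀ i ∈ Finset.Icc (a + 1) (bb - 1),
        a2 ≤ ((S'.filter fun j => ⌊E j / (2 * w)⌋ = i).card : ℝ) := by
      intro i hi
      have hi' := Finset.mem_Icc.1 hi
      refine (h2 i (by omega) (by omega)).trans ?_
      have h6 : (Finset.univ.filter fun j => |E j - (2 * i + 1) * w| < w) ⊆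
          S'.filter fun j => ⌊E j / (2 * w)⌋ = i := by
        intro j hj
        have h7 := abs_lt.1 (Finset.mem_filter.1 hj).2
        have h8 : ⌊E j / (2 * w)⌋ = i := by
          rw [fl]
          constructor
          · linarith [h7.1]
          · linarith [h7.2]
        have c1 : (a : ℝ) + 1 ≤ i := by exact_mod_cast hi'.1
        have c2 : (i : ℝ) + 1 ≤ bb := by
          have : i + 1 ≤ bb := by omega
          exact_mod_cast this
        have c3 : (2 * (a : ℝ) + 2) * w ≤ 2 * i * w :=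
          mul_le_mul_of_nonneg_right (by linarith) hw.le
        have c4 : (2 * (i : ℝ) + 2) * w ≤ 2 * bb * w :=
          mul_le_mul_of_nonneg_right (by linarith) hw.le
        rw [Finset.mem_filter, hS', Finset.mem_filter, hS, Finset.mem_filter]
        refine ⟨⟨⟨Finset.mem_univ _, ?_, ?_⟩, ?_⟩, h8⟩
        · linarith [h7.1, hsa.2]
        · linarith [h7.2, htb.1]
        · rw [h8]; exact hi
      exact_mod_cast Finset.card_le_card h6
    have h6 := Finset.sum_le_sum h5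
    rw [Finset.sum_const, nsmul_eq_mul] at h6
    refine le_trans (le_of_eq ?_) h6
    rw [Int.card_Icc]
    have h7 : (((bb - 1 + 1 - (a + 1)).toNat : ℕ) : ℝ) = (bb : ℝ) - a - 1 := by
      have h8 : (((bb - 1 + 1 - (a + 1)).toNat : ℕ) : ℤ) = bb - a - 1 := by
        rw [Int.toNat_of_nonneg (by omega)]; ring
      have h9 : ((((bb - 1 + 1 - (a + 1)).toNat : ℕ) : ℤ) : ℝ) = ((bb - a - 1 : ℤ) : ℝ) := by
        rw [h8]
      push_cast at h9
      rw [← h9]
    rw [h7]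
  constructor
  · intro J hJ ε hε hle
    have up : (J.card : ℝ) ≤ ((bb : ℝ) - a + 1) * a1 := by
      have h4 : J.card = ∑ i ∈ Finset.Icc a bb, (J.filter fun j => ⌊E j / (2 * w)⌋ = i).card :=
        Finset.card_eq_sum_card_fiberwise (f := fun j => ⌊E j / (2 * w)⌋) (fun j hj => by
          have h5 := hJ j hj
          rw [Finset.coe_Icc, Set.mem_Icc]
          constructor
          · rw [ha]
            exact Int.floor_le_floor (div_le_div_of_nonneg_right h5.1 hw2.le)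
          · rw [hbb]
            exact Int.floor_le_floor (div_le_div_of_nonneg_right h5.2.1 hw2.le))
      rw [h4]
      push_cast
      have h5 : ∀ i ∈ Finset.Icc a bb,
          ((J.filter fun j => ⌊E j / (2 * w)⌋ = i).card : ℝ) ≤ a1 := by
        intro i hi
        have hi' := Finset.mem_Icc.1 hi
        refine h1 i hi'.1 hi'.2 _ fun j hj => ?_
        have h6 := Finset.mem_filter.1 hj
        have h7 := (fl (E j) i).1 h6.2
        refine ⟨?_, (hJ j h6.1).2.2⟩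
        rw [abs_le]
        constructor
        · linarith [h7.1]
        · linarith [h7.2]
      have h6 := Finset.sum_le_sum h5
      rw [Finset.sum_const, nsmul_eq_mul] at h6
      refine h6.trans (le_of_eq ?_)
      rw [Int.card_Icc]
      have h7 : (((bb + 1 - a).toNat : ℕ) : ℝ) = (bb : ℝ) - a + 1 := by
        have h8 : (((bb + 1 - a).toNat : ℕ) : ℤ) = bb - a + 1 := by
          rw [Int.toNat_of_nonneg (by omega)]; ring
        have h9 : ((((bb + 1 - a).toNat : ℕ) : ℤ) : ℝ) = ((bb - a + 1 : ℤ) : ℝ) := by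
          rw [h8]
        push_cast at h9
        rw [← h9]
      rw [h7]
    have h3 : ((bb : ℝ) - a + 1) * a1 ≤ ((bb : ℝ) - a - 1) * (2 * a1) := by nlinarith
    have h4 : ((bb : ℝ) - a - 1) * (2 * a1) ≤ ((bb : ℝ) - a - 1) * (ε * a2) :=
      mul_le_mul_of_nonneg_left hle (by linarith)
    have h5 := mul_le_mul_of_nonneg_left low hε
    linarith
  · intro ha2
    refine le_trans ?_ low
    refine mul_le_mul_of_nonneg_right ?_ ha2
    rw [div_le_iff₀ (by positivity)]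
    have h3 : t - s ≤ (2 * (bb : ℝ) + 2 - 2 * a) * w := by
      have := htb.2
      have := hsa.1
      linarith
    nlinarith

end Pool.Agent.Zk60.LL.Wdt
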