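import Pool.Agent.Zk60.LL.Wdt

/-! # Localization lengths in small windows of energies -/

set_option autoImplicit false
set_option linter.unusedSectionVars false

open scoped BigOperators Topology
open MeasureTheory Filter

namespace Pool.Agent.Zk60.LL.Wfin

open Pool.Agent.W788.MFP.Four (T NN NN_pos card_T)
open Pool.Agent.Zk11.QD
open Pool.Agent.Zk60.LL.Ker Pool.Agent.Zk60.LL.Prob Pool.Agent.Zk60.LL.Det Pool.Agent.Zk60.LL.Bnd
open Pool.Agent.Zk60.LL.Phi Pool.Agent.Zk60.LL.Lv Pool.Agent.Zk60.LL.Win Pool.Agent.Zk60.LL.Rar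
open Pool.Agent.Zk60.LL.Wdt Pool.Agent.Zk60.LL.Fin

variable {d : ℕ}

theorem const_restrict (a b x : ℝ) (hab : a ≤ b) :
    ∫ _u in Set.Icc a b, x = x * (b - a) := by
  rw [setIntegral_const, smul_eq_mul, Real.volume_real_Icc_of_le hab, mul_comm]

/-- the limits for the given parameters -/
structure Par (d : ℕ) (μ : Measure ℝ) [IsProbabilityMeasure μ] (lam η w F1 F2 C0 gm x5 A : ℝ)
    (M : ℕ) (i0 : Fin d) : Prop where
  hη : 0 < η
  hw : 0 < w
  hM : 0 < M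
  hA : 0 ≤ A
  K : ∀ u ∈ Set.Icc F1 F2, ∃ l : ℝ, Tendsto (fun h : ℕ => hv μ (KT (d := d) (2 * h + 1) M
      (th i0 (lam * Real.sqrt η) A M)) η lam u) atTop (𝓝 l) ∧ η * l ≤ x5
  one : ∀ u ∈ Set.Icc F1 F2, ∃ l : ℝ, Tendsto (fun h : ℕ => hv μ
      (fun _ : T d (2 * h + 1) => (1 : ℝ)) η lam u) atTop (𝓝 l) ∧ 3 * gm / 4 ≤ η * l
  onew : ∀ u ∈ Set.Icc F1 F2, ∃ l : ℝ, Tendsto (fun h : ℕ => hv μ
      (fun _ : T d (2 * h + 1) => (1 : ℝ)) w lam u) atTop (𝓝 l) ∧ w * l ≤ C0 + 1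

/-- the bad event of one window -/
noncomputable def BadW (lam η w F1 F2 C0 gm x5 A : ℝ) (M : ℕ) (i0 : Fin d) (E0 : ℝ) (h : ℕ) :
    Set (T d (2 * h + 1) → ℝ) :=
  ({V | 16 * Real.pi * w * x5 / η * (Fintype.card (T d (2 * h + 1)) : ℝ) ≤
      Phi.Phi (nu1 F1 F2 E0 w) (KT (2 * h + 1) M (th i0 (lam * Real.sqrt η) A M)) η lam V} ∪
    {V | (C0 + 2) / w * (Fintype.card (T d (2 * h + 1)) : ℝ) ≤
      Phi.Phi (Measure.dirac E0) (fun _ => 1) w lam V}) ∪
    {V | Phi.Phi (volume.restrict (Set.Icc (E0 - w / 2) (E0 + w / 2))) (fun _ => 1) η lam V ≤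
      w * gm / (2 * η) * (Fintype.card (T d (2 * h + 1)) : ℝ)}

theorem BadW_rare (hd : 1 ≤ d) (μ : Measure ℝ) [IsProbabilityMeasure μ] (b : ℝ)
    (hb : ∀ᵐ s ∂μ, |s| ≤ b) (lam η w F1 F2 C0 gm x5 A : ℝ) (M : ℕ) (i0 : Fin d)
    (hp : Par d μ lam η w F1 F2 C0 gm x5 A M i0) (hgm : 0 < gm) (hx5 : 0 < x5) (E0 : ℝ)
    (h1 : F1 + w ≤ E0) (h2 : E0 + w ≤ F2) :
    Rare μ (BadW lam η w F1 F2 C0 gm x5 A M i0 E0) := by
  have hpi := Real.pi_pos
  have hη := hp.hη
  have hw := hp.hw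
  have := nu1_finite F1 F2 E0 w hw
  refine Rare.union hd (Rare.union hd ?_ ?_) ?_
  · apply rare_up (nu1 F1 F2 E0 w) μ b hb
      (fun h => KT (2 * h + 1) M (th i0 (lam * Real.sqrt η) A M))
      (fun h => rep_KT M hp.hM _) η hη lam (fun _ => x5) (integrable_const _)
      ((nu1_ae F1 F2 E0 w).mono fun u hu => hp.K u hu)
    refine (nu1_const F1 F2 E0 w hw x5 hx5.le).trans_lt ?_
    have e1 : η * (16 * Real.pi * w * x5 / η) = 16 * Real.pi * w * x5 := by field_simp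
    rw [e1]
    have : 0 < Real.pi * w * x5 := by positivity
    linarith
  · apply rare_up (Measure.dirac E0) μ b hb (fun h => fun _ => 1) (fun h => rep_one) w hw lam
      (fun _ => C0 + 1) (integrable_const _)
      (by
        rw [ae_dirac_eq, Filter.eventually_pure]
        exact hp.onew E0 ⟨by linarith, by linarith⟩)
    rw [integral_const]
    have e1 : w * ((C0 + 2) / w) = C0 + 2 := by field_simp
    rw [e1]
    simp
  · apply rare_low (volume.restrict (Set.Icc (E0 - w / 2) (E0 + w / 2))) μ b hb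
      (fun h => fun _ => 1) (fun h => rep_one) η hη lam (fun _ => 3 * gm / 4) (integrable_const _)
      ((ae_restrict_mem measurableSet_Icc).mono fun u hu =>
        hp.one u ⟨by linarith [hu.1], by linarith [hu.2]⟩)
    rw [const_restrict _ _ _ (by linarith)]
    have e1 : η * (w * gm / (2 * η)) = w * gm / 2 := by field_simp
    rw [e1]
    have : 0 < w * gm := by positivity
    linarith

theorem BadW_meas (lam η w F1 F2 C0 gm x5 A : ℝ) (hη : 0 < η) (hw : 0 < w) (M : ℕ) (i0 : Fin d)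
    (E0 : ℝ) (h : ℕ) : MeasurableSet (BadW lam η w F1 F2 C0 gm x5 A M i0 E0 h) := by
  have := nu1_finite F1 F2 E0 w hw
  refine MeasurableSet.union (MeasurableSet.union ?_ ?_) ?_
  · exact measurableSet_le measurable_const (Phi_meas _ _ η hη lam)
  · exact measurableSet_le measurable_const (Phi_meas _ _ w hw lam)
  · exact measurableSet_le (Phi_meas _ _ η hη lam) measurable_const

/-- outside of the bad event -/
theorem good_window {h : ℕ} {lam η w F1 F2 C0 gm x5 A : ℝ} {M : ℕ} {i0 : Fin d} {E0 : ℝ}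
    (hη : 0 < η) (hw : 0 < w) (hM : 0 < M) {V : T d (2 * h + 1) → ℝ}
    (hV : V ∉ BadW lam η w F1 F2 C0 gm x5 A M i0 E0 h)
    {ψ : T d (2 * h + 1) → T d (2 * h + 1) → ℂ} {E : T d (2 * h + 1) → ℝ} (hE : EB lam V ψ E)
    (r c R ε' : ℝ) (hr : 0 < r) (hc : 0 < c) (h1r : F1 + r ≤ E0) (h2r : E0 + r ≤ F2)
    (hgm : 0 < gm) (hC0 : 0 < C0)
    (hx5 : x5 = ε' * c ^ 2 / 1152) (hηw1 : η ≤ w / 2)
    (hηw2 : η * (72 * (C0 + 2)) ≤ ε' * c ^ 2 * w) (hηw3 : η * (32 * (C0 + 2)) ≤ gm * w)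
    (hwr : w * 288 ≤ ε' * c ^ 2 * r ^ 2)
    (hball : ∀ y0 x y : T d (2 * h + 1), (∀ i, |((x - y0) i).valMinAbs| ≤ R) →
      (∀ i, |((y - y0) i).valMinAbs| ≤ R) →
      1 / 2 ≤ KT (2 * h + 1) M (th i0 (lam * Real.sqrt η) A M) (x - y)) :
    (∀ J : Finset (T d (2 * h + 1)), (∀ j ∈ J, |E j - E0| ≤ w ∧
      ∃ (B : Finset (T d (2 * h + 1))) (y0 : T d (2 * h + 1)),
      (∀ x ∈ B, ∀ i, |((x - y0) i).valMinAbs| ≤ R) ∧ c ≤ ∑ x ∈ B, ‖ψ j x‖ ^ 2) →
      (J.card : ℝ) ≤ ε' * w * (Fintype.card (T d (2 * h + 1)) : ℝ)) ∧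
    gm / (4 * Real.pi) * w * (Fintype.card (T d (2 * h + 1)) : ℝ) ≤
      ((Finset.univ.filter fun j => |E j - E0| < w).card : ℝ) := by
  have hpi := Real.pi_pos
  have := nu1_finite F1 F2 E0 w hw
  unfold BadW at hV
  simp only [Set.mem_union, Set.mem_ofPred_eq, not_or, not_le] at hV
  obtain ⟨⟨v1, v2⟩, v3⟩ := hV
  set N : ℝ := (Fintype.card (T d (2 * h + 1)) : ℝ) with hN
  have hN0 : 0 ≤ N := by rw [hN]; positivity
  obtain ⟨h1, h2⟩ := win_det hE (rep_KT M hM (th i0 (lam * Real.sqrt η) A M)) η w E0 F1 F2 r c R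
    _ _ _ hη hw hηw1 hr h1r h2r hc hball v1.le v2.le v3.le
  have e1 : η * (16 * Real.pi * w * x5 / η) = 16 * Real.pi * w * x5 := by field_simp
  have e2 : w * ((C0 + 2) / w) = C0 + 2 := by field_simp
  have e3 : η * (w * gm / (2 * η)) = w * gm / 2 := by field_simp
  rw [e1, e2] at h1
  rw [e2, e3] at h2
  constructor
  · intro J hJ
    have h3 := h1 J hJ
    have k1 : 3 * (16 * Real.pi * w * x5) = Real.pi * (ε' * c ^ 2 * w / 24) := by
      rw [hx5]; ring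
    have k2 : 3 * Real.pi * η * (C0 + 2) ≤ Real.pi * (ε' * c ^ 2 * w / 24) := by
      have := mul_le_mul_of_nonneg_left hηw2 hpi.le
      nlinarith
    have k3 : 12 * Real.pi * w ^ 2 / r ^ 2 ≤ Real.pi * (ε' * c ^ 2 * w / 24) := by
      rw [div_le_iff₀ (by positivity)]
      have := mul_le_mul_of_nonneg_left hwr (by positivity : 0 ≤ Real.pi * w)
      nlinarith
    have h4 : Real.pi * (c ^ 2 / 8) * (J.card : ℝ) ≤
        Real.pi * (c ^ 2 / 8) * (ε' * w * N) := by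
      refine h3.trans ?_
      have h5 : 3 * (16 * Real.pi * w * x5) + 3 * Real.pi * η * (C0 + 2) +
          12 * Real.pi * w ^ 2 / r ^ 2 ≤ Real.pi * (c ^ 2 / 8) * (ε' * w) := by
        rw [k1]
        linarith
      have h6 := mul_le_mul_of_nonneg_right h5 hN0
      linarith
    exact le_of_mul_le_mul_left h4 (by positivity)
  · have h3 : Real.pi * (gm / (4 * Real.pi) * w * N) ≤
        Real.pi * ((Finset.univ.filter fun j => |E j - E0| < w).card : ℝ) := by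
      refine le_trans ?_ h2
      have e4 : Real.pi * (gm / (4 * Real.pi) * w * N) = gm * w / 4 * N := by field_simp
      rw [e4]
      refine mul_le_mul_of_nonneg_right ?_ hN0
      linarith
    exact le_of_mul_le_mul_left h3 hpi

/-- **Windows of energies.** -/
theorem windows (hd : 3 ≤ d) (E1 E2 : ℝ) (hE1 : 0 < E1) (hE12 : E1 < E2) (hE2 : E2 < 4 * d) :
    ∃ c0 : ℝ, 0 < c0 ∧ ∀ b v0 β γ c ε : ℝ, 0 < v0 → β < 9 / 4 → γ < 5 / 2 → 0 < c → 0 < ε →
    ∃ l0 : ℝ, 0 < l0 ∧ ∀ (μ : Measure ℝ) [IsProbabilityMeasure μ], (∀ᵐ s ∂μ, |s| ≤ b) →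
      v0 ≤ ∫ s, (s - ∫ t, t ∂μ) ^ 2 ∂μ → ∀ lam : ℝ, 0 < lam → lam < l0 →
      ∃ Bad : ∀ h : ℕ, Set (T d (2 * h + 1) → ℝ), Rare μ Bad ∧ (∀ h, MeasurableSet (Bad h)) ∧
        ∀ᶠ h : ℕ in atTop, ∀ V, V ∉ Bad h →
          ∀ (ψ : T d (2 * h + 1) → T d (2 * h + 1) → ℂ) (E : T d (2 * h + 1) → ℝ), EB lam V ψ E →
          ∀ s t : ℝ, E1 ≤ s → t ≤ E2 → lam ^ γ ≤ t - s →
            c0 * (t - s) * (Fintype.card (T d (2 * h + 1)) : ℝ) ≤
              ((Finset.univ.filter fun j => s ≤ E j ∧ E j ≤ t).card : ℝ) ∧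
            ∀ J : Finset (T d (2 * h + 1)), (∀ j ∈ J, s ≤ E j ∧ E j ≤ t ∧
              ∃ (B : Finset (T d (2 * h + 1))) (y0 : T d (2 * h + 1)),
                (∀ x ∈ B, ∀ i, |((x - y0) i).valMinAbs| ≤ lam ^ (-β)) ∧
                  c ≤ ∑ x ∈ B, ‖ψ j x‖ ^ 2) →
              (J.card : ℝ) ≤ ε *
                ((Finset.univ.filter fun j => s ≤ E j ∧ E j ≤ t).card : ℝ) := by
  have hpi := Real.pi_pos
  have hd0 : (0 : ℝ) < d := by exact_mod_cast (by omega : 0 < d)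
  set r0 : ℝ := min E1 (4 * d - E2) / 2 with hr0
  have hr0pos : 0 < r0 := by
    have := lt_min hE1 (by linarith : 0 < 4 * (d : ℝ) - E2)
    positivity
  have hr01 : r0 ≤ E1 / 2 := by rw [hr0]; linarith [min_le_left E1 (4 * (d : ℝ) - E2)]
  have hr02 : r0 ≤ (4 * d - E2) / 2 := by rw [hr0]; linarith [min_le_right E1 (4 * (d : ℝ) - E2)]
  set F1 : ℝ := E1 - r0 with hF1
  set F2 : ℝ := E2 + r0 with hF2
  have hF1' : 0 < F1 := by linarith
  have hF2' : F2 < 4 * d := by linarith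
  set r : ℝ := r0 / 2 with hr
  have hrpos : 0 < r := by positivity
  obtain ⟨C0, gm, hm, hC0, hgm, hhm, hbulk⟩ := bulk hd F1 F2 hF1' (by linarith) hF2'
  refine ⟨gm / (16 * Real.pi), by positivity, ?_⟩
  intro b v0 β γ c ε hv0 hβ hγ hc hε
  set c1 : ℝ := gm / (4 * Real.pi) with hc1
  have hc1pos : 0 < c1 := by positivity
  set ε' : ℝ := ε * c1 / 2 with hε'
  have hε'pos : 0 < ε' := by positivity
  set x5 : ℝ := ε' * c ^ 2 / 1152 with hx5
  have hx5pos : 0 < x5 := by positivity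
  set VM : ℝ := 4 * b ^ 2 + 1 with hVM
  have hVM0 : 0 < VM := by positivity
  set D0 : ℝ := hm / (4 * C0 ^ 2 * VM) with hD0
  have hD0pos : 0 < D0 := by positivity
  obtain ⟨A, M, hA, hM, hAM⟩ := choose_AM C0 D0 (x5 / 2) hC0 hD0pos (by positivity)
  set ε2 : ℝ := min (x5 / 2) (min 1 (gm / 4)) with hε2
  have hε20 : 0 < ε2 := lt_min (by positivity) (lt_min one_pos (by positivity))
  have hε21 : ε2 ≤ x5 / 2 := min_le_left _ _
  have hε22 : ε2 ≤ 1 := (min_le_right _ _).trans (min_le_left _ _)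
  have hε23 : ε2 ≤ gm / 4 := (min_le_right _ _).trans (min_le_right _ _)
  set g' : ℝ := (max γ 2 + 5 / 2) / 2 with hg'
  have hg'1 : γ < g' := by
    rw [hg']; linarith [le_max_left γ 2]
  have hg'2 : 2 < g' := by
    rw [hg']; linarith [le_max_right γ 2]
  have hg'3 : g' < 5 / 2 := by
    rw [hg']; linarith [max_lt hγ (by norm_num : (2 : ℝ) < 5 / 2)]
  set κ : ℝ := (max (g' - 2) (2 * (β - 2)) + 1 / 2) / 2 with hκ
  have hκm : max (g' - 2) (2 * (β - 2)) < 1 / 2 := max_lt (by linarith) (by linarith)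
  have hκ1 : κ < 1 / 2 := by rw [hκ]; linarith
  have hκ2 : g' - 2 < κ := by
    rw [hκ]; linarith [le_max_left (g' - 2) (2 * (β - 2))]
  have hκ3 : 2 * (β - 2) < κ := by
    rw [hκ]; linarith [le_max_right (g' - 2) (2 * (β - 2))]
  have hκ0 : 0 < κ := by linarith
  obtain ⟨δ, hδ, hfin⟩ := fin_gen hd F1 F2 hF1' hF2' b v0 hv0 κ hκ0 hκ1 (A * M) ε2 hε20
  have hM0 : (0 : ℝ) < M := by exact_mod_cast hM
  obtain ⟨l1, hl1, hl1'⟩ := small_rpow κ δ hκ0 hδ
  obtain ⟨l2, hl2, hl2'⟩ := small_rpow (g' - 2) δ (by linarith) hδ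
  set m3 : ℝ := min (1 / 2) (min (gm / (32 * (C0 + 2))) (ε' * c ^ 2 / (72 * (C0 + 2)))) with hm3
  have hm30 : 0 < m3 := lt_min (by norm_num) (lt_min (by positivity) (by positivity))
  obtain ⟨l3, hl3, hl3'⟩ := small_rpow (2 + κ - g') m3 (by linarith) hm30
  set m4 : ℝ := min (ε' * c ^ 2 * r ^ 2 / 288) (r0 / 4) with hm4
  have hm40 : 0 < m4 := lt_min (by positivity) (by positivity)
  obtain ⟨l4, hl4, hl4'⟩ := small_rpow g' m4 (by linarith) hm40
  obtain ⟨l5, hl5, hl5'⟩ := small_rpow (g' - γ) (1 / 16) (by linarith) (by norm_num)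
  obtain ⟨l6, hl6, hl6'⟩ := small_rpow (2 + κ / 2 - β) (1 / (16 * (d * (A * M + 1))))
    (by linarith) (by positivity)
  refine ⟨min δ (min 1 (min l1 (min l2 (min l3 (min l4 (min l5 l6)))))), by
    simp only [lt_min_iff]
    exact ⟨hδ, one_pos, hl1, hl2, hl3, hl4, hl5, hl6⟩, ?_⟩
  intro μ _ hb hv lam hlam0 hlam
  simp only [lt_min_iff] at hlam
  obtain ⟨q0, q1, q2, q3, q4, q5, q6, q7⟩ := hlam
  set i0 : Fin d := ⟨0, by omega⟩ with hi0
  set η : ℝ := lam ^ (2 + κ) with hη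
  set w : ℝ := lam ^ g' with hw
  have hη0 : 0 < η := Real.rpow_pos_of_pos hlam0 _
  have hw0 : 0 < w := Real.rpow_pos_of_pos hlam0 _
  have hηδ : η ≤ δ * lam ^ 2 := by
    rw [hη, Real.rpow_add hlam0, Real.rpow_two, mul_comm]
    exact mul_le_mul_of_nonneg_right (hl1' lam hlam0 q2) (by positivity)
  have hwδ : w ≤ δ * lam ^ 2 := by
    have : w = lam ^ (g' - 2) * lam ^ 2 := by
      rw [hw, ← Real.rpow_two, ← Real.rpow_add hlam0]
      congr 1
      ring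
    rw [this]
    exact mul_le_mul_of_nonneg_right (hl2' lam hlam0 q3) (by positivity)
  have hηw : η = w * lam ^ (2 + κ - g') := by
    rw [hη, hw, ← Real.rpow_add hlam0]
    congr 1
    ring
  have hm3' := hl3' lam hlam0 q4
  have hηw1 : η ≤ w / 2 := by
    rw [hηw]
    have := mul_le_mul_of_nonneg_left (hm3'.trans (min_le_left _ _)) hw0.le
    linarith
  have hηw3 : η * (32 * (C0 + 2)) ≤ gm * w := by
    have h1 := hm3'.trans ((min_le_right _ _).trans (min_le_left _ _))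
    rw [le_div_iff₀ (by positivity)] at h1
    have := mul_le_mul_of_nonneg_left h1 hw0.le
    rw [hηw]
    linarith
  have hηw2 : η * (72 * (C0 + 2)) ≤ ε' * c ^ 2 * w := by
    have h1 := hm3'.trans ((min_le_right _ _).trans (min_le_right _ _))
    rw [le_div_iff₀ (by positivity)] at h1
    have := mul_le_mul_of_nonneg_left h1 hw0.le
    rw [hηw]
    linarith
  have hηlew : η ≤ w := by linarith
  have hm4' := hl4' lam hlam0 q5
  have hwr : w * 288 ≤ ε' * c ^ 2 * r ^ 2 := by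
    have h1 := hm4'.trans (min_le_left _ _)
    rw [le_div_iff₀ (by norm_num)] at h1
    exact h1
  have hwr0 : w ≤ r0 / 4 := hm4'.trans (min_le_right _ _)
  have hwγ : 16 * w ≤ lam ^ γ := by
    have h1 : w = lam ^ (g' - γ) * lam ^ γ := by
      rw [hw, ← Real.rpow_add hlam0]
      congr 1
      ring
    rw [h1]
    have := mul_le_mul_of_nonneg_right (hl5' lam hlam0 q6) (Real.rpow_nonneg hlam0.le γ)
    linarith
  have hsq : lam * Real.sqrt η = lam ^ (2 + κ / 2) := by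
    rw [hη, Real.sqrt_eq_rpow, ← Real.rpow_mul hlam0.le]
    have : lam * lam ^ ((2 + κ) * (1 / 2)) = lam ^ (1 : ℝ) * lam ^ ((2 + κ) * (1 / 2)) := by
      rw [Real.rpow_one]
    rw [this, ← Real.rpow_add hlam0]
    congr 1
    ring
  have hR0 : 0 < lam ^ (-β) := Real.rpow_pos_of_pos hlam0 _
  have hsmall : 2 * (d * (lam * Real.sqrt η * (A * M) * lam ^ (-β))) ≤ 1 / 8 := by
    have h1 := hl6' lam hlam0 q7
    have h2 : lam * Real.sqrt η * lam ^ (-β) = lam ^ (2 + κ / 2 - β) := by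
      rw [hsq, ← Real.rpow_add hlam0]
      congr 1
    have h3 : 2 * (d * (lam * Real.sqrt η * (A * M) * lam ^ (-β))) =
        2 * (d * (A * M)) * (lam * Real.sqrt η * lam ^ (-β)) := by ring
    rw [h3, h2]
    have h4 : 2 * (d * (A * M)) * lam ^ (2 + κ / 2 - β) ≤
        2 * (d * (A * M + 1)) * (1 / (16 * (d * (A * M + 1)))) := by
      apply mul_le_mul _ h1 (Real.rpow_nonneg hlam0.le _) (by positivity)
      have : (d : ℝ) * (A * M) ≤ d * (A * M + 1) := mul_le_mul_of_nonneg_left (by linarith) hd0.le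
      linarith
    refine h4.trans (le_of_eq ?_)
    have : (d : ℝ) * (A * M + 1) ≠ 0 := by positivity
    field_simp
    norm_num
  -- the limits
  set Vv : ℝ := ∫ s, (s - ∫ t, t ∂μ) ^ 2 ∂μ with hVv
  have hVv0 : 0 < Vv := lt_of_lt_of_le hv0 hv
  have hVle : Vv ≤ VM := (var_le μ b hb).trans (by linarith)
  have hpar : Par d μ lam η w F1 F2 C0 gm x5 A M i0 := by
    refine ⟨hη0, hw0, hM, hA, ?_, ?_, ?_⟩
    · intro u hu
      obtain ⟨g1, g2, g3⟩ := hbulk u hu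
      have hgp : 0 < (g0 d u).im := hgm.trans_le g1
      obtain ⟨l, hl, hl'⟩ := lim_K μ lam η u hη0 i0 A hA M hM ε2 Vv D0 hD0pos (by
        rw [hD0]
        apply div_le_div₀ (hhm.le.trans g3) g3 (by positivity)
        have h1 : (g0 d u).im ^ 2 ≤ C0 ^ 2 := pow_le_pow_left₀ hgp.le g2 2
        calc 4 * (g0 d u).im ^ 2 * Vv ≤ 4 * C0 ^ 2 * Vv :=
              mul_le_mul_of_nonneg_right (by linarith) hVv0.le
          _ ≤ 4 * C0 ^ 2 * VM := mul_le_mul_of_nonneg_left hVle (by positivity)) hgp.le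
        (fun P hP G hG => hfin μ hb Vv hVv hv u hu.1 hu.2 P hP lam η hlam0 q0 le_rfl hηδ G hG)
      refine ⟨l, hl, hl'.trans ?_⟩
      have h2 : (g0 d u).im * (1 / M + 1 / (1 + D0 * A ^ 2)) ≤
          C0 * (1 / M + 1 / (1 + D0 * A ^ 2)) := mul_le_mul_of_nonneg_right g2 (by positivity)
      linarith
    · intro u hu
      obtain ⟨g1, g2, g3⟩ := hbulk u hu
      obtain ⟨l, hl, hl'⟩ := lim_1 μ lam η u hη0 ε2 Vv (A * M) (by positivity)
        (fun P hP G hG => hfin μ hb Vv hVv hv u hu.1 hu.2 P hP lam η hlam0 q0 le_rfl hηδ G hG)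
      refine ⟨l, hl, ?_⟩
      have := (abs_le.1 hl').1
      linarith
    · intro u hu
      obtain ⟨g1, g2, g3⟩ := hbulk u hu
      obtain ⟨l, hl, hl'⟩ := lim_1 μ lam w u hw0 ε2 Vv (A * M) (by positivity)
        (fun P hP G hG => hfin μ hb Vv hVv hv u hu.1 hu.2 P hP lam w hlam0 q0 hηlew hwδ G hG)
      refine ⟨l, hl, ?_⟩
      have := (abs_le.1 hl').2
      linarith
  -- the bad event
  set I : Finset ℤ := Finset.Icc ⌊E1 / (2 * w)⌋ ⌊E2 / (2 * w)⌋ with hI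
  have hcen : ∀ i ∈ I, F1 + r ≤ (2 * i + 1) * w ∧ (2 * i + 1) * w + r ≤ F2 := by
    intro i hi
    obtain ⟨h1, h2⟩ := Finset.mem_Icc.1 hi
    have h3 : (i : ℝ) ≤ E2 / (2 * w) := (Int.cast_le.2 h2).trans (Int.floor_le _)
    have h4 : E1 / (2 * w) < (i : ℝ) + 1 :=
      (Int.lt_floor_add_one _).trans_le (by exact_mod_cast Int.add_le_add_right h1 1)
    rw [le_div_iff₀ (by positivity)] at h3
    rw [div_lt_iff₀ (by positivity)] at h4
    constructor
    · rw [hF1, hr]; linarith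
    · rw [hF2, hr]; linarith
  refine ⟨fun h => ⋃ i ∈ I, BadW lam η w F1 F2 C0 gm x5 A M i0 ((2 * (i : ℝ) + 1) * w) h, ?_, ?_, ?_⟩
  · refine Rare.biUnion (by omega) I
      (fun i h => BadW lam η w F1 F2 C0 gm x5 A M i0 ((2 * (i : ℝ) + 1) * w) h) fun i hi => ?_
    obtain ⟨h1, h2⟩ := hcen i hi
    exact BadW_rare (by omega) μ b hb lam η w F1 F2 C0 gm x5 A M i0 hpar hgm hx5pos _
      (by rw [hr] at h1; linarith) (by rw [hr] at h2; linarith)
  · intro h
    exact Finset.measurableSet_biUnion I fun i _ =>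
      BadW_meas lam η w F1 F2 C0 gm x5 A hη0 hw0 M i0 _ h
  · obtain ⟨H2, hH2⟩ := exists_nat_gt (32 * d * Real.pi * lam ^ (-β))
    filter_upwards [eventually_ge_atTop H2] with h hh V hV ψ E hE s t hs ht hst
    have hh2 : (H2 : ℝ) ≤ h := by exact_mod_cast hh
    have hcube : 2 * (d * ((lam * Real.sqrt η * (A * M) + 2 * Real.pi / ((2 * h + 1 : ℕ) : ℝ)) *
        lam ^ (-β))) ≤ 1 / 4 := by
      have hL : (0 : ℝ) < ((2 * h + 1 : ℕ) : ℝ) := by positivity
      have h1 : 2 * (d * (2 * Real.pi / ((2 * h + 1 : ℕ) : ℝ) * lam ^ (-β))) ≤ 1 / 8 := by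
        have h2 : 2 * (d * (2 * Real.pi / ((2 * h + 1 : ℕ) : ℝ) * lam ^ (-β))) =
            4 * d * Real.pi * lam ^ (-β) / ((2 * h + 1 : ℕ) : ℝ) := by ring
        rw [h2, div_le_iff₀ hL]
        push_cast
        linarith
      have h3 : 2 * (d * ((lam * Real.sqrt η * (A * M) + 2 * Real.pi / ((2 * h + 1 : ℕ) : ℝ)) *
        lam ^ (-β))) = 2 * (d * (lam * Real.sqrt η * (A * M) * lam ^ (-β))) +
          2 * (d * (2 * Real.pi / ((2 * h + 1 : ℕ) : ℝ) * lam ^ (-β))) := by ring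
      rw [h3]
      linarith
    have hball : ∀ y0 x y : T d (2 * h + 1), (∀ i, |((x - y0) i).valMinAbs| ≤ lam ^ (-β)) →
        (∀ i, |((y - y0) i).valMinAbs| ≤ lam ^ (-β)) →
        1 / 2 ≤ KT (2 * h + 1) M (th i0 (lam * Real.sqrt η) A M) (x - y) := fun y0 x y hx hy =>
      KT_large (2 * h + 1) M hM (th i0 (lam * Real.sqrt η) A M) (lam * Real.sqrt η * (A * M))
        (lam ^ (-β)) (fun m j => th_le i0 _ A (by positivity) hA M m j) hR0.le hcube y0 x y hx hy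
    set N : ℝ := (Fintype.card (T d (2 * h + 1)) : ℝ) with hN
    have hN0 : 0 ≤ N := by rw [hN]; positivity
    have hwin : ∀ i : ℤ, ⌊s / (2 * w)⌋ ≤ i → i ≤ ⌊t / (2 * w)⌋ → _ := fun i hi1 hi2 => by
      have hiI : i ∈ I := by
        rw [hI, Finset.mem_Icc]
        constructor
        · exact (Int.floor_le_floor (div_le_div_of_nonneg_right hs (by positivity))).trans hi1
        · exact hi2.trans (Int.floor_le_floor (div_le_div_of_nonneg_right ht (by positivity)))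
      have hVi : V ∉ BadW lam η w F1 F2 C0 gm x5 A M i0 ((2 * (i : ℝ) + 1) * w) h := by
        intro hbad
        exact hV (Set.mem_biUnion hiI hbad)
      obtain ⟨h1, h2⟩ := hcen i hiI
      exact good_window hη0 hw0 hM hVi hE r c (lam ^ (-β)) ε' hrpos hc h1 h2 hgm hC0 hx5
        hηw1 hηw2 hηw3 hwr hball
    have hcov := cover E w s t hw0 (hwγ.trans hst)
      (fun j => ∃ (B : Finset (T d (2 * h + 1))) (y0 : T d (2 * h + 1)),
        (∀ x ∈ B, ∀ i, |((x - y0) i).valMinAbs| ≤ lam ^ (-β)) ∧ c ≤ ∑ x ∈ B, ‖ψ j x‖ ^ 2)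
      (ε' * w * N) (c1 * w * N) (by positivity)
      (fun i hi1 hi2 => (hwin i hi1 hi2).1) (fun i hi1 hi2 => (hwin i hi1 hi2).2)
    refine ⟨?_, fun J hJ => hcov.1 J hJ ε hε.le (le_of_eq (by rw [hε']; ring))⟩
    have h1 := hcov.2 (by positivity)
    refine le_trans (le_of_eq ?_) h1
    rw [hc1]
    field_simp
    ring

end Pool.Agent.Zk60.LL.Wfin
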